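import Pool.Agent.Lib.MP_849e4d_lc.Limit

/-!
Descending `ω₁`-sequences of conditions for MP_849e4d_lc: the ground model part of the proof that
the generic ultrafilter is not of the maximal Tukey type.
-/

set_option autoImplicit false

namespace Pool.Agent.Lib.MP_849e4d_lc

open Set Filter

theorem exists_closure' {Ω Λ : Type*} [LinearOrder Ω] [Uncountable Ω]
    (hc : ∀ a : Ω, (Iio a).Countable) (L : Ω → Set Λ) (hL : ∀ ξ, (L ξ).Countable)
    (𝓓 : Finset ℕ → Finset (Λ × ℕ) → Set Ω) :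
    ∃ h : Ω → Ω, ∀ ξ, ξ < h ξ ∧ ∀ t Γ, (∀ v ∈ Γ, v.1 ∈ L ξ) → ¬ (𝓓 t Γ).Countable →
      ∃ ν ∈ 𝓓 t Γ, ξ < ν ∧ ν < h ξ := by
  classical
  have hpick : ∀ (ξ : Ω) (t : Finset ℕ) (Γ : Finset (Λ × ℕ)), ∃ ν, ¬ (𝓓 t Γ).Countable →
      ν ∈ 𝓓 t Γ ∧ ξ < ν := by
    intro ξ t Γ
    by_cases h : (𝓓 t Γ).Countable
    · exact ⟨ξ, fun h' => absurd h h'⟩
    · by_contra hno
      push Not at hno
      apply h
      have h2 : (Iic ξ).Countable := by
        rw [← Iio_insert]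
        exact (hc ξ).insert ξ
      refine h2.mono ?_
      intro ν hν
      exact (hno ν).2 hν
  choose pick hpick using hpick
  have hb : ∀ ξ : Ω, ∃ a, ∀ c ∈ insert ξ ((fun x : Finset ℕ × Finset (Λ × ℕ) => pick ξ x.1 x.2) ''
      (univ ×ˢ {Γ : Finset (Λ × ℕ) | ∀ v ∈ Γ, v ∈ (L ξ) ×ˢ (univ : Set ℕ)})), c < a := by
    intro ξ
    apply exists_strict_bound hc
    exact (((countable_univ).prod (countable_finsets _ ((hL ξ).prod countable_univ))).image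
      _).insert _
  choose h hh using hb
  refine ⟨h, fun ξ => ⟨hh ξ ξ (mem_insert _ _), ?_⟩⟩
  intro t Γ hΓ hunc
  refine ⟨pick ξ t Γ, (hpick ξ t Γ hunc).1, (hpick ξ t Γ hunc).2, ?_⟩
  exact hh ξ _ (Or.inr ⟨(t, Γ), ⟨mem_univ _, fun v hv => ⟨hΓ v hv, mem_univ _⟩⟩, rfl⟩)

theorem exists_closed {Ω : Type*} [LinearOrder Ω] [WellFoundedLT Ω] [Uncountable Ω]
    (hc : ∀ a : Ω, (Iio a).Countable) (h : Ω → Ω) (b : Ω) :
    ∃ δ, b < δ ∧ ∀ ξ < δ, h ξ < δ := by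
  -- a monotone bound
  have hk : ∀ ζ : Ω, ∃ a : Ω, ζ < a ∧ ∀ ξ ≤ ζ, h ξ < a := by
    intro ζ
    have hcount : (Iic ζ).Countable := by
      rw [← Iio_insert]; exact (hc ζ).insert ζ
    obtain ⟨a, ha⟩ := exists_strict_bound hc (insert ζ (h '' Iic ζ)) ((hcount.image _).insert _)
    exact ⟨a, ha ζ (mem_insert _ _), fun ξ hξ => ha _ (Or.inr ⟨ξ, hξ, rfl⟩)⟩
  choose k hk1 hk2 using hk
  let s : ℕ → Ω := fun n => k^[n] b
  have hs : ∀ n, s (n + 1) = k (s n) := fun n => Function.iterate_succ_apply' k n _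
  obtain ⟨a, ha⟩ := exists_strict_bound hc (range s) (countable_range s)
  let δ : Ω := (wellFounded_lt (α := Ω)).min {x | ∀ n, s n < x}
    ⟨a, fun n => ha _ (mem_range_self n)⟩
  have hδ1 : ∀ n, s n < δ := (wellFounded_lt (α := Ω)).min_mem {x | ∀ n, s n < x} _
  have hδ2 : ∀ x, x < δ → ∃ n, x ≤ s n := by
    intro x hx
    by_contra hno
    push Not at hno
    exact (wellFounded_lt (α := Ω)).not_lt_min {x | ∀ n, s n < x} hno hx
  refine ⟨δ, hδ1 0, ?_⟩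
  intro ξ hξ
  obtain ⟨n, hn⟩ := hδ2 ξ hξ
  have h1 := hk2 (s n) ξ hn
  rw [← hs n] at h1
  exact h1.trans (hδ1 _)

theorem exists_low {Ω : Type*} [LinearOrder Ω] [WellFoundedLT Ω] [Uncountable Ω]
    (hc : ∀ a : Ω, (Iio a).Countable) {Λ : Type*} {o : Λ} (S : Ω → Cond Λ o)
    (hS : ∀ a b, a ≤ b → S b ≤ S a) (D0 : Ω → Set ℕ) (hD0 : ∀ ν, D0 ν ∈ (S ν).Z) :
    ∃ δ : Ω, ∃ q : Cond Λ o, (∀ ν < δ, q ≤ S ν) ∧
      ∃ X ∈ q.Z, {ν | ν < δ ∧ X ⊆ D0 ν}.Infinite := by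
  classical
  obtain ⟨b⟩ : Nonempty Ω := inferInstance
  -- the limit filters
  let u : Λ → ℕ → Filter ℕ := fun i n => ⨅ ξ, (S ξ).F i n
  let U0 : Filter ℕ := ⨅ ξ, (S ξ).Z
  have hu : ∀ i n (A : Set ℕ), A ∈ u i n ↔ ∃ ξ, A ∈ (S ξ).F i n := by
    intro i n A
    refine mem_iInf_of_directed ?_ A
    intro a c
    exact ⟨max a c, (hS _ _ (le_max_left _ _)).2.1 i n, (hS _ _ (le_max_right _ _)).2.1 i n⟩
  have hU0 : ∀ (A : Set ℕ), A ∈ U0 ↔ ∃ ξ, A ∈ (S ξ).Z := by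
    intro A
    refine mem_iInf_of_directed ?_ A
    intro a c
    exact ⟨max a c, (hS _ _ (le_max_left _ _)).2.2, (hS _ _ (le_max_right _ _)).2.2⟩
  have hSle : ∀ ξ i n, u i n ≤ (S ξ).F i n := fun ξ i n => iInf_le _ ξ
  have hSleZ : ∀ ξ, U0 ≤ (S ξ).Z := fun ξ => iInf_le _ ξ
  have huinf : ∀ i n, ∀ B ∈ u i n, B.Infinite := by
    intro i n B hB
    obtain ⟨ξ, hξ⟩ := (hu i n B).1 hB
    exact (S ξ).inf i n B hξ
  have hugood : ∀ ζ, ∀ i ∈ (S ζ).L, ∀ n, ∀ B ∈ u i n, ∀ j ∈ (S ζ).L,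
      {m | B ∈ u j m}.Infinite := by
    intro ζ i hi n B hB j hj
    obtain ⟨ξ, hξ⟩ := (hu i n B).1 hB
    have h1 := hS _ _ (le_max_left ξ ζ)
    have h2 := hS _ _ (le_max_right ξ ζ)
    refine ((S (max ξ ζ)).good i (h2.1 hi) n B (h1.2.1 i n hξ) j (h2.1 hj)).mono ?_
    intro m hm
    exact (hu j m B).2 ⟨_, hm⟩
  have hUgood : ∀ ζ, ∀ B ∈ U0, ∀ j ∈ (S ζ).L, {m | B ∈ u j m}.Infinite := by
    intro ζ B hB j hj
    obtain ⟨ξ, hξ⟩ := (hU0 B).1 hB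
    have h1 := hS _ _ (le_max_left ξ ζ)
    have h2 := hS _ _ (le_max_right ξ ζ)
    refine ((S (max ξ ζ)).goodZ B (h1.2.2 hξ) j (h2.1 hj)).mono ?_
    intro m hm
    exact (hu j m B).2 ⟨_, hm⟩
  -- the closed ordinal
  obtain ⟨h, hh⟩ := exists_closure' hc (fun ξ => (S ξ).L) (fun ξ => (S ξ).hL)
    (fun t Γ => {ν | (t : Set ℕ) ⊆ D0 ν ∧ ∀ v ∈ Γ, D0 ν ∈ u v.1 v.2})
  obtain ⟨δ, hbδ, hcl⟩ := exists_closed hc h b
  obtain ⟨p, hp1, hpL⟩ := Cond.exists_inf (S '' Iio δ) ((hc δ).image S) (by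
    rintro _ ⟨m, -, rfl⟩ _ ⟨n, -, rfl⟩
    rcases le_total m n with h | h
    · exact Or.inr (hS m n h)
    · exact Or.inl (hS n m h))
  obtain ⟨𝓑0, h𝓑0, hB1, hB2⟩ := p.exists_base
  -- `p` is the union of the `S ν`: its members are members of the limit filters
  have hpLex : ∀ i ∈ p.L, ∃ η < δ, i ∈ (S η).L := by
    intro i hi
    rw [hpL] at hi
    rcases hi with h | h
    · rw [mem_singleton_iff] at h
      exact ⟨b, hbδ, by rw [h]; exact (S b).ho⟩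
    · obtain ⟨_, ⟨η, hη, rfl⟩, hc⟩ := mem_iUnion₂.1 h
      exact ⟨η, hη, hc⟩
  have hpLδ : p.L ⊆ (S δ).L := by
    intro i hi
    obtain ⟨η, hη, hi'⟩ := hpLex i hi
    exact (hS η δ hη.le).1 hi'
  -- a countable family containing bases of all `S ν`, `ν < δ`
  have hbase : ∀ ν : Ω, ∃ 𝓑 : Set (Set ℕ), 𝓑.Countable ∧
      (∀ i ∈ (S ν).L, ∀ n, ∀ B ∈ (S ν).F i n, ∃ b ∈ 𝓑, b ∈ (S ν).F i n ∧ b ⊆ B) ∧
      (∀ B ∈ (S ν).Z, ∃ b ∈ 𝓑, b ∈ (S ν).Z ∧ b ⊆ B) := fun ν => (S ν).exists_base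
  choose 𝓑1 h𝓑1 hB1' hB2' using hbase
  obtain ⟨𝓑, h𝓑, hsub, hBu, hBi, hBc⟩ := exists_family (⋃ ν ∈ Iio δ, 𝓑1 ν)
    ((hc δ).biUnion (fun ν _ => h𝓑1 ν))
  have hsub' : ∀ ν < δ, ∀ B ∈ 𝓑1 ν, B ∈ 𝓑 := fun ν hν B hB => hsub (mem_biUnion hν hB)
  -- the trace condition
  let F' : Λ → ℕ → Filter ℕ := fun i n =>
    if i ∈ p.L then trFilter 𝓑 hBu hBi (u i n) else cofinite
  have hF1 : ∀ i ∈ p.L, ∀ n, F' i n = trFilter 𝓑 hBu hBi (u i n) := fun i hi n => by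
    simp only [F', if_pos hi]
  have hF2 : ∀ i ∉ p.L, ∀ n, F' i n = cofinite := fun i hi n => by
    simp only [F', if_neg hi]
  have hcof : ((cofinite : Filter ℕ)).IsCountablyGenerated := by
    rw [Nat.cofinite_eq_atTop]; infer_instance
  let p' : Cond Λ o :=
    { L := p.L
      F := F'
      Z := trFilter 𝓑 hBu hBi U0
      hL := p.hL
      ho := p.ho
      cF := fun i n => by
        by_cases hi : i ∈ p.L
        · rw [hF1 i hi]; exact trFilter_cg h𝓑 _ _ _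
        · rw [hF2 i hi]; exact hcof
      cZ := trFilter_cg h𝓑 _ _ _
      inf := fun i n B hB => by
        by_cases hi : i ∈ p.L
        · rw [hF1 i hi] at hB
          obtain ⟨B0, -, h2, h3⟩ := hB
          exact (huinf i n B0 h2).mono h3
        · rw [hF2 i hi] at hB; exact (Cond.init Λ o).inf i n B hB
      leF := fun i n => by
        by_cases hi : i ∈ p.L
        · rw [hF1 i hi]
          intro A hA
          exact ⟨A, hBc A hA, (hSle b i n) ((S b).leF i n hA), Subset.rfl⟩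
        · rw [hF2 i hi]
      leZ := by
        intro A hA
        exact ⟨A, hBc A hA, (hSleZ b) ((S b).leZ hA), Subset.rfl⟩
      off := hF2
      good := fun i hi n B hB j hj => by
        rw [hF1 i hi] at hB
        obtain ⟨B0, h1, h2, h3⟩ := hB
        refine (hugood δ i (hpLδ hi) n B0 h2 j (hpLδ hj)).mono ?_
        intro m hm
        simp only [mem_ofPred_eq]
        rw [hF1 j hj]
        exact ⟨B0, h1, hm, h3⟩
      goodZ := fun B hB j hj => by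
        obtain ⟨B0, h1, h2, h3⟩ := hB
        refine (hUgood δ B0 h2 j (hpLδ hj)).mono ?_
        intro m hm
        simp only [mem_ofPred_eq]
        rw [hF1 j hj]
        exact ⟨B0, h1, hm, h3⟩ }
  have hp' : ∀ ν < δ, p' ≤ S ν := by
    intro ν hν
    have hLν : (S ν).L ⊆ p.L := by
      intro i hi
      rw [hpL]
      exact Or.inr (mem_biUnion ⟨ν, hν, rfl⟩ hi)
    refine ⟨hLν, ?_, ?_⟩
    · intro i n
      by_cases hi : i ∈ (S ν).L
      · intro A hA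
        obtain ⟨B, hB, hBF, hBA⟩ := hB1' ν i hi n A hA
        change A ∈ F' i n
        rw [hF1 i (hLν hi)]
        exact ⟨B, hsub' ν hν B hB, hSle ν i n hBF, hBA⟩
      · rw [(S ν).off i hi n]
        exact p'.leF i n
    · intro A hA
      obtain ⟨B, hB, hBF, hBA⟩ := hB2' ν A hA
      exact ⟨B, hsub' ν hν B hB, hSleZ ν hBF, hBA⟩
  -- the fusion
  obtain ⟨X, Γ, hΓL, hX1, hX2, hX3, hX4⟩ := fusion u U0 D0 p.L p.hL 𝓑 h𝓑
    (fun ν => hSleZ ν (hD0 ν))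
    (fun i _ n B hB => huinf i n B hB)
    (fun i hi n B hB j hj => hugood δ i (hpLδ hi) n B hB j (hpLδ hj))
    (fun B hB j hj => hUgood δ B hB j (hpLδ hj)) (Iio δ) (by
      intro t Γ hΓ hunc s
      have hstep : ∀ Γ' : Finset (Λ × ℕ), (∀ v ∈ Γ', v.1 ∈ p.L) →
          ∃ ξ < δ, ∀ v ∈ Γ', v.1 ∈ (S ξ).L := by
        intro Γ'
        induction Γ' using Finset.induction_on with
        | empty => exact fun _ => ⟨b, hbδ, fun v hv => absurd hv (Finset.notMem_empty v)⟩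
        | insert v Γ' _ ih =>
          intro hv
          obtain ⟨ξ, hξ, hξ'⟩ := ih (fun w hw => hv w (Finset.mem_insert_of_mem hw))
          obtain ⟨η, hη, hη'⟩ := hpLex v.1 (hv v (Finset.mem_insert_self _ _))
          refine ⟨max ξ η, max_lt hξ hη, ?_⟩
          intro w hw
          rcases Finset.mem_insert.1 hw with rfl | hw
          · exact (hS _ _ (le_max_right _ _)).1 hη'
          · exact (hS _ _ (le_max_left _ _)).1 (hξ' w hw)
      have hstep2 : ∀ s' : Finset Ω, ∃ ξ < δ, ∀ ν ∈ s', ν < δ → ν ≤ ξ := by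
        intro s'
        induction s' using Finset.induction_on with
        | empty => exact ⟨b, hbδ, fun v hv => absurd hv (Finset.notMem_empty v)⟩
        | insert v s' _ ih =>
          obtain ⟨ξ, hξ, hξ'⟩ := ih
          by_cases hvδ : v < δ
          · refine ⟨max ξ v, max_lt hξ hvδ, ?_⟩
            intro ν hν hνδ
            rcases Finset.mem_insert.1 hν with rfl | hν
            · exact le_max_right _ _
            · exact (hξ' ν hν hνδ).trans (le_max_left _ _)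
          · refine ⟨ξ, hξ, ?_⟩
            intro ν hν hνδ
            rcases Finset.mem_insert.1 hν with rfl | hν
            · exact absurd hνδ hvδ
            · exact hξ' ν hν hνδ
      obtain ⟨ξ1, hξ1, hξ1'⟩ := hstep Γ hΓ
      obtain ⟨ξ2, hξ2, hξ2'⟩ := hstep2 s
      obtain ⟨ν, hν, hν1, hν2⟩ := (hh (max ξ1 ξ2)).2 t Γ
        (fun v hv => (hS _ _ (le_max_left _ _)).1 (hξ1' v hv)) hunc
      have hνδ : ν < δ := hν2.trans (hcl _ (max_lt hξ1 hξ2))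
      refine ⟨ν, hνδ, ?_, hν.1, hν.2⟩
      intro hνs
      exact absurd (hξ2' ν hνs hνδ) (not_le.2 (lt_of_le_of_lt (le_max_right _ _) hν1)))
  obtain ⟨q, hq, X', hX', hX'q, -⟩ := p'.exists_refine X Γ
    (fun i hi n hn B hB => by
      change B ∈ F' i n at hB
      rw [hF1 i hi] at hB
      obtain ⟨B0, h1, h2, h3⟩ := hB
      exact (hX2 (i, n) hn B0 h1 h2).mono (inter_subset_inter_left _ h3))
    (fun i hi n hn B hB j hj => by
      change B ∈ F' i n at hB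
      rw [hF1 i hi] at hB
      obtain ⟨B0, h1, h2, h3⟩ := hB
      refine (hX3 (i, n) hn B0 h1 h2 j hj).mono ?_
      rintro m ⟨hm1, hm2⟩
      refine ⟨hm1, ?_⟩
      change B ∈ F' j m
      rw [hF1 j hj]
      exact ⟨B0, h1, hm2, h3⟩)
    (fun B hB j hj => by
      obtain ⟨B0, h1, h2, h3⟩ := hB
      refine (hX4 B0 h1 h2 j hj).mono ?_
      rintro m ⟨hm1, hm2⟩
      refine ⟨hm1, ?_⟩
      change B ∈ F' j m
      rw [hF1 j hj]
      exact ⟨B0, h1, hm2, h3⟩)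
  refine ⟨δ, q, fun ν hν => hq.trans (hp' ν hν), X', hX'q, hX1.mono ?_⟩
  rintro ν ⟨hν1, hν2⟩
  exact ⟨hν1, hX'.trans hν2⟩

/-- Descending sequences of conditions below `p0` that meet the given dense requirements. -/
theorem exists_desc {Ω : Type*} [LinearOrder Ω] [WellFoundedLT Ω]
    (hc : ∀ a : Ω, (Iio a).Countable) {Λ : Type*} {o : Λ} (p0 : Cond Λ o)
    (R : Ω → Cond Λ o → Prop) (hR : ∀ ξ, ∀ p ≤ p0, ∃ q ≤ p, R ξ q) :
    ∃ S : Ω → Cond Λ o, (∀ a b, a ≤ b → S b ≤ S a) ∧ ∀ ξ, S ξ ≤ p0 ∧ R ξ (S ξ) := by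
  classical
  have hlb : ∀ 𝒞 : Set (Cond Λ o), ∃ p : Cond Λ o, 𝒞.Countable →
      (∀ a ∈ 𝒞, ∀ b ∈ 𝒞, a ≤ b ∨ b ≤ a) → ∀ c ∈ 𝒞, p ≤ c := by
    intro 𝒞
    by_cases h : 𝒞.Countable ∧ ∀ a ∈ 𝒞, ∀ b ∈ 𝒞, a ≤ b ∨ b ≤ a
    · obtain ⟨p, hp, -⟩ := Cond.exists_inf 𝒞 h.1 h.2
      exact ⟨p, fun _ _ => hp⟩
    · exact ⟨Cond.init Λ o, fun h1 h2 => absurd ⟨h1, h2⟩ h⟩
  choose lb hlb using hlb
  have hst : ∀ (ξ : Ω) (p : Cond Λ o), ∃ q : Cond Λ o, q ≤ p ∧ (p ≤ p0 → R ξ q) := by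
    intro ξ p
    by_cases hp : p ≤ p0
    · obtain ⟨q, hq, h⟩ := hR ξ p hp
      exact ⟨q, hq, fun _ => h⟩
    · exact ⟨p, le_rfl, fun h => absurd h hp⟩
  choose st hst1 hst2 using hst
  let S : Ω → Cond Λ o := (wellFounded_lt (α := Ω)).fix
    (fun ξ prev => st ξ (lb (insert p0 (range (fun η : Iio ξ => prev η.1 η.2)))))
  have hS : ∀ ξ, S ξ = st ξ (lb (insert p0 (S '' Iio ξ))) := by
    intro ξ
    have h := (wellFounded_lt (α := Ω)).fix_eq
      (fun ξ (prev : ∀ y, y < ξ → Cond Λ o) =>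
        st ξ (lb (insert p0 (range (fun η : Iio ξ => prev η.1 η.2))))) ξ
    have h2 : range (fun η : Iio ξ => S η.1) = S '' Iio ξ := by
      ext c
      simp only [mem_range, mem_image, Subtype.exists, mem_Iio, exists_prop]
    rw [← h2]
    exact h
  have hall : ∀ ξ, S ξ ≤ p0 ∧ ∀ η < ξ, S ξ ≤ S η := by
    intro ξ
    induction ξ using (wellFounded_lt (α := Ω)).induction with
    | _ ξ ih =>
      have h1 := hlb (insert p0 (S '' Iio ξ)) (((hc ξ).image S).insert _) (by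
        rintro _ (rfl | ⟨a, ha, rfl⟩) _ (rfl | ⟨b, hb, rfl⟩)
        · exact Or.inl le_rfl
        · exact Or.inr (ih b hb).1
        · exact Or.inl (ih a ha).1
        · rcases lt_trichotomy a b with h | h | h
          · exact Or.inr ((ih b hb).2 a h)
          · rw [h]; exact Or.inl le_rfl
          · exact Or.inl ((ih a ha).2 b h))
      rw [hS ξ]
      exact ⟨(hst1 ξ _).trans (h1 _ (mem_insert _ _)), fun η hη =>
        (hst1 ξ _).trans (h1 _ (Or.inr ⟨η, hη, rfl⟩))⟩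
  have hmono' : ∀ a b, a ≤ b → S b ≤ S a := by
    intro a b hab
    rcases hab.eq_or_lt with h | h
    · rw [h]
    · exact (hall b).2 a h
  refine ⟨S, hmono', fun ξ => ⟨(hall ξ).1, ?_⟩⟩
  have h1 := hlb (insert p0 (S '' Iio ξ)) (((hc ξ).image S).insert _) (by
    rintro _ (rfl | ⟨a, ha, rfl⟩) _ (rfl | ⟨b, hb, rfl⟩)
    · exact Or.inl le_rfl
    · exact Or.inr (hall b).1
    · exact Or.inl (hall a).1
    · rcases le_total a b with h | h
      · exact Or.inr (hmono' a b h)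
      · exact Or.inl (hmono' b a h))
  rw [hS ξ]
  exact hst2 ξ _ (h1 _ (mem_insert _ _))

end Pool.Agent.Lib.MP_849e4d_lc
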