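import Mathlib

/-!
The fusion lemma for MP_849e4d_lc: a generic (Rasiowa-Sikorski) construction of a set contained
in infinitely many members of a given uncountable family and compatible with countably many
requirements.
-/

set_option autoImplicit false

namespace Pool.Agent.Lib.MP_849e4d_lc

open Set Filter

/-- Pigeonhole: a map from an uncountable set to `ℕ` has an uncountable fibre. -/
theorem exists_uncountable_fibre {Ω : Type*} (A : Set Ω) (hA : ¬ A.Countable)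
    (P : Ω → ℕ → Prop) (h : ∀ ν ∈ A, ∃ m, P ν m) : ∃ m, ¬ {ν | ν ∈ A ∧ P ν m}.Countable := by
  by_contra hc
  push Not at hc
  apply hA
  refine (countable_iUnion hc).mono ?_
  intro ν hν
  obtain ⟨m, hm⟩ := h ν hν
  exact mem_iUnion.2 ⟨m, hν, hm⟩

theorem fusion {Λ Ω : Type*} [Uncountable Ω] (u : Λ → ℕ → Filter ℕ) (U : Filter ℕ)
    (D : Ω → Set ℕ) (L : Set Λ) (hL : L.Countable) (𝓑 : Set (Set ℕ)) (h𝓑 : 𝓑.Countable)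
    (hD : ∀ ν, D ν ∈ U)
    (hinf : ∀ i ∈ L, ∀ n, ∀ B ∈ u i n, B.Infinite)
    (hgood : ∀ i ∈ L, ∀ n, ∀ B ∈ u i n, ∀ j ∈ L, {m | B ∈ u j m}.Infinite)
    (hgoodZ : ∀ B ∈ U, ∀ j ∈ L, {m | B ∈ u j m}.Infinite)
    (I : Set Ω)
    (hI : ∀ (t : Finset ℕ) (Γ : Finset (Λ × ℕ)), (∀ v ∈ Γ, v.1 ∈ L) →
      ¬ {ν | (t : Set ℕ) ⊆ D ν ∧ ∀ v ∈ Γ, D ν ∈ u v.1 v.2}.Countable →
      ∀ s : Finset Ω, ∃ ν ∈ I, ν ∉ s ∧ (t : Set ℕ) ⊆ D ν ∧ ∀ v ∈ Γ, D ν ∈ u v.1 v.2) :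
    ∃ (X : Set ℕ) (Γ : Set (Λ × ℕ)), (∀ v ∈ Γ, v.1 ∈ L) ∧ {ν | ν ∈ I ∧ X ⊆ D ν}.Infinite ∧
      (∀ v ∈ Γ, ∀ B ∈ 𝓑, B ∈ u v.1 v.2 → (B ∩ X).Infinite) ∧
      (∀ v ∈ Γ, ∀ B ∈ 𝓑, B ∈ u v.1 v.2 → ∀ j ∈ L, {m | (j, m) ∈ Γ ∧ B ∈ u j m}.Infinite) ∧
      (∀ B ∈ 𝓑, B ∈ U → ∀ j ∈ L, {m | (j, m) ∈ Γ ∧ B ∈ u j m}.Infinite) := by
  classical
  -- the states
  let 𝓓 : Finset ℕ → Finset (Λ × ℕ) → Set Ω := fun t Γ =>
    {ν | (t : Set ℕ) ⊆ D ν ∧ ∀ v ∈ Γ, D ν ∈ u v.1 v.2}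
  let Good : Finset ℕ × Finset (Λ × ℕ) × Finset Ω → Prop := fun x =>
    (∀ v ∈ x.2.1, v.1 ∈ L) ∧ ¬ (𝓓 x.1 x.2.1).Countable ∧ (∀ ν ∈ x.2.2, ν ∈ I ∧ ν ∈ 𝓓 x.1 x.2.1)
  let P := {x : Finset ℕ × Finset (Λ × ℕ) × Finset Ω // Good x}
  -- extension of the finite set of ordinals
  have ext3 : ∀ x : P, ∃ y : P, x ≤ y ∧ x.1.2.2.card < y.1.2.2.card := by
    rintro ⟨⟨t, Γ, s⟩, h1, h2, h3⟩
    obtain ⟨ν, hν, hνs, hν1, hν2⟩ := hI t Γ h1 h2 s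
    refine ⟨⟨⟨t, Γ, insert ν s⟩, h1, h2, ?_⟩, ⟨le_rfl, le_rfl, Finset.subset_insert _ _⟩, ?_⟩
    · intro ν' hν'
      rcases Finset.mem_insert.1 hν' with rfl | hν'
      · exact ⟨hν, hν1, hν2⟩
      · exact h3 ν' hν'
    · change s.card < (insert ν s).card
      rw [Finset.card_insert_of_notMem hνs]
      exact Nat.lt_succ_self _
  -- extension of the set of indices
  have ext1 : ∀ (x : P) (B : Set ℕ) (j : Λ) (k : ℕ), j ∈ L →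
      (∀ A : Set ℕ, (∀ ν ∈ x.1.2.2, D ν ∈ U) → (∀ ν ∈ 𝓓 x.1.1 x.1.2.1,
        {m | B ∩ (⋂ ν' ∈ x.1.2.2, D ν') ∩ D ν ∈ u j m}.Infinite)) →
      ∃ y : P, x ≤ y ∧ ∃ m ≥ k, (j, m) ∈ y.1.2.1 ∧ B ∈ u j m := by
    rintro ⟨⟨t, Γ, s⟩, h1, h2, h3⟩ B j k hj hinfm
    have hh := hinfm univ (fun ν _ => hD ν)
    obtain ⟨m, hm⟩ := exists_uncountable_fibre (𝓓 t Γ) h2
      (fun ν m => k ≤ m ∧ B ∩ (⋂ ν' ∈ s, D ν') ∩ D ν ∈ u j m) (by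
        intro ν hν
        obtain ⟨m, hm, hkm⟩ := (hh ν hν).exists_gt k
        exact ⟨m, hkm.le, hm⟩)
    have hne : {ν | ν ∈ 𝓓 t Γ ∧ k ≤ m ∧ B ∩ (⋂ ν' ∈ s, D ν') ∩ D ν ∈ u j m}.Nonempty := by
      by_contra hemp
      rw [not_nonempty_iff_eq_empty] at hemp
      apply hm
      rw [hemp]
      exact countable_empty
    obtain ⟨ν0, hν0, hkm, hν0m⟩ := hne
    refine ⟨⟨⟨t, insert (j, m) Γ, s⟩, ?_, ?_, ?_⟩, ⟨le_rfl, Finset.subset_insert _ _, le_rfl⟩,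
      m, hkm, Finset.mem_insert_self _ _, ?_⟩
    · intro v hv
      rcases Finset.mem_insert.1 hv with rfl | hv
      · exact hj
      · exact h1 v hv
    · intro hcount
      apply hm
      refine hcount.mono ?_
      rintro ν ⟨hν, -, hνm⟩
      refine ⟨hν.1, ?_⟩
      intro v hv
      rcases Finset.mem_insert.1 hv with rfl | hv
      · exact mem_of_superset hνm inter_subset_right
      · exact hν.2 v hv
    · intro ν hν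
      refine ⟨(h3 ν hν).1, (h3 ν hν).2.1, ?_⟩
      intro v hv
      rcases Finset.mem_insert.1 hv with rfl | hv
      · refine mem_of_superset hν0m ?_
        rintro x ⟨⟨-, hx⟩, -⟩
        exact (mem_iInter₂.1 hx) ν hν
      · exact (h3 ν hν).2.2 v hv
    · refine mem_of_superset hν0m ?_
      rintro x ⟨⟨hx, -⟩, -⟩
      exact hx
  -- extension of the finite set
  have ext2 : ∀ (x : P) (B : Set ℕ) (v : Λ × ℕ) (k : ℕ), v ∈ x.1.2.1 → B ∈ u v.1 v.2 →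
      ∃ y : P, x ≤ y ∧ ∃ i ≥ k, i ∈ y.1.1 ∧ i ∈ B := by
    rintro ⟨⟨t, Γ, s⟩, h1, h2, h3⟩ B v k hv hB
    have hXk : (⋂ ν' ∈ s, D ν') ∈ u v.1 v.2 :=
      (Filter.biInter_finset_mem s).2 (fun ν' hν' => (h3 ν' hν').2.2 v hv)
    obtain ⟨i, hi⟩ := exists_uncountable_fibre (𝓓 t Γ) h2
      (fun ν i => k ≤ i ∧ i ∈ B ∩ (⋂ ν' ∈ s, D ν') ∩ D ν) (by
        intro ν hν
        have h5 : B ∩ (⋂ ν' ∈ s, D ν') ∩ D ν ∈ u v.1 v.2 :=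
          inter_mem (inter_mem hB hXk) (hν.2 v hv)
        obtain ⟨i, hi, hki⟩ := (hinf v.1 (h1 v hv) v.2 _ h5).exists_gt k
        exact ⟨i, hki.le, hi⟩)
    have hne : {ν | ν ∈ 𝓓 t Γ ∧ k ≤ i ∧ i ∈ B ∩ (⋂ ν' ∈ s, D ν') ∩ D ν}.Nonempty := by
      by_contra hemp
      rw [not_nonempty_iff_eq_empty] at hemp
      apply hi
      rw [hemp]
      exact countable_empty
    obtain ⟨ν0, hν0, hki, ⟨hiB, hiX⟩, hiD⟩ := hne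
    refine ⟨⟨⟨insert i t, Γ, s⟩, h1, ?_, ?_⟩, ⟨Finset.subset_insert _ _, le_rfl, le_rfl⟩,
      i, hki, Finset.mem_insert_self _ _, hiB⟩
    · intro hcount
      apply hi
      refine hcount.mono ?_
      rintro ν ⟨hν, -, hνi⟩
      refine ⟨?_, hν.2⟩
      intro x hx
      rcases Finset.mem_insert.1 hx with rfl | hx
      · exact hνi.2
      · exact hν.1 hx
    · intro ν hν
      refine ⟨(h3 ν hν).1, ?_, (h3 ν hν).2.2⟩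
      intro x hx
      rcases Finset.mem_insert.1 hx with rfl | hx
      · exact (mem_iInter₂.1 hiX) ν hν
      · exact (h3 ν hν).2.1 hx
  have hXU : ∀ x : P, (⋂ ν' ∈ x.1.2.2, D ν') ∈ U := fun x =>
    (Filter.biInter_finset_mem _).2 (fun ν' _ => hD ν')
  -- countable index set of requirements
  have : Countable L := hL.to_subtype
  have : Countable 𝓑 := h𝓑.to_subtype
  let Q1 := (L × ℕ) × 𝓑 × L × ℕ
  let Q2 := (𝓑 × L × ℕ)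
  let Q3 := ((L × ℕ) × 𝓑 × ℕ)
  let ι := (Q1 ⊕ Q2) ⊕ (Q3 ⊕ ℕ)
  have : Encodable ι := Encodable.ofCountable ι
  let set1 : Q1 → Set P := fun q =>
    {y | (∃ m ≥ q.2.2.2, ((q.2.2.1 : Λ), m) ∈ y.1.2.1 ∧ (q.2.1 : Set ℕ) ∈ u q.2.2.1 m) ∨
      ∀ z : P, y ≤ z → ((q.1.1 : Λ), q.1.2) ∉ z.1.2.1 ∨ (q.2.1 : Set ℕ) ∉ u q.1.1 q.1.2}
  let set2 : Q2 → Set P := fun q =>
    {y | (∃ m ≥ q.2.2, ((q.2.1 : Λ), m) ∈ y.1.2.1 ∧ (q.1 : Set ℕ) ∈ u q.2.1 m) ∨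
      (q.1 : Set ℕ) ∉ U}
  let set3 : Q3 → Set P := fun q =>
    {y | (∃ i ≥ q.2.2, i ∈ y.1.1 ∧ i ∈ (q.2.1 : Set ℕ)) ∨
      ∀ z : P, y ≤ z → ((q.1.1 : Λ), q.1.2) ∉ z.1.2.1 ∨ (q.2.1 : Set ℕ) ∉ u q.1.1 q.1.2}
  let set4 : ℕ → Set P := fun k => {y | k ≤ y.1.2.2.card}
  have cof1 : ∀ q, IsCofinal (set1 q) := by
    rintro ⟨⟨i, n⟩, B, j, k⟩ x
    by_cases hx : ∀ z : P, x ≤ z → ((i : Λ), n) ∉ z.1.2.1 ∨ (B : Set ℕ) ∉ u i n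
    · exact ⟨x, Or.inr hx, le_rfl⟩
    · push Not at hx
      obtain ⟨z, hxz, hz1, hz2⟩ := hx
      obtain ⟨y, hzy, m, hm1, hm2, hm3⟩ := ext1 z B j k j.2 (by
        intro _ _ ν hν
        refine hgood i i.2 n _ (inter_mem (inter_mem hz2 ?_) (hν.2 _ hz1)) j j.2
        exact (Filter.biInter_finset_mem _).2 (fun ν' hν' => (z.2.2.2 ν' hν').2.2 _ hz1))
      exact ⟨y, Or.inl ⟨m, hm1, hm2, hm3⟩, hxz.trans hzy⟩
  have cof2 : ∀ q, IsCofinal (set2 q) := by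
    rintro ⟨B, j, k⟩ x
    by_cases hx : (B : Set ℕ) ∈ U
    · obtain ⟨y, hzy, m, hm1, hm2, hm3⟩ := ext1 x B j k j.2 (by
        intro _ _ ν _
        exact hgoodZ _ (inter_mem (inter_mem hx (hXU x)) (hD ν)) j j.2)
      exact ⟨y, Or.inl ⟨m, hm1, hm2, hm3⟩, hzy⟩
    · exact ⟨x, Or.inr hx, le_rfl⟩
  have cof3 : ∀ q, IsCofinal (set3 q) := by
    rintro ⟨⟨i, n⟩, B, k⟩ x
    by_cases hx : ∀ z : P, x ≤ z → ((i : Λ), n) ∉ z.1.2.1 ∨ (B : Set ℕ) ∉ u i n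
    · exact ⟨x, Or.inr hx, le_rfl⟩
    · push Not at hx
      obtain ⟨z, hxz, hz1, hz2⟩ := hx
      obtain ⟨y, hzy, m, hm1, hm2, hm3⟩ := ext2 z B (i, n) k hz1 hz2
      exact ⟨y, Or.inl ⟨m, hm1, hm2, hm3⟩, hxz.trans hzy⟩
  have cof4 : ∀ k, IsCofinal (set4 k) := by
    intro k
    induction k with
    | zero => exact fun x => ⟨x, Nat.zero_le _, le_rfl⟩
    | succ k ih =>
      intro x
      obtain ⟨y, hy, hxy⟩ := ih x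
      obtain ⟨z, hyz, hz⟩ := ext3 y
      exact ⟨z, Nat.succ_le_of_lt (lt_of_le_of_lt hy hz), hxy.trans hyz⟩
  let 𝒟 : ι → Order.Cofinal P := fun a =>
    match a with
    | Sum.inl (Sum.inl q) => ⟨set1 q, cof1 q⟩
    | Sum.inl (Sum.inr q) => ⟨set2 q, cof2 q⟩
    | Sum.inr (Sum.inl q) => ⟨set3 q, cof3 q⟩
    | Sum.inr (Sum.inr k) => ⟨set4 k, cof4 k⟩
  have hstart : Good (∅, ∅, ∅) := by
    refine ⟨fun v hv => absurd hv (Finset.notMem_empty v), ?_, fun v hv =>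
      absurd hv (Finset.notMem_empty v)⟩
    have : 𝓓 ∅ ∅ = univ := by
      ext ν
      simp [𝓓]
    intro hc
    rw [this] at hc
    exact not_countable_univ hc
  let J : Order.Ideal P := Order.idealOfCofinals ⟨(∅, ∅, ∅), hstart⟩ 𝒟
  have hJ : ∀ a, ∃ x : P, x ∈ 𝒟 a ∧ x ∈ J := fun a =>
    Order.cofinal_meets_idealOfCofinals _ 𝒟 a
  have hdir : ∀ x ∈ J, ∀ y ∈ J, ∃ z ∈ J, x ≤ z ∧ y ≤ z := fun x hx y hy => J.directed x hx y hy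
  refine ⟨⋃ x ∈ J, ((x : P).1.1 : Set ℕ), ⋃ x ∈ J, ((x : P).1.2.1 : Set (Λ × ℕ)), ?_, ?_, ?_, ?_,
    ?_⟩
  · intro v hv
    obtain ⟨x, -, hx⟩ := mem_iUnion₂.1 hv
    exact x.2.1 v hx
  · -- infinitely many ordinals
    intro hfin
    obtain ⟨x, hx1, hx2⟩ := hJ (Sum.inr (Sum.inr (hfin.toFinset.card + 1)))
    have hx1' : hfin.toFinset.card + 1 ≤ x.1.2.2.card := hx1
    have hsub : x.1.2.2 ⊆ hfin.toFinset := by
      intro ν hν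
      rw [Set.Finite.mem_toFinset]
      refine ⟨(x.2.2.2 ν hν).1, ?_⟩
      intro a ha
      obtain ⟨y, hy, hya⟩ := mem_iUnion₂.1 ha
      obtain ⟨z, -, hxz, hyz⟩ := hdir x hx2 y hy
      exact (z.2.2.2 ν (hxz.2.2 hν)).2.1 (hyz.1 hya)
    have := Finset.card_le_card hsub
    omega
  · intro v hv B hB hBu
    obtain ⟨x, hx, hxv⟩ := mem_iUnion₂.1 hv
    have hvL : v.1 ∈ L := x.2.1 v hxv
    rw [Set.infinite_iff_exists_gt]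
    intro k
    obtain ⟨y, hy1, hy2⟩ := hJ (Sum.inr (Sum.inl ((⟨v.1, hvL⟩, v.2), ⟨B, hB⟩, k + 1)))
    rcases hy1 with ⟨i, hi1, hi2, hi3⟩ | h
    · exact ⟨i, ⟨hi3, mem_biUnion hy2 hi2⟩, hi1⟩
    · exfalso
      obtain ⟨z, -, hxz, hyz⟩ := hdir x hx y hy2
      rcases h z hyz with h | h
      · exact h (hxz.2.1 hxv)
      · exact h hBu
  · intro v hv B hB hBu j hj
    obtain ⟨x, hx, hxv⟩ := mem_iUnion₂.1 hv
    have hvL : v.1 ∈ L := x.2.1 v hxv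
    rw [Set.infinite_iff_exists_gt]
    intro k
    obtain ⟨y, hy1, hy2⟩ := hJ (Sum.inl (Sum.inl ((⟨v.1, hvL⟩, v.2), ⟨B, hB⟩, ⟨j, hj⟩, k + 1)))
    rcases hy1 with ⟨m, hm1, hm2, hm3⟩ | h
    · exact ⟨m, ⟨mem_biUnion hy2 hm2, hm3⟩, hm1⟩
    · exfalso
      obtain ⟨z, -, hxz, hyz⟩ := hdir x hx y hy2
      rcases h z hyz with h | h
      · exact h (hxz.2.1 hxv)
      · exact h hBu
  · intro B hB hBU j hj
    rw [Set.infinite_iff_exists_gt]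
    intro k
    obtain ⟨y, hy1, hy2⟩ := hJ (Sum.inl (Sum.inr (⟨B, hB⟩, ⟨j, hj⟩, k + 1)))
    rcases hy1 with ⟨m, hm1, hm2, hm3⟩ | h
    · exact ⟨m, ⟨mem_biUnion hy2 hm2, hm3⟩, hm1⟩
    · exact absurd hBU h

end Pool.Agent.Lib.MP_849e4d_lc
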