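import Pool.Agent.Lib.MP_849e4d_lc.Seq
import Pool.Agent.Lib.MP_849e4d_lc.Fusion

/-!
The transfinite iteration of tasks along a well-order with countable initial segments
(MP_849e4d_lc).
-/

set_option autoImplicit false

namespace Pool.Agent.Lib.MP_849e4d_lc

open Set Filter

/-- The monotone finitely generated operator coded by a set of natural numbers. -/
def Gop (E Y : Set ℕ) : Set ℕ :=
  {m | ∃ s : Finset ℕ, (s : Set ℕ) ⊆ Y ∧ Encodable.encode (s, m) ∈ E}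

theorem Gop_mono (E : Set ℕ) : Monotone (Gop E) := by
  intro Y Y' h m hm
  obtain ⟨s, hs, hsm⟩ := hm
  exact ⟨s, hs.trans h, hsm⟩

/-- The tasks performed at one stage of the iteration. -/
structure Task {Λ Ω : Type*} {o : Λ} (E : Set ℕ) (I : Set Ω) (D : Ω → Set ℕ)
    (p q : Cond Λ o) : Prop where
  le : q ≤ p
  dec : ∀ i ∈ p.L, ∀ n, E ∈ q.F i n ∨ Eᶜ ∈ q.F i n
  decZ : E ∈ q.Z ∨ Eᶜ ∈ q.Z
  trace : ∃ X ∈ q.Z, (∀ n ∉ E, Xᶜ ∈ q.F o n) ∨ (∀ n ∈ E, Xᶜ ∈ q.F o n)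
  diag : (∃ Y ∈ q.Z, ∀ n ∈ Gop E Y, Yᶜ ∈ q.F o n) ∨
    ∃ C : Set ℕ, ∃ X ∈ q.Z, (∀ n ∉ C, Xᶜ ∈ q.F o n) ∧
      ∀ r : Cond Λ o, r ≤ q → ∀ Y ∈ r.Z, ¬ Gop E Y ⊆ C
  low : (∃ q' : Cond Λ o, q' ≤ p ∧ ∃ X ∈ q'.Z, {ν | ν ∈ I ∧ X ⊆ D ν}.Infinite) →
    ∃ X ∈ q.Z, {ν | ν ∈ I ∧ X ⊆ D ν}.Infinite

theorem exists_task {Λ Ω : Type*} [Uncountable Λ] {o : Λ} (E : Set ℕ) (I : Set Ω)
    (D : Ω → Set ℕ) (p : Cond Λ o) : ∃ q : Cond Λ o, Task E I D p q := by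
  classical
  obtain ⟨q1, h1, h1'⟩ : ∃ q1 : Cond Λ o, q1 ≤ p ∧
      ((∃ q' : Cond Λ o, q' ≤ p ∧ ∃ X ∈ q'.Z, {ν | ν ∈ I ∧ X ⊆ D ν}.Infinite) →
        ∃ X ∈ q1.Z, {ν | ν ∈ I ∧ X ⊆ D ν}.Infinite) := by
    by_cases h : ∃ q' : Cond Λ o, q' ≤ p ∧ ∃ X ∈ q'.Z, {ν | ν ∈ I ∧ X ⊆ D ν}.Infinite
    · obtain ⟨q', hq', h'⟩ := h
      exact ⟨q', hq', fun _ => h'⟩
    · exact ⟨p, le_rfl, fun h' => absurd h' h⟩
  obtain ⟨q2, h2, h2', h2''⟩ := q1.exists_decide E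
  obtain ⟨q3, h3, X3, h3', h3''⟩ := q2.exists_trace E
  obtain ⟨q4, h4, h4'⟩ := q3.exists_diag (Gop E) (Gop_mono E)
  have h42 : q4 ≤ q2 := h4.trans h3
  have h41 : q4 ≤ q1 := h42.trans h2
  refine ⟨q4, h41.trans h1, ?_, ?_, ?_, h4', ?_⟩
  · intro i hi n
    rcases h2' i (h1.1 hi) n with h | h
    · exact Or.inl (h42.2.1 i n h)
    · exact Or.inr (h42.2.1 i n h)
  · rcases h2'' with h | h
    · exact Or.inl (h42.2.2 h)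
    · exact Or.inr (h42.2.2 h)
  · refine ⟨X3, h4.2.2 h3', ?_⟩
    rcases h3'' with h | h
    · exact Or.inl (fun n hn => h4.2.1 o n (h n hn))
    · exact Or.inr (fun n hn => h4.2.1 o n (h n hn))
  · intro h
    obtain ⟨X, hX, hX'⟩ := h1' h
    exact ⟨X, h41.2.2 hX, hX'⟩

theorem exists_seq {Ω : Type*} [LinearOrder Ω] [WellFoundedLT Ω]
    (hc : ∀ a : Ω, (Iio a).Countable) {Λ : Type*} [Uncountable Λ] {o : Λ} (E : Ω → Set ℕ)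
    (D : Ω → Ω → Set ℕ) :
    ∃ S : Ω → Cond Λ o, (∀ a b, a ≤ b → S b ≤ S a) ∧
      ∀ ξ, ∃ p : Cond Λ o, (∀ η < ξ, p ≤ S η) ∧ p.L = {o} ∪ ⋃ c ∈ S '' Iio ξ, c.L ∧
        Task (E ξ) (Iio ξ) (D ξ) p (S ξ) := by
  classical
  have hlb : ∀ 𝒞 : Set (Cond Λ o), ∃ p : Cond Λ o, 𝒞.Countable →
      (∀ a ∈ 𝒞, ∀ b ∈ 𝒞, a ≤ b ∨ b ≤ a) → (∀ c ∈ 𝒞, p ≤ c) ∧ p.L = {o} ∪ ⋃ c ∈ 𝒞, c.L := by
    intro 𝒞
    by_cases h : 𝒞.Countable ∧ ∀ a ∈ 𝒞, ∀ b ∈ 𝒞, a ≤ b ∨ b ≤ a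
    · obtain ⟨p, hp⟩ := Cond.exists_inf 𝒞 h.1 h.2
      exact ⟨p, fun _ _ => hp⟩
    · exact ⟨Cond.init Λ o, fun h1 h2 => absurd ⟨h1, h2⟩ h⟩
  choose lb hlb using hlb
  have hst : ∀ (ξ : Ω) (p : Cond Λ o), ∃ q : Cond Λ o, Task (E ξ) (Iio ξ) (D ξ) p q :=
    fun ξ p => exists_task _ _ _ p
  choose st hst using hst
  let S : Ω → Cond Λ o := (wellFounded_lt (α := Ω)).fix
    (fun ξ prev => st ξ (lb (range (fun η : Iio ξ => prev η.1 η.2))))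
  have hS : ∀ ξ, S ξ = st ξ (lb (S '' Iio ξ)) := by
    intro ξ
    have h := (wellFounded_lt (α := Ω)).fix_eq
      (fun ξ (prev : ∀ y, y < ξ → Cond Λ o) =>
        st ξ (lb (range (fun η : Iio ξ => prev η.1 η.2)))) ξ
    have h2 : range (fun η : Iio ξ => S η.1) = S '' Iio ξ := by
      ext c
      simp only [mem_range, mem_image, Subtype.exists, mem_Iio, exists_prop]
    rw [← h2]
    exact h
  have hmono : ∀ ξ, ∀ η < ξ, S ξ ≤ S η := by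
    intro ξ
    induction ξ using (wellFounded_lt (α := Ω)).induction with
    | _ ξ ih =>
      intro η hη
      have h1 := hlb (S '' Iio ξ) ((hc ξ).image S) (by
        rintro _ ⟨a, ha, rfl⟩ _ ⟨b, hb, rfl⟩
        rcases lt_trichotomy a b with h | h | h
        · exact Or.inr (ih b hb a h)
        · rw [h]; exact Or.inl le_rfl
        · exact Or.inl (ih a ha b h))
      rw [hS ξ]
      exact (hst ξ _).le.trans (h1.1 _ ⟨η, hη, rfl⟩)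
  have hmono' : ∀ a b, a ≤ b → S b ≤ S a := by
    intro a b hab
    rcases hab.eq_or_lt with h | h
    · rw [h]
    · exact hmono b a h
  refine ⟨S, hmono', fun ξ => ⟨lb (S '' Iio ξ), ?_, ?_, ?_⟩⟩
  · intro η hη
    exact (hlb (S '' Iio ξ) ((hc ξ).image S) (by
      rintro _ ⟨a, ha, rfl⟩ _ ⟨b, hb, rfl⟩
      rcases le_total a b with h | h
      · exact Or.inr (hmono' a b h)
      · exact Or.inl (hmono' b a h))).1 _ ⟨η, hη, rfl⟩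
  · exact (hlb (S '' Iio ξ) ((hc ξ).image S) (by
      rintro _ ⟨a, ha, rfl⟩ _ ⟨b, hb, rfl⟩
      rcases le_total a b with h | h
      · exact Or.inr (hmono' a b h)
      · exact Or.inl (hmono' b a h))).2
  · have h := hst ξ (lb (S '' Iio ξ))
    rw [← hS ξ] at h
    exact h

end Pool.Agent.Lib.MP_849e4d_lc
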