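import Pool.Agent.Lib.MP_849e4d_lc.Cond

/-!
Lower bounds of countable chains of conditions, traces of a limit system on a countable family,
and the transfinite iteration for MP_849e4d_lc.
-/

set_option autoImplicit false

namespace Pool.Agent.Lib.MP_849e4d_lc

open Set Filter

variable {Λ : Type*} {o : Λ}

namespace Cond

theorem le_init (p : Cond Λ o) : p ≤ init Λ o :=
  ⟨singleton_subset_iff.2 p.ho, fun i n => p.leF i n, p.leZ⟩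

/-- Countable chains of conditions have a lower bound with the expected set of levels. -/
theorem exists_inf (𝒞 : Set (Cond Λ o)) (hc : 𝒞.Countable)
    (hch : ∀ a ∈ 𝒞, ∀ b ∈ 𝒞, a ≤ b ∨ b ≤ a) :
    ∃ p : Cond Λ o, (∀ c ∈ 𝒞, p ≤ c) ∧ p.L = {o} ∪ ⋃ c ∈ 𝒞, c.L := by
  classical
  let 𝒟 : Set (Cond Λ o) := insert (init Λ o) 𝒞
  have hDc : 𝒟.Countable := hc.insert _
  have hDch : ∀ a ∈ 𝒟, ∀ b ∈ 𝒟, a ≤ b ∨ b ≤ a := by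
    rintro a (rfl | ha) b (rfl | hb)
    · exact Or.inl le_rfl
    · exact Or.inr (le_init b)
    · exact Or.inl (le_init a)
    · exact hch a ha b hb
  have : Countable 𝒟 := hDc.to_subtype
  have : Nonempty 𝒟 := ⟨⟨init Λ o, mem_insert _ _⟩⟩
  have hmin : ∀ a b : 𝒟, ∃ c : 𝒟, c.1 ≤ a.1 ∧ c.1 ≤ b.1 := by
    rintro ⟨a, ha⟩ ⟨b, hb⟩
    rcases hDch a ha b hb with h | h
    · exact ⟨⟨a, ha⟩, le_rfl, h⟩
    · exact ⟨⟨b, hb⟩, h, le_rfl⟩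
  have hdF : ∀ i n, Directed (· ≥ ·) (fun c : 𝒟 => c.1.F i n) := by
    intro i n a b
    obtain ⟨c, h1, h2⟩ := hmin a b
    exact ⟨c, h1.2.1 i n, h2.2.1 i n⟩
  have hdZ : Directed (· ≥ ·) (fun c : 𝒟 => c.1.Z) := by
    intro a b
    obtain ⟨c, h1, h2⟩ := hmin a b
    exact ⟨c, h1.2.2, h2.2.2⟩
  have hmF : ∀ i n (B : Set ℕ), B ∈ (⨅ c : 𝒟, c.1.F i n) ↔ ∃ c : 𝒟, B ∈ c.1.F i n := fun i n B =>
    mem_iInf_of_directed (hdF i n) B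
  have hmZ : ∀ (B : Set ℕ), B ∈ (⨅ c : 𝒟, c.1.Z) ↔ ∃ c : 𝒟, B ∈ c.1.Z := fun B =>
    mem_iInf_of_directed hdZ B
  have hL0 : ∀ c ∈ 𝒟, o ∈ c.L := fun c _ => c.ho
  have hLc : (⋃ c ∈ 𝒟, c.L).Countable := hDc.biUnion (fun c _ => c.hL)
  have hLeq : (⋃ c ∈ 𝒟, c.L) = {o} ∪ ⋃ c ∈ 𝒞, c.L := by
    simp only [𝒟, biUnion_insert]
    rfl
  refine ⟨⟨⋃ c ∈ 𝒟, c.L, fun i n => ⨅ c : 𝒟, c.1.F i n, ⨅ c : 𝒟, c.1.Z, hLc, ?_, ?_, ?_, ?_, ?_,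
    ?_, ?_, ?_, ?_⟩, ?_, hLeq⟩
  · exact mem_biUnion (mem_insert (init Λ o) 𝒞) (init Λ o).ho
  · intro i n
    have : ∀ c : 𝒟, (c.1.F i n).IsCountablyGenerated := fun c => c.1.cF i n
    infer_instance
  · have : ∀ c : 𝒟, (c.1.Z).IsCountablyGenerated := fun c => c.1.cZ
    infer_instance
  · intro i n B hB
    obtain ⟨c, hc⟩ := (hmF i n B).1 hB
    exact c.1.inf i n B hc
  · intro i n
    exact (iInf_le _ (⟨init Λ o, mem_insert _ _⟩ : 𝒟)).trans le_rfl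
  · exact (iInf_le _ (⟨init Λ o, mem_insert _ _⟩ : 𝒟)).trans le_rfl
  · intro i hi n
    apply le_antisymm
    · exact (iInf_le _ (⟨init Λ o, mem_insert _ _⟩ : 𝒟)).trans le_rfl
    · refine le_iInf (fun c => ?_)
      rw [c.1.off i (fun h => hi (mem_biUnion c.2 h)) n]
  · intro i hi n B hB j hj
    obtain ⟨a, ha, hia⟩ := mem_iUnion₂.1 hi
    obtain ⟨b, hb, hjb⟩ := mem_iUnion₂.1 hj
    obtain ⟨c, hc⟩ := (hmF i n B).1 hB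
    obtain ⟨d, hd1, hd2⟩ := hmin ⟨a, ha⟩ ⟨b, hb⟩
    obtain ⟨d', hd1', hd2'⟩ := hmin d c
    refine (d'.1.good i (hd1'.1 (hd1.1 hia)) n B (hd2'.2.1 i n hc) j
      (hd1'.1 (hd2.1 hjb))).mono ?_
    intro m hm
    exact (hmF j m B).2 ⟨d', hm⟩
  · intro B hB j hj
    obtain ⟨b, hb, hjb⟩ := mem_iUnion₂.1 hj
    obtain ⟨c, hc⟩ := (hmZ B).1 hB
    obtain ⟨d, hd1, hd2⟩ := hmin ⟨b, hb⟩ c
    refine (d.1.goodZ B (hd2.2.2 hc) j (hd1.1 hjb)).mono ?_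
    intro m hm
    exact (hmF j m B).2 ⟨d, hm⟩
  · intro c hc
    refine ⟨?_, fun i n => iInf_le _ (⟨c, Or.inr hc⟩ : 𝒟), iInf_le _ (⟨c, Or.inr hc⟩ : 𝒟)⟩
    intro x hx
    exact mem_biUnion (Or.inr hc) hx

end Cond

/-- The filter generated by the members of a countable family `𝓑` (closed under intersections)
that lie in a given filter. -/
def trFilter (𝓑 : Set (Set ℕ)) (h0 : univ ∈ 𝓑) (hi : ∀ a ∈ 𝓑, ∀ b ∈ 𝓑, a ∩ b ∈ 𝓑)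
    (u : Filter ℕ) : Filter ℕ where
  sets := {A | ∃ B ∈ 𝓑, B ∈ u ∧ B ⊆ A}
  univ_sets := ⟨univ, h0, univ_mem, Subset.rfl⟩
  sets_of_superset := fun ⟨B, h1, h2, h3⟩ h => ⟨B, h1, h2, h3.trans h⟩
  inter_sets := fun ⟨B, h1, h2, h3⟩ ⟨B', h1', h2', h3'⟩ =>
    ⟨B ∩ B', hi B h1 B' h1', inter_mem h2 h2', inter_subset_inter h3 h3'⟩

theorem mem_trFilter {𝓑 : Set (Set ℕ)} {h0 : univ ∈ 𝓑} {hi : ∀ a ∈ 𝓑, ∀ b ∈ 𝓑, a ∩ b ∈ 𝓑}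
    {u : Filter ℕ} {A : Set ℕ} : A ∈ trFilter 𝓑 h0 hi u ↔ ∃ B ∈ 𝓑, B ∈ u ∧ B ⊆ A := Iff.rfl

theorem trFilter_cg {𝓑 : Set (Set ℕ)} (hc : 𝓑.Countable) (h0 : univ ∈ 𝓑)
    (hi : ∀ a ∈ 𝓑, ∀ b ∈ 𝓑, a ∩ b ∈ 𝓑) (u : Filter ℕ) :
    (trFilter 𝓑 h0 hi u).IsCountablyGenerated := by
  have hb : (trFilter 𝓑 h0 hi u).HasCountableBasis (fun B : Set ℕ => B ∈ 𝓑 ∧ B ∈ u) id := by
    refine ⟨⟨fun A => ?_⟩, hc.mono (fun B hB => hB.1)⟩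
    rw [mem_trFilter]
    constructor
    · rintro ⟨B, h1, h2, h3⟩
      exact ⟨B, ⟨h1, h2⟩, h3⟩
    · rintro ⟨B, ⟨h1, h2⟩, h3⟩
      exact ⟨B, h1, h2, h3⟩
  exact hb.isCountablyGenerated

end Pool.Agent.Lib.MP_849e4d_lc
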