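import Pool.Agent.Lib.MP_849e4d_lc.SC
import Pool.Agent.Lib.MP_a1c723_lc.BV.Defs

/-!
# Forcing calculus over a preorder: families and functions given by canonical names

`Distinct c`: the names `c i` are pairwise forced to be different. `famC c D` is the name of the
family of the `c i` with the values `D i`, `funC c d G` the name of the relation `c i ↦ d j` with
the values `G i j`. The lemmas reduce quantifiers over names to quantifiers over the indices.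
-/

set_option autoImplicit false

namespace Pool.Agent.SC

open Pool.Agent.MPa4e7db Pool.Agent.StarRoth.BV Pool.Agent.Lib.SymModel

variable {P : Type} [Preorder P]

/-! ### Basic rules -/

theorem f_and {a b : RO P} {p : P} : p ∈ a ⊓ b ↔ p ∈ a ∧ p ∈ b := RO.mem_inf

theorem f_all {ι : Sort*} {b : ι → RO P} {p : P} : p ∈ ⨅ i, b i ↔ ∀ i, p ∈ b i := RO.mem_iInf

theorem f_imp {a b : RO P} {p : P} : p ∈ a ⇨ b ↔ ∀ q ≤ p, q ∈ a → q ∈ b := RO.mem_himp

theorem f_ex {ι : Sort*} {b : ι → RO P} {p : P} :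
    p ∈ ⨆ i, b i ↔ ∀ q ≤ p, ∃ r ≤ q, ∃ i, r ∈ b i := RO.mem_iSup

theorem f_ex_intro {ι : Sort*} {b : ι → RO P} {p : P} (i : ι) (h : p ∈ b i) : p ∈ ⨆ i, b i :=
  forces_of_le (le_iSup b i) h

theorem f_or_left {a b : RO P} {p : P} (h : p ∈ a) : p ∈ a ⊔ b := forces_of_le le_sup_left h

theorem f_or_right {a b : RO P} {p : P} (h : p ∈ b) : p ∈ a ⊔ b := forces_of_le le_sup_right h

theorem f_down {a : RO P} {p q : P} (h : p ∈ a) (hq : q ≤ p) : q ∈ a := a.down h hq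

theorem f_dense {a : RO P} {p : P} (h : ∀ q ≤ p, ∃ r ≤ q, r ∈ a) : p ∈ a := a.mem_of_dense h

/-- Proof by contradiction. -/
theorem f_of_not_compl {a : RO P} {p : P} (h : ∀ q ≤ p, q ∉ aᶜ) : p ∈ a := by
  refine f_dense fun q hq => ?_
  obtain ⟨r, hr, h1 | h1⟩ := decide a q
  · exact ⟨r, hr, h1⟩
  · exact absurd h1 (h r (hr.trans hq))

theorem f_sub {x y : BName (RO P)} {p : P} :
    p ∈ subB x y ↔ ∀ q ≤ p, ∀ z, q ∈ memB z x → q ∈ memB z y := by
  rw [subB, f_all]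
  exact ⟨fun h q hq z hz => f_imp.1 (h z) q hq hz, fun h z => f_imp.2 fun q hq hz => h q hq z hz⟩

theorem ext_subB_right {B : Type} [CompleteBooleanAlgebra B] (x : BName B) :
    Ext (fun y => subB x y) :=
  ext_iInf fun z => ext_himp (ext_const _) (ext_memB_right z)

/-! ### Families of canonical names -/

/-- The names `c i` are pairwise distinct. -/
def Distinct {I : Type} (c : I → BName (RO P)) : Prop := ∀ i j (p : P), p ∈ eqB (c i) (c j) → i = j

/-- The name of the family of the `c i` with the values `D i`. -/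
def famC {I : Type} (c : I → BName (RO P)) (D : I → RO P) : BName (RO P) := BName.mk I c D

variable {I J : Type} {c : I → BName (RO P)} {d : J → BName (RO P)}

theorem f_famC {D : I → RO P} {x : BName (RO P)} {p : P} :
    p ∈ memB x (famC c D) ↔ ∀ q ≤ p, ∃ r ≤ q, ∃ i, r ∈ D i ∧ r ∈ eqB x (c i) := by
  rw [famC, memB_mk, f_ex]
  simp only [f_and]

theorem f_famC_intro {D : I → RO P} {p : P} (i : I) (h : p ∈ D i) :
    p ∈ memB (c i) (famC c D) :=
  f_famC.2 fun q hq => ⟨q, le_rfl, i, f_down h hq, f_eqB_refl q _⟩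

theorem f_famC_self (hc : Distinct c) {D : I → RO P} {i : I} {p : P} :
    p ∈ memB (c i) (famC c D) ↔ p ∈ D i := by
  refine ⟨fun h => f_dense fun q hq => ?_, f_famC_intro i⟩
  obtain ⟨r, hr, j, h1, h2⟩ := f_famC.1 h q hq
  obtain rfl := hc i j r h2
  exact ⟨r, hr, h1⟩

/-- Restricted universal quantifiers. -/
theorem f_all_fam {D : I → RO P} {φ : BName (RO P) → RO P} (hφ : Ext φ) {p : P} :
    p ∈ ⨅ x : BName (RO P), memB x (famC c D) ⇨ φ x ↔ ∀ q ≤ p, ∀ i, q ∈ D i → q ∈ φ (c i) := by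
  rw [f_all]
  constructor
  · intro h q hq i hi
    exact f_imp.1 (h (c i)) q hq (f_famC_intro i hi)
  · intro h x
    refine f_imp.2 fun q hq hx => f_dense fun r hr => ?_
    obtain ⟨s, hs, i, h1, h2⟩ := f_famC.1 hx r hr
    exact ⟨s, hs, f_subst hφ (f_symm h2) (h s ((hs.trans hr).trans hq) i h1)⟩

/-- Restricted existential quantifiers. -/
theorem f_ex_fam {D : I → RO P} {φ : BName (RO P) → RO P} (hφ : Ext φ) {p : P} :
    p ∈ ⨆ x : BName (RO P), memB x (famC c D) ⊓ φ x ↔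
      ∀ q ≤ p, ∃ r ≤ q, ∃ i, r ∈ D i ∧ r ∈ φ (c i) := by
  rw [f_ex]
  constructor
  · intro h q hq
    obtain ⟨r, hr, x, hx⟩ := h q hq
    obtain ⟨s, hs, i, h1, h2⟩ := f_famC.1 (f_and.1 hx).1 r le_rfl
    exact ⟨s, hs.trans hr, i, h1, f_subst hφ h2 (f_down (f_and.1 hx).2 hs)⟩
  · intro h q hq
    obtain ⟨r, hr, i, h1, h2⟩ := h q hq
    exact ⟨r, hr, c i, f_and.2 ⟨f_famC_intro i h1, h2⟩⟩

/-- The name `x` is densely of the form `c i`. -/
theorem f_famC_elim {D : I → RO P} {x : BName (RO P)} {p : P} (h : p ∈ memB x (famC c D)) :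
    ∃ q ≤ p, ∃ i, q ∈ D i ∧ q ∈ eqB x (c i) := f_famC.1 h p le_rfl

/-! ### Functions -/

/-- The name of the relation `c i ↦ d j` with the values `G i j`. -/
def funC (c : I → BName (RO P)) (d : J → BName (RO P)) (G : I → J → RO P) : BName (RO P) :=
  BName.mk (I × J) (fun i => opair (c i.1) (d i.2)) (fun i => G i.1 i.2)

theorem f_opair {x x' y y' : BName (RO P)} {p : P} :
    p ∈ eqB (opair x y) (opair x' y') ↔ p ∈ eqB x x' ∧ p ∈ eqB y y' := by
  rw [eqB_opair, f_and]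

theorem f_rel_congr {f x x' y y' : BName (RO P)} {p : P} (hx : p ∈ eqB x x') (hy : p ∈ eqB y y')
    (h : p ∈ relB f x y) : p ∈ relB f x' y' := by
  rw [relB_eq] at h ⊢
  exact f_mem_left (f_opair.2 ⟨hx, hy⟩) h

theorem f_rel_funC {G : I → J → RO P} {x y : BName (RO P)} {p : P} :
    p ∈ relB (funC c d G) x y ↔
      ∀ q ≤ p, ∃ r ≤ q, ∃ i j, r ∈ G i j ∧ r ∈ eqB x (c i) ∧ r ∈ eqB y (d j) := by
  rw [relB_eq, funC, memB_mk, f_ex]
  simp only [f_and, f_opair, Prod.exists]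

theorem f_rel_intro {G : I → J → RO P} {p : P} (i : I) (j : J) (h : p ∈ G i j) :
    p ∈ relB (funC c d G) (c i) (d j) :=
  f_rel_funC.2 fun q hq => ⟨q, le_rfl, i, j, f_down h hq, f_eqB_refl q _, f_eqB_refl q _⟩

theorem f_rel_self (hc : Distinct c) (hd : Distinct d) {G : I → J → RO P} {i : I} {j : J} {p : P} :
    p ∈ relB (funC c d G) (c i) (d j) ↔ p ∈ G i j := by
  refine ⟨fun h => f_dense fun q hq => ?_, f_rel_intro i j⟩
  obtain ⟨r, hr, i', j', h1, h2, h3⟩ := f_rel_funC.1 h q hq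
  obtain rfl := hc i i' r h2
  obtain rfl := hd j j' r h3
  exact ⟨r, hr, h1⟩

/-- A relation between canonical names is a function. -/
theorem f_funInto (hc : Distinct c) {D : I → RO P} {E : J → RO P}
    {G : I → J → RO P} {p : P} (h1 : ∀ q ≤ p, ∀ i j, q ∈ G i j → q ∈ D i ∧ q ∈ E j)
    (h2 : ∀ q ≤ p, ∀ i, q ∈ D i → ∃ r ≤ q, ∃ j, r ∈ G i j)
    (h3 : ∀ q ≤ p, ∀ i j j', q ∈ G i j → q ∈ G i j' → j = j') :
    p ∈ isFunIntoB (funC c d G) (famC c D) (famC d E) := by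
  rw [isFunIntoB, isFunOnB]
  refine f_and.2 ⟨f_and.2 ⟨f_and.2 ⟨?_, ?_⟩, ?_⟩, ?_⟩
  · refine f_all.2 fun z => f_imp.2 fun q hq hz => ?_
    rw [funC, memB_mk] at hz
    refine f_ex.2 fun r hr => ?_
    obtain ⟨s, hs, i, h⟩ := f_ex.1 hz r hr
    have h4 := f_and.1 h
    refine ⟨s, hs, c i.1, f_ex_intro (d i.2) (f_and.2 ⟨f_famC_intro _ ?_, ?_⟩)⟩
    · exact (h1 s ((hs.trans hr).trans hq) i.1 i.2 h4.1).1
    · rw [isOPairB_eq]
      exact h4.2
  · refine (f_all_fam (ext_iSup fun y => ext_relB_left _ _)).2 fun q hq i hi => ?_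
    refine f_ex.2 fun r hr => ?_
    obtain ⟨s, hs, j, h⟩ := h2 r (hr.trans hq) i (f_down hi hr)
    exact ⟨s, hs, d j, f_rel_intro i j h⟩
  · refine f_all.2 fun x => f_all.2 fun y => f_all.2 fun y' => f_imp.2 fun q hq hz => ?_
    refine f_dense fun r hr => ?_
    obtain ⟨s, hs, i, j, h4, h5, h6⟩ := f_rel_funC.1 (f_and.1 hz).1 r hr
    obtain ⟨t, ht, i', j', h7, h8, h9⟩ := f_rel_funC.1 (f_and.1 hz).2 s (hs.trans hr)
    have h10 : i = i' := hc i i' t (f_trans (f_symm (f_down h5 ht)) h8)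
    subst h10
    have h11 : j = j' := h3 t (((ht.trans hs).trans hr).trans hq) i j j' (f_down h4 ht) h7
    subst h11
    exact ⟨t, ht.trans hs, f_trans (f_down h6 ht) (f_symm h9)⟩
  · refine f_all.2 fun x => f_all.2 fun y => f_imp.2 fun q hq hz => ?_
    refine f_famC.2 fun r hr => ?_
    obtain ⟨s, hs, i, j, h4, h5, h6⟩ := f_rel_funC.1 hz r hr
    exact ⟨s, hs, j, (h1 s ((hs.trans hr).trans hq) i j h4).2, h6⟩

/-- Elimination: a name of a function between families has values densely. -/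
theorem f_fun_total {f D' E' : BName (RO P)} {D : I → RO P} {E : J → RO P} {p : P}
    (h : p ∈ isFunIntoB f D' E') (hD : p ∈ eqB D' (famC c D)) (hE : p ∈ eqB E' (famC d E))
    {i : I} {q : P} (hq : q ≤ p) (hi : q ∈ D i) :
    ∃ r ≤ q, ∃ j, r ∈ E j ∧ r ∈ relB f (c i) (d j) := by
  rw [isFunIntoB, isFunOnB] at h
  obtain ⟨⟨⟨-, h1⟩, -⟩, h3⟩ := (by simpa only [f_and] using h :
    ((_ ∧ _) ∧ _) ∧ _)
  have h4 : q ∈ memB (c i) D' := f_mem_right (f_symm (f_down hD hq)) (f_famC_intro i hi)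
  have h5 := f_imp.1 (f_all.1 h1 (c i)) q hq h4
  obtain ⟨r, hr, y, hy⟩ := f_ex.1 h5 q le_rfl
  have h6 : r ∈ memB y E' := f_imp.1 (f_all.1 (f_all.1 h3 (c i)) y) r (hr.trans hq) hy
  have h7 : r ∈ memB y (famC d E) := f_mem_right (f_down hE (hr.trans hq)) h6
  obtain ⟨s, hs, j, h8, h9⟩ := f_famC_elim h7
  exact ⟨s, hs.trans hr, j, h8, f_rel_congr (f_eqB_refl _ _) h9 (f_down hy hs)⟩

theorem f_fun_unique {f D' x y y' : BName (RO P)} {p : P} (h : p ∈ isFunOnB f D') {q : P}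
    (hq : q ≤ p) (h1 : q ∈ relB f x y) (h2 : q ∈ relB f x y') : q ∈ eqB y y' := by
  rw [isFunOnB] at h
  exact f_imp.1 (f_all.1 (f_all.1 (f_all.1 (f_and.1 h).2 x) y) y') q hq (f_and.2 ⟨h1, h2⟩)

theorem f_fun_dom {f D' x y : BName (RO P)} {p : P} (h : p ∈ isFunOnB f D') {q : P}
    (hq : q ≤ p) (h1 : q ∈ relB f x y) : q ∈ memB x D' := by
  have h2 : RO.prin q ≤ isFunOnB f D' := (prin_le (f_down h hq))
  exact RO.prin_le_iff.1 (isFunOnB_dom h2 (prin_le h1))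

theorem f_fun_cod {f D' E' x y : BName (RO P)} {p : P} (h : p ∈ isFunIntoB f D' E') {q : P}
    (hq : q ≤ p) (h1 : q ∈ relB f x y) : q ∈ memB y E' := by
  rw [isFunIntoB] at h
  exact f_imp.1 (f_all.1 (f_all.1 (f_and.1 h).2 x) y) q hq h1

/-! ### The canonical systems of names -/

theorem distinct_nat : Distinct (fun n : ℕ => (natN n : BName (RO P))) := by
  intro i j p h
  by_contra hij
  exact notMem_of_bot (eqB_natN_ne hij) p h

theorem distinct_set : Distinct (natSetN (RO P)) := by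
  intro i j p h
  by_contra hij
  exact notMem_of_bot (eqB_natSetN_ne hij) p h

theorem f_omega {x : BName (RO P)} {p : P} :
    p ∈ memB x omegaN ↔ ∀ q ≤ p, ∃ r ≤ q, ∃ n, r ∈ eqB x (natN n) := by
  rw [memB_omegaN, f_ex]

theorem f_natSet {x : BName (RO P)} {s : Set ℕ} {p : P} :
    p ∈ memB x (natSetN (RO P) s) ↔ ∀ q ≤ p, ∃ r ≤ q, ∃ n ∈ s, r ∈ eqB x (natN n) := by
  rw [memB_natSetN, f_ex]
  simp only [Subtype.exists, exists_prop]

theorem f_nat_mem {n : ℕ} {s : Set ℕ} {p : P} : p ∈ memB (natN n) (natSetN (RO P) s) ↔ n ∈ s := by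
  by_cases h : n ∈ s
  · rw [natN_mem_natSetN h]
    exact ⟨fun _ => h, fun _ => RO.mem_top p⟩
  · rw [natN_notMem_natSetN h]
    exact ⟨fun h1 => absurd h1 (RO.notMem_bot p), fun h1 => absurd h1 h⟩

theorem f_natSet_sub {s t : Set ℕ} {p : P} :
    p ∈ subB (natSetN (RO P) s) (natSetN (RO P) t) ↔ s ⊆ t := by
  rw [f_sub]
  constructor
  · intro h n hn
    exact f_nat_mem.1 (h p le_rfl (natN n) (f_nat_mem.2 hn))
  · intro h q _ z hz
    rw [f_natSet] at hz ⊢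
    intro r hr
    obtain ⟨s', hs', n, hn, h1⟩ := hz r hr
    exact ⟨s', hs', n, h hn, h1⟩

theorem eqB_natSetN_univ : eqB (natSetN (RO P) Set.univ) omegaN = ⊤ := by
  refine top_iff.2 fun p => f_ext ?_ ?_
  · intro q _ z hz
    rw [f_natSet] at hz
    rw [f_omega]
    intro r hr
    obtain ⟨s, hs, n, -, h⟩ := hz r hr
    exact ⟨s, hs, n, h⟩
  · intro q _ z hz
    rw [f_omega] at hz
    rw [f_natSet]
    intro r hr
    obtain ⟨s, hs, n, h⟩ := hz r hr
    exact ⟨s, hs, n, trivial, h⟩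

/-- A name with the members of a canonical name of a set. -/
theorem f_eq_natSet {z : BName (RO P)} {s : Set ℕ} {p : P} (h1 : p ∈ subB z omegaN)
    (h2 : ∀ q ≤ p, ∀ n, q ∈ memB (natN n) z ↔ n ∈ s) : p ∈ eqB z (natSetN (RO P) s) := by
  refine f_ext ?_ ?_
  · intro q hq x hx
    have h3 := f_sub.1 h1 q hq x hx
    rw [f_omega] at h3
    rw [f_natSet]
    intro r hr
    obtain ⟨t, ht, n, hn⟩ := h3 r hr
    exact ⟨t, ht, n, (h2 t ((ht.trans hr).trans hq) n).1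
      (f_mem_left hn (f_down hx (ht.trans hr))), hn⟩
  · intro q hq x hx
    rw [f_natSet] at hx
    refine f_dense fun r hr => ?_
    obtain ⟨t, ht, n, hn, h3⟩ := hx r hr
    exact ⟨t, ht, f_mem_left (f_symm h3) ((h2 t ((ht.trans hr).trans hq) n).2 hn)⟩

theorem f_iff {a b : RO P} {p : P} : p ∈ iffB a b ↔ ∀ q ≤ p, q ∈ a ↔ q ∈ b := mem_iffB

theorem f_inter {z x y : BName (RO P)} {s t : Set ℕ} {p : P} (hz : p ∈ isInterB z x y)
    (hx : p ∈ eqB x (natSetN (RO P) s)) (hy : p ∈ eqB y (natSetN (RO P) t)) :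
    p ∈ eqB z (natSetN (RO P) (s ∩ t)) := by
  have h1 : ∀ q ≤ p, ∀ w, q ∈ memB w z ↔ q ∈ memB w x ∧ q ∈ memB w y := by
    intro q hq w
    rw [isInterB, f_all] at hz
    rw [f_iff.1 (hz w) q hq, f_and]
  refine f_eq_natSet (f_sub.2 fun q hq w hw => ?_) fun q hq n => ?_
  · have h2 := f_mem_right (f_down hx hq) ((h1 q hq w).1 hw).1
    rw [f_natSet] at h2
    rw [f_omega]
    intro r hr
    obtain ⟨u, hu, n, -, h3⟩ := h2 r hr
    exact ⟨u, hu, n, h3⟩
  · rw [h1 q hq]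
    constructor
    · rintro ⟨h2, h3⟩
      exact ⟨f_nat_mem.1 (f_mem_right (f_down hx hq) h2),
        f_nat_mem.1 (f_mem_right (f_down hy hq) h3)⟩
    · rintro ⟨h2, h3⟩
      exact ⟨f_mem_right (f_symm (f_down hx hq)) (f_nat_mem.2 h2),
        f_mem_right (f_symm (f_down hy hq)) (f_nat_mem.2 h3)⟩

theorem f_inter_intro {s t : Set ℕ} {p : P} :
    p ∈ isInterB (natSetN (RO P) (s ∩ t)) (natSetN (RO P) s) (natSetN (RO P) t) := by
  rw [isInterB, f_all]
  intro w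
  refine f_iff.2 fun q _ => ?_
  rw [f_and, f_natSet, f_natSet, f_natSet]
  constructor
  · intro h
    refine ⟨fun r hr => ?_, fun r hr => ?_⟩
    · obtain ⟨u, hu, n, hn, h3⟩ := h r hr
      exact ⟨u, hu, n, hn.1, h3⟩
    · obtain ⟨u, hu, n, hn, h3⟩ := h r hr
      exact ⟨u, hu, n, hn.2, h3⟩
  · rintro ⟨h1, h2⟩ r hr
    obtain ⟨u, hu, n, hn, h3⟩ := h1 r hr
    obtain ⟨v, hv, m, hm, h4⟩ := h2 u (hu.trans hr)
    obtain rfl : n = m := distinct_nat n m v (f_trans (f_symm (f_down h3 hv)) h4)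
    exact ⟨v, hv.trans hu, n, ⟨hn, hm⟩, h4⟩

theorem f_diff {z x : BName (RO P)} {s : Set ℕ} {p : P} (hz : p ∈ isDiffB z omegaN x)
    (hx : p ∈ eqB x (natSetN (RO P) s)) : p ∈ eqB z (natSetN (RO P) sᶜ) := by
  have h1 : ∀ q ≤ p, ∀ w, q ∈ memB w z ↔ q ∈ memB w omegaN ∧ q ∈ (memB w x)ᶜ := by
    intro q hq w
    rw [isDiffB, f_all] at hz
    rw [f_iff.1 (hz w) q hq, f_and]
  refine f_eq_natSet (f_sub.2 fun q hq w hw => ((h1 q hq w).1 hw).1) fun q hq n => ?_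
  rw [h1 q hq]
  constructor
  · rintro ⟨-, h3⟩ hn
    exact RO.mem_compl.1 h3 q le_rfl (f_mem_right (f_symm (f_down hx hq)) (f_nat_mem.2 hn))
  · intro hn
    refine ⟨?_, RO.mem_compl.2 fun r hr h3 => hn ?_⟩
    · rw [natN_mem_omegaN]
      exact RO.mem_top q
    · exact f_nat_mem.1 (f_mem_right (f_down hx (hr.trans hq)) h3)

theorem eqB_natN_natSetN (n : ℕ) : eqB (natN n) (natSetN (RO P) (Set.Iio n)) = ⊤ := by
  refine top_iff.2 fun p => f_ext ?_ ?_
  · intro q _ z hz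
    rw [memB_natN, f_ex] at hz
    rw [f_natSet]
    intro r hr
    obtain ⟨s, hs, i, h⟩ := hz r hr
    exact ⟨s, hs, i, i.2, h⟩
  · intro q _ z hz
    rw [f_natSet] at hz
    rw [memB_natN, f_ex]
    intro r hr
    obtain ⟨s, hs, i, hi, h⟩ := hz r hr
    exact ⟨s, hs, ⟨i, hi⟩, h⟩

end Pool.Agent.SC
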