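import Mathlib

/-!
Crowded multi-level systems of countably generated filters on `ℕ` (conditions), and the
extension lemmas used in the diamond construction for MP_849e4d_lc.
-/

set_option autoImplicit false

namespace Pool.Agent.Lib.MP_849e4d_lc

open Set Filter

/-- Countably many infinite sets of natural numbers are split by one set. -/
theorem exists_split {ι : Type*} [Countable ι] (a : ι → Set ℕ) (ha : ∀ i, (a i).Infinite) :
    ∃ S : Set ℕ, ∀ i, (a i ∩ S).Infinite ∧ (a i \ S).Infinite := by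
  classical
  rcases isEmpty_or_nonempty ι with hι | hι
  · exact ⟨∅, fun i => (hι.false i).elim⟩
  obtain ⟨e, he⟩ := exists_surjective_nat ι
  have hex : ∀ (i : ι) (N : ℕ), ∃ m, m ∈ a i ∧ N < m := fun i N => by
    obtain ⟨m, hm, h⟩ := (ha i).exists_gt N
    exact ⟨m, hm, h⟩
  choose pick hpick hlt using hex
  let idx : ℕ → ι := fun k => e (Nat.unpair (k / 2)).1
  obtain ⟨c, hmono, hmem⟩ : ∃ c : ℕ → ℕ, StrictMono c ∧ ∀ k, c k ∈ a (idx k) := by
    let c : ℕ → ℕ := fun k => Nat.rec (pick (idx 0) 0) (fun k x => pick (idx (k + 1)) x) k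
    have hc0 : ∀ k, c (k + 1) = pick (idx (k + 1)) (c k) := fun k => rfl
    have hmono : StrictMono c := strictMono_nat_of_lt_succ (fun k => by
      rw [hc0]; exact hlt _ _)
    refine ⟨c, hmono, ?_⟩
    intro k
    cases k with
    | zero => exact hpick _ _
    | succ k => rw [hc0]; exact hpick _ _
  refine ⟨{m | ∃ k, m = c (2 * k)}, fun i => ?_⟩
  obtain ⟨j, rfl⟩ := he i
  constructor
  · refine Set.infinite_of_injective_forall_mem (f := fun n : ℕ => c (2 * Nat.pair j n)) ?_ ?_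
    · intro x y hxy
      have h1 := hmono.injective hxy
      have h2 : Nat.pair j x = Nat.pair j y := by omega
      exact (Nat.pair_eq_pair.1 h2).2
    · intro n
      refine ⟨?_, ⟨_, rfl⟩⟩
      have h := hmem (2 * Nat.pair j n)
      have h3 : idx (2 * Nat.pair j n) = e j := by
        simp only [idx]
        rw [Nat.mul_div_cancel_left _ (by norm_num : 0 < 2), Nat.unpair_pair]
      rwa [h3] at h
  · refine Set.infinite_of_injective_forall_mem (f := fun n : ℕ => c (2 * Nat.pair j n + 1)) ?_ ?_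
    · intro x y hxy
      have h1 := hmono.injective hxy
      have h2 : Nat.pair j x = Nat.pair j y := by omega
      exact (Nat.pair_eq_pair.1 h2).2
    · intro n
      refine ⟨?_, ?_⟩
      · have h := hmem (2 * Nat.pair j n + 1)
        have h3 : idx (2 * Nat.pair j n + 1) = e j := by
          simp only [idx]
          have h4 : (2 * Nat.pair j n + 1) / 2 = Nat.pair j n := by omega
          rw [h4, Nat.unpair_pair]
        rwa [h3] at h
      · rintro ⟨k, hk⟩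
        have := hmono.injective hk
        omega

/-- A condition: countably many active levels `L`, for each level `i` and each `n` a countably
generated filter `F i n`, and a countably generated filter `Z`, such that every set in any of
these filters belongs to infinitely many of the filters of every active level. -/
structure Cond (Λ : Type*) (o : Λ) where
  L : Set Λ
  F : Λ → ℕ → Filter ℕ
  Z : Filter ℕ
  hL : L.Countable
  ho : o ∈ L
  cF : ∀ i n, (F i n).IsCountablyGenerated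
  cZ : Z.IsCountablyGenerated
  inf : ∀ i n, ∀ B ∈ F i n, B.Infinite
  leF : ∀ i n, F i n ≤ cofinite
  leZ : Z ≤ cofinite
  off : ∀ i ∉ L, ∀ n, F i n = cofinite
  good : ∀ i ∈ L, ∀ n, ∀ B ∈ F i n, ∀ j ∈ L, {m | B ∈ F j m}.Infinite
  goodZ : ∀ B ∈ Z, ∀ j ∈ L, {m | B ∈ F j m}.Infinite

variable {Λ : Type*} {o : Λ}

namespace Cond

/-- Extension of conditions (stronger is smaller). -/
instance : Preorder (Cond Λ o) where
  le q p := p.L ⊆ q.L ∧ (∀ i n, q.F i n ≤ p.F i n) ∧ q.Z ≤ p.Z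
  le_refl p := ⟨Subset.rfl, fun _ _ => le_rfl, le_rfl⟩
  le_trans a b c h1 h2 := ⟨h2.1.trans h1.1, fun i n => (h1.2.1 i n).trans (h2.2.1 i n),
    h1.2.2.trans h2.2.2⟩

theorem le_def (q p : Cond Λ o) :
    q ≤ p ↔ p.L ⊆ q.L ∧ (∀ i n, q.F i n ≤ p.F i n) ∧ q.Z ≤ p.Z := Iff.rfl

theorem infZ (p : Cond Λ o) : ∀ B ∈ p.Z, B.Infinite := by
  intro B hB
  obtain ⟨m, hm⟩ := (p.goodZ B hB o p.ho).nonempty
  exact p.inf _ _ _ hm

/-- The initial condition. -/
def init (Λ : Type*) (o : Λ) : Cond Λ o where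
  L := {o}
  F := fun _ _ => cofinite
  Z := cofinite
  hL := countable_singleton _
  ho := rfl
  cF := fun _ _ => by rw [Nat.cofinite_eq_atTop]; infer_instance
  cZ := by rw [Nat.cofinite_eq_atTop]; infer_instance
  inf := fun _ _ B hB => by
    intro hf
    have h1 : Bᶜ ∈ (cofinite : Filter ℕ) := by simpa [mem_cofinite] using hf
    have h2 : B ∩ Bᶜ ∈ (cofinite : Filter ℕ) := inter_mem hB h1
    rw [inter_compl_self] at h2
    exact (NeBot.ne inferInstance : (cofinite : Filter ℕ) ≠ ⊥) (empty_mem_iff_bot.1 h2)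
  leF := fun _ _ => le_rfl
  leZ := le_rfl
  off := fun _ _ _ => rfl
  good := fun i _ n B hB j _ => by
    have : {m : ℕ | B ∈ (cofinite : Filter ℕ)} = univ := by
      ext m; simp only [mem_ofPred_eq, mem_univ, iff_true]; exact hB
    rw [this]; exact infinite_univ
  goodZ := fun B hB j _ => by
    have : {m : ℕ | B ∈ (cofinite : Filter ℕ)} = univ := by
      ext m; simp only [mem_ofPred_eq, mem_univ, iff_true]; exact hB
    rw [this]; exact infinite_univ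

/-- The basic extension step: put `X` into the filters with index in `T` and into `Z`, and the
complement of `X` into the others. -/
theorem exists_ext (p : Cond Λ o) (X : Set ℕ) (T : Set (Λ × ℕ))
    (h1 : ∀ i ∈ p.L, ∀ n, (i, n) ∈ T → ∀ B ∈ p.F i n, (B ∩ X).Infinite)
    (h2 : ∀ i ∈ p.L, ∀ n, (i, n) ∉ T → ∀ B ∈ p.F i n, (B ∩ Xᶜ).Infinite)
    (h3 : ∀ i ∈ p.L, ∀ n, (i, n) ∈ T → ∀ B ∈ p.F i n, ∀ j ∈ p.L,
      {m | (j, m) ∈ T ∧ B ∈ p.F j m}.Infinite)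
    (h4 : ∀ i ∈ p.L, ∀ n, (i, n) ∉ T → ∀ B ∈ p.F i n, ∀ j ∈ p.L,
      {m | (j, m) ∉ T ∧ B ∈ p.F j m}.Infinite)
    (h5 : ∀ B ∈ p.Z, ∀ j ∈ p.L, {m | (j, m) ∈ T ∧ B ∈ p.F j m}.Infinite) :
    ∃ q : Cond Λ o, q ≤ p ∧ q.L = p.L ∧ X ∈ q.Z ∧
      (∀ i ∈ p.L, ∀ n, (i, n) ∈ T → X ∈ q.F i n) ∧
      (∀ i ∈ p.L, ∀ n, (i, n) ∉ T → Xᶜ ∈ q.F i n) := by
  classical
  let F' : Λ → ℕ → Filter ℕ := fun i n =>
    if i ∈ p.L then (if (i, n) ∈ T then p.F i n ⊓ 𝓟 X else p.F i n ⊓ 𝓟 Xᶜ) else p.F i n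
  have hT : ∀ i ∈ p.L, ∀ n, (i, n) ∈ T → F' i n = p.F i n ⊓ 𝓟 X := fun i hi n hn => by
    simp only [F', if_pos hi, if_pos hn]
  have hT' : ∀ i ∈ p.L, ∀ n, (i, n) ∉ T → F' i n = p.F i n ⊓ 𝓟 Xᶜ := fun i hi n hn => by
    simp only [F', if_pos hi, if_neg hn]
  have hO : ∀ i ∉ p.L, ∀ n, F' i n = p.F i n := fun i hi n => by
    simp only [F', if_neg hi]
  have hle : ∀ i n, F' i n ≤ p.F i n := by
    intro i n
    by_cases hi : i ∈ p.L
    · by_cases hn : (i, n) ∈ T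
      · rw [hT i hi n hn]; exact inf_le_left
      · rw [hT' i hi n hn]; exact inf_le_left
    · rw [hO i hi n]
  refine ⟨⟨p.L, F', p.Z ⊓ 𝓟 X, p.hL, p.ho, ?_, ?_, ?_, ?_, ?_, ?_, ?_, ?_⟩,
    ⟨Subset.rfl, hle, inf_le_left⟩, rfl, ?_, ?_, ?_⟩
  · intro i n
    have := p.cF i n
    by_cases hi : i ∈ p.L
    · by_cases hn : (i, n) ∈ T
      · rw [hT i hi n hn]; infer_instance
      · rw [hT' i hi n hn]; infer_instance
    · rw [hO i hi n]; exact this
  · have := p.cZ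
    infer_instance
  · intro i n B hB
    by_cases hi : i ∈ p.L
    · by_cases hn : (i, n) ∈ T
      · rw [hT i hi n hn, mem_inf_principal] at hB
        exact (h1 i hi n hn _ hB).mono (fun x hx => hx.1 hx.2)
      · rw [hT' i hi n hn, mem_inf_principal] at hB
        exact (h2 i hi n hn _ hB).mono (fun x hx => hx.1 hx.2)
    · rw [hO i hi n] at hB; exact p.inf i n B hB
  · intro i n
    exact (hle i n).trans (p.leF i n)
  · exact inf_le_left.trans p.leZ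
  · intro i hi n
    rw [hO i hi n]; exact p.off i hi n
  · intro i hi n B hB j hj
    by_cases hn : (i, n) ∈ T
    · rw [hT i hi n hn, mem_inf_principal] at hB
      refine (h3 i hi n hn _ hB j hj).mono ?_
      rintro m ⟨hm1, hm2⟩
      simp only [mem_ofPred_eq]
      rw [hT j hj m hm1, mem_inf_principal]
      exact hm2
    · rw [hT' i hi n hn, mem_inf_principal] at hB
      refine (h4 i hi n hn _ hB j hj).mono ?_
      rintro m ⟨hm1, hm2⟩
      simp only [mem_ofPred_eq]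
      rw [hT' j hj m hm1, mem_inf_principal]
      exact hm2
  · intro B hB j hj
    rw [mem_inf_principal] at hB
    refine (h5 _ hB j hj).mono ?_
    rintro m ⟨hm1, hm2⟩
    simp only [mem_ofPred_eq]
    rw [hT j hj m hm1, mem_inf_principal]
    exact hm2
  · exact mem_inf_of_right (mem_principal_self X)
  · intro i hi n hn
    change X ∈ F' i n
    rw [hT i hi n hn]
    exact mem_inf_of_right (mem_principal_self X)
  · intro i hi n hn
    change Xᶜ ∈ F' i n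
    rw [hT' i hi n hn]
    exact mem_inf_of_right (mem_principal_self Xᶜ)

/-- Every set can be decided by all filters of a condition. -/
theorem exists_decide (p : Cond Λ o) (A : Set ℕ) :
    ∃ q : Cond Λ o, q ≤ p ∧ (∀ i ∈ p.L, ∀ n, A ∈ q.F i n ∨ Aᶜ ∈ q.F i n) ∧
      (A ∈ q.Z ∨ Aᶜ ∈ q.Z) := by
  classical
  let cl : Set ℕ → Λ × ℕ → Prop := fun A v =>
    ∀ B ∈ p.F v.1 v.2, ∃ w : Λ × ℕ, w.1 ∈ p.L ∧ A ∩ B ∈ p.F w.1 w.2
  let T : Set (Λ × ℕ) := {v | cl A v ∨ ¬ cl Aᶜ v}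
  have hTA : ∀ i ∈ p.L, ∀ n, A ∈ p.F i n → (i, n) ∈ T := by
    intro i hi n hA
    exact Or.inl (fun B hB => ⟨(i, n), hi, inter_mem hA hB⟩)
  have hTA' : ∀ i ∈ p.L, ∀ n, Aᶜ ∈ p.F i n → (i, n) ∉ T := by
    intro i hi n hA hT
    rcases hT with h | h
    · obtain ⟨w, hw, hw2⟩ := h Aᶜ hA
      rw [inter_compl_self] at hw2
      exact (p.inf _ _ _ hw2) finite_empty
    · exact h (fun B hB => ⟨(i, n), hi, inter_mem hA hB⟩)
  have h1 : ∀ i ∈ p.L, ∀ n, (i, n) ∈ T → ∀ B ∈ p.F i n, (B ∩ A).Infinite := by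
    intro i hi n hT B hB
    rcases hT with h | h
    · obtain ⟨w, hw, hw2⟩ := h B hB
      rw [inter_comm]
      exact p.inf _ _ _ hw2
    · intro hfin
      refine h (fun B' hB' => ⟨(i, n), hi, inter_mem ?_ hB'⟩)
      have h3 : (B ∩ A)ᶜ ∈ p.F i n := by
        apply p.leF i n
        rw [mem_cofinite, compl_compl]; exact hfin
      filter_upwards [hB, h3] with x hx1 hx2 hx3
      exact hx2 ⟨hx1, hx3⟩
  have h2 : ∀ i ∈ p.L, ∀ n, (i, n) ∉ T → ∀ B ∈ p.F i n, (B ∩ Aᶜ).Infinite := by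
    intro i hi n hT B hB
    have hc : cl Aᶜ (i, n) := by
      by_contra hc
      exact hT (Or.inr hc)
    obtain ⟨w, hw, hw2⟩ := hc B hB
    rw [inter_comm]
    exact p.inf _ _ _ hw2
  have h3 : ∀ i ∈ p.L, ∀ n, (i, n) ∈ T → ∀ B ∈ p.F i n, ∀ j ∈ p.L,
      {m | (j, m) ∈ T ∧ B ∈ p.F j m}.Infinite := by
    intro i hi n hT B hB j hj
    by_cases hc : cl A (i, n)
    · obtain ⟨w, hw, hw2⟩ := hc B hB
      refine (p.good w.1 hw w.2 _ hw2 j hj).mono ?_
      intro m hm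
      exact ⟨hTA j hj m (mem_of_superset hm inter_subset_left),
        mem_of_superset hm inter_subset_right⟩
    · have hc' : ¬ cl Aᶜ (i, n) := hT.resolve_left hc
      simp only [cl, not_forall, not_exists] at hc'
      obtain ⟨B2, hB2, hB2'⟩ := hc'
      refine (p.good i hi n _ (inter_mem hB hB2) j hj).mono ?_
      intro m hm
      refine ⟨Or.inr ?_, mem_of_superset hm inter_subset_left⟩
      intro hcl
      obtain ⟨w, hw, hw2⟩ := hcl B2 (mem_of_superset hm inter_subset_right)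
      exact hB2' w ⟨hw, hw2⟩
  have h4 : ∀ i ∈ p.L, ∀ n, (i, n) ∉ T → ∀ B ∈ p.F i n, ∀ j ∈ p.L,
      {m | (j, m) ∉ T ∧ B ∈ p.F j m}.Infinite := by
    intro i hi n hT B hB j hj
    have hc : cl Aᶜ (i, n) := by
      by_contra hc
      exact hT (Or.inr hc)
    obtain ⟨w, hw, hw2⟩ := hc B hB
    refine (p.good w.1 hw w.2 _ hw2 j hj).mono ?_
    intro m hm
    exact ⟨hTA' j hj m (mem_of_superset hm inter_subset_left),
      mem_of_superset hm inter_subset_right⟩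
  by_cases hz : ∀ B ∈ p.Z, ∃ w : Λ × ℕ, w.1 ∈ p.L ∧ w ∈ T ∧ B ∈ p.F w.1 w.2
  · obtain ⟨q, hq, -, hqZ, hq1, hq2⟩ := p.exists_ext A T h1 h2 h3 h4 (by
      intro B hB j hj
      obtain ⟨w, hw, hwT, hwB⟩ := hz B hB
      exact h3 w.1 hw w.2 hwT B hwB j hj)
    refine ⟨q, hq, fun i hi n => ?_, Or.inl hqZ⟩
    by_cases hn : (i, n) ∈ T
    · exact Or.inl (hq1 i hi n hn)
    · exact Or.inr (hq2 i hi n hn)
  · push Not at hz
    obtain ⟨B0, hB0, hB0'⟩ := hz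
    obtain ⟨q, hq, -, hqZ, hq1, hq2⟩ := p.exists_ext Aᶜ Tᶜ
      (fun i hi n hn B hB => h2 i hi n hn B hB)
      (fun i hi n hn B hB => by
        rw [compl_compl]
        exact h1 i hi n (not_not.1 hn) B hB)
      (fun i hi n hn B hB j hj => h4 i hi n hn B hB j hj)
      (fun i hi n hn B hB j hj => by
        refine (h3 i hi n (not_not.1 hn) B hB j hj).mono ?_
        rintro m ⟨hm1, hm2⟩
        exact ⟨fun h => h hm1, hm2⟩)
      (fun B hB j hj => by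
        refine (p.goodZ _ (inter_mem hB hB0) j hj).mono ?_
        intro m hm
        refine ⟨fun hT => hB0' (j, m) hj hT (mem_of_superset hm inter_subset_right),
          mem_of_superset hm inter_subset_left⟩)
    refine ⟨q, hq, fun i hi n => ?_, Or.inr hqZ⟩
    by_cases hn : (i, n) ∈ T
    · left
      have := hq2 i hi n (fun h => h hn)
      rwa [compl_compl] at this
    · exact Or.inr (hq1 i hi n hn)

/-- A countable family containing bases of all active filters. -/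
theorem exists_base (p : Cond Λ o) : ∃ 𝓑 : Set (Set ℕ), 𝓑.Countable ∧
    (∀ i ∈ p.L, ∀ n, ∀ B ∈ p.F i n, ∃ b ∈ 𝓑, b ∈ p.F i n ∧ b ⊆ B) ∧
    (∀ B ∈ p.Z, ∃ b ∈ 𝓑, b ∈ p.Z ∧ b ⊆ B) := by
  have hF : ∀ i n, ∃ x : ℕ → Set ℕ, (p.F i n).HasAntitoneBasis x := fun i n => by
    have := p.cF i n
    exact (p.F i n).exists_antitone_basis
  have hZ : ∃ x : ℕ → Set ℕ, p.Z.HasAntitoneBasis x := by
    have := p.cZ
    exact p.Z.exists_antitone_basis
  choose b hb using hF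
  obtain ⟨z, hz⟩ := hZ
  refine ⟨(⋃ i ∈ p.L, ⋃ n, range (b i n)) ∪ range z, ?_, ?_, ?_⟩
  · refine (p.hL.biUnion (fun i _ => countable_iUnion (fun n => countable_range _))).union
      (countable_range _)
  · intro i hi n B hB
    obtain ⟨k, -, hk⟩ := (hb i n).1.mem_iff.1 hB
    refine ⟨b i n k, Or.inl ?_, (hb i n).1.mem_of_mem trivial, hk⟩
    exact mem_biUnion hi (mem_iUnion.2 ⟨n, mem_range_self k⟩)
  · intro B hB
    obtain ⟨k, -, hk⟩ := hz.1.mem_iff.1 hB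
    exact ⟨z k, Or.inr (mem_range_self k), hz.1.mem_of_mem trivial, hk⟩

theorem exists_split_set (𝒜 : Set (Set ℕ)) (h : 𝒜.Countable) :
    ∃ S : Set ℕ, ∀ a ∈ 𝒜, a.Infinite → (a ∩ S).Infinite ∧ (a \ S).Infinite := by
  have : Countable {a : Set ℕ // a ∈ 𝒜 ∧ a.Infinite} :=
    (h.mono (fun a (ha : a ∈ 𝒜 ∧ a.Infinite) => ha.1)).to_subtype
  obtain ⟨S, hS⟩ := exists_split (fun a : {a : Set ℕ // a ∈ 𝒜 ∧ a.Infinite} => a.1)
    (fun a => a.2.2)
  exact ⟨S, fun a ha hi => hS ⟨a, ha, hi⟩⟩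

/-- Refinement below a crowded set of indices. -/
theorem exists_refine (p : Cond Λ o) (X : Set ℕ) (Γ : Set (Λ × ℕ))
    (h1 : ∀ i ∈ p.L, ∀ n, (i, n) ∈ Γ → ∀ B ∈ p.F i n, (B ∩ X).Infinite)
    (h2 : ∀ i ∈ p.L, ∀ n, (i, n) ∈ Γ → ∀ B ∈ p.F i n, ∀ j ∈ p.L,
      {m | (j, m) ∈ Γ ∧ B ∈ p.F j m}.Infinite)
    (h3 : ∀ B ∈ p.Z, ∀ j ∈ p.L, {m | (j, m) ∈ Γ ∧ B ∈ p.F j m}.Infinite) :
    ∃ q : Cond Λ o, q ≤ p ∧ ∃ X' ⊆ X, X' ∈ q.Z ∧
      ∀ i ∈ p.L, ∀ n, (i, n) ∉ Γ → X'ᶜ ∈ q.F i n := by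
  obtain ⟨𝓑, h𝓑, hB1, hB2⟩ := p.exists_base
  obtain ⟨S, hS⟩ := exists_split_set
    ((⋃ b ∈ 𝓑, ⋃ j ∈ p.L, {{m | (j, m) ∈ Γ ∧ b ∈ p.F j m}}) ∪
      (⋃ b ∈ 𝓑, ⋃ j ∈ p.L, {{m | b ∈ p.F j m}}))
    ((h𝓑.biUnion (fun b _ => p.hL.biUnion (fun j _ => countable_singleton _))).union
      (h𝓑.biUnion (fun b _ => p.hL.biUnion (fun j _ => countable_singleton _))))
  obtain ⟨S', hS'⟩ := exists_split_set ((⋃ b ∈ 𝓑, {b ∩ X}) ∪ 𝓑)
    ((h𝓑.biUnion (fun b _ => countable_singleton _)).union h𝓑)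
  have hSa : ∀ b ∈ 𝓑, ∀ j ∈ p.L, {m | (j, m) ∈ Γ ∧ b ∈ p.F j m}.Infinite →
      ({m | (j, m) ∈ Γ ∧ b ∈ p.F j m} ∩ S).Infinite := fun b hb j hj h =>
    (hS _ (Or.inl (mem_biUnion hb (mem_biUnion hj rfl))) h).1
  have hSb : ∀ b ∈ 𝓑, ∀ j ∈ p.L, {m | b ∈ p.F j m}.Infinite →
      ({m | b ∈ p.F j m} \ S).Infinite := fun b hb j hj h =>
    (hS _ (Or.inr (mem_biUnion hb (mem_biUnion hj rfl))) h).2
  have hSc : ∀ b ∈ 𝓑, (b ∩ X).Infinite → ((b ∩ X) ∩ S').Infinite := fun b hb h =>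
    (hS' _ (Or.inl (mem_biUnion hb rfl)) h).1
  have hSd : ∀ b ∈ 𝓑, b.Infinite → (b \ S').Infinite := fun b hb h =>
    (hS' _ (Or.inr hb) h).2
  obtain ⟨q, hq, -, hqZ, -, hq2⟩ := p.exists_ext (X ∩ S') {v | v ∈ Γ ∧ v.2 ∈ S}
    (fun i hi n hn B hB => by
      obtain ⟨b, hb, hbF, hbB⟩ := hB1 i hi n B hB
      refine (hSc b hb (h1 i hi n hn.1 b hbF)).mono ?_
      rintro x ⟨⟨hx1, hx2⟩, hx3⟩
      exact ⟨hbB hx1, hx2, hx3⟩)
    (fun i hi n hn B hB => by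
      obtain ⟨b, hb, hbF, hbB⟩ := hB1 i hi n B hB
      refine (hSd b hb (p.inf i n b hbF)).mono ?_
      rintro x ⟨hx1, hx2⟩
      exact ⟨hbB hx1, fun h => hx2 h.2⟩)
    (fun i hi n hn B hB j hj => by
      obtain ⟨b, hb, hbF, hbB⟩ := hB1 i hi n B hB
      refine (hSa b hb j hj (h2 i hi n hn.1 b hbF j hj)).mono ?_
      rintro x ⟨⟨hx1, hx2⟩, hx3⟩
      exact ⟨⟨hx1, hx3⟩, mem_of_superset hx2 hbB⟩)
    (fun i hi n hn B hB j hj => by
      obtain ⟨b, hb, hbF, hbB⟩ := hB1 i hi n B hB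
      refine (hSb b hb j hj (p.good i hi n b hbF j hj)).mono ?_
      rintro x ⟨hx1, hx2⟩
      exact ⟨fun h => hx2 h.2, mem_of_superset hx1 hbB⟩)
    (fun B hB j hj => by
      obtain ⟨b, hb, hbF, hbB⟩ := hB2 B hB
      refine (hSa b hb j hj (h3 b hbF j hj)).mono ?_
      rintro x ⟨⟨hx1, hx2⟩, hx3⟩
      exact ⟨⟨hx1, hx3⟩, mem_of_superset hx2 hbB⟩)
  exact ⟨q, hq, X ∩ S', inter_subset_left, hqZ, fun i hi n hn =>
    hq2 i hi n (fun h => hn h.1)⟩

/-- The trace ultrafilter can be decided: some `X` in `Z` has its trace on level `o` inside `C`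
or inside the complement of `C`. -/
theorem exists_trace (p : Cond Λ o) (C : Set ℕ) :
    ∃ q : Cond Λ o, q ≤ p ∧ ∃ X ∈ q.Z,
      (∀ n ∉ C, Xᶜ ∈ q.F o n) ∨ (∀ n ∈ C, Xᶜ ∈ q.F o n) := by
  classical
  let dens : Set ℕ → Set ℕ → Prop := fun C B => ∀ B' ⊆ B, ∀ i ∈ p.L, ∀ n, B' ∈ p.F i n →
    {m | m ∈ C ∧ B' ∈ p.F o m}.Infinite
  let G : Set ℕ → Set (Λ × ℕ) := fun C => {v | v.1 ∈ p.L ∧ ∃ B ∈ p.F v.1 v.2, dens C B}
  -- the main step
  have key : ∀ C : Set ℕ, (∀ B ∈ p.Z, ∃ v ∈ G C, B ∈ p.F v.1 v.2) →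
      ∃ q : Cond Λ o, q ≤ p ∧ ∃ X ∈ q.Z, ∀ n ∉ C, Xᶜ ∈ q.F o n := by
    intro C hC
    have hop : ∀ v ∈ G C, ∀ B ∈ p.F v.1 v.2, ∀ j ∈ p.L,
        {m | (j, m) ∈ {w : Λ × ℕ | w ∈ G C ∧ (w.1 = o → w.2 ∈ C)} ∧ B ∈ p.F j m}.Infinite := by
      rintro ⟨i, n⟩ ⟨hi, D, hD, hD'⟩ B hB j hj
      have hBD : B ∩ D ∈ p.F i n := inter_mem hB hD
      by_cases hjo : j = o
      · subst hjo
        refine (hD' (B ∩ D) inter_subset_right i hi n hBD).mono ?_
        rintro m ⟨hm1, hm2⟩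
        exact ⟨⟨⟨hj, D, mem_of_superset hm2 inter_subset_right, hD'⟩, fun _ => hm1⟩,
          mem_of_superset hm2 inter_subset_left⟩
      · refine (p.good i hi n _ hBD j hj).mono ?_
        intro m hm
        exact ⟨⟨⟨hj, D, mem_of_superset hm inter_subset_right, hD'⟩, fun h => absurd h hjo⟩,
          mem_of_superset hm inter_subset_left⟩
    obtain ⟨q, hq, X', -, hX', hX''⟩ := p.exists_refine univ
      {w : Λ × ℕ | w ∈ G C ∧ (w.1 = o → w.2 ∈ C)}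
      (fun i hi n _ B hB => by rw [inter_univ]; exact p.inf i n B hB)
      (fun i hi n hn B hB j hj => hop (i, n) hn.1 B hB j hj)
      (fun B hB j hj => by
        obtain ⟨v, hv, hvB⟩ := hC B hB
        exact hop v hv B hvB j hj)
    refine ⟨q, hq, X', hX', fun n hn => hX'' o p.ho n (fun h => hn (h.2 rfl))⟩
  by_cases h1 : ∀ B ∈ p.Z, ∃ v ∈ G C, B ∈ p.F v.1 v.2
  · obtain ⟨q, hq, X, hX, h⟩ := key C h1
    exact ⟨q, hq, X, hX, Or.inl h⟩
  by_cases h2 : ∀ B ∈ p.Z, ∃ v ∈ G Cᶜ, B ∈ p.F v.1 v.2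
  · obtain ⟨q, hq, X, hX, h⟩ := key Cᶜ h2
    exact ⟨q, hq, X, hX, Or.inr (fun n hn => h n (fun h => h hn))⟩
  exfalso
  push Not at h1 h2
  obtain ⟨B1, hB1, h1⟩ := h1
  obtain ⟨B2, hB2, h2⟩ := h2
  obtain ⟨m, hm⟩ := (p.goodZ _ (inter_mem hB1 hB2) o p.ho).nonempty
  have hm1 : (o, m) ∉ G C := fun h => h1 (o, m) h (mem_of_superset hm inter_subset_left)
  have hd : ¬ dens C (B1 ∩ B2) := fun h => hm1 ⟨p.ho, _, hm, h⟩
  simp only [dens, not_forall] at hd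
  obtain ⟨B', hB', i, hi, n, hn, hfin⟩ := hd
  have hm2 : (i, n) ∉ G Cᶜ := fun h => h2 (i, n) h (mem_of_superset hn (hB'.trans
    inter_subset_right))
  have hd2 : ¬ dens Cᶜ B' := fun h => hm2 ⟨hi, _, hn, h⟩
  simp only [dens, not_forall] at hd2
  obtain ⟨B'', hB'', i', hi', n', hn', hfin'⟩ := hd2
  rw [Set.not_infinite] at hfin hfin'
  apply p.good i' hi' n' B'' hn' o p.ho
  refine (hfin.union hfin').subset ?_
  intro k hk
  by_cases hkC : k ∈ C
  · exact Or.inl ⟨hkC, mem_of_superset hk hB''⟩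
  · exact Or.inr ⟨hkC, hk⟩

/-- Fresh copies of all active levels. -/
theorem exists_copy [Uncountable Λ] (p : Cond Λ o) : ∃ e : Λ → Λ, InjOn e p.L ∧
    (∀ i ∈ p.L, e i ∉ p.L) ∧ ∃ p1 : Cond Λ o, p1 ≤ p ∧ p1.L = p.L ∪ e '' p.L ∧
      (∀ i ∈ p.L, p1.F i = p.F i) ∧ (∀ i ∈ p.L, p1.F (e i) = p.F i) ∧ p1.Z = p.Z := by
  classical
  have hcinf : (p.Lᶜ : Set Λ).Infinite := by
    intro hf
    have : (univ : Set Λ).Countable := by
      rw [← union_compl_self p.L]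
      exact p.hL.union hf.countable
    exact not_countable_univ this
  have := hcinf.to_subtype
  have hLc := p.hL.to_subtype
  obtain ⟨f, hf⟩ := exists_injective_nat p.L
  let g : ℕ ↪ (p.Lᶜ : Set Λ) := Infinite.natEmbedding _
  let e : Λ → Λ := fun x => if hx : x ∈ p.L then (g (f ⟨x, hx⟩)).1 else x
  have he : ∀ x (hx : x ∈ p.L), e x = (g (f ⟨x, hx⟩)).1 := fun x hx => by
    simp only [e, dif_pos hx]
  have hinj : InjOn e p.L := by
    intro x hx y hy hxy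
    rw [he x hx, he y hy] at hxy
    have h1 := hf (g.injective (Subtype.ext hxy))
    exact congrArg Subtype.val h1
  have hnot : ∀ i ∈ p.L, e i ∉ p.L := fun i hi => by
    rw [he i hi]; exact (g (f ⟨i, hi⟩)).2
  let src : Λ → Λ := fun j => if h : ∃ i ∈ p.L, e i = j then h.choose else j
  have hsrc1 : ∀ i ∈ p.L, src i = i := by
    intro i hi
    have : ¬ ∃ i' ∈ p.L, e i' = i := by
      rintro ⟨i', hi', rfl⟩
      exact hnot i' hi' hi
    simp only [src, dif_neg this]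
  have hsrc2 : ∀ i ∈ p.L, src (e i) = i := by
    intro i hi
    have hex : ∃ i' ∈ p.L, e i' = e i := ⟨i, hi, rfl⟩
    have h1 : src (e i) = hex.choose := by simp only [src, dif_pos hex]
    rw [h1]
    exact hinj hex.choose_spec.1 hi hex.choose_spec.2
  have hsrcL : ∀ j ∈ p.L ∪ e '' p.L, src j ∈ p.L := by
    rintro j (hj | ⟨i, hi, rfl⟩)
    · rw [hsrc1 j hj]; exact hj
    · rw [hsrc2 i hi]; exact hi
  have hsrcO : ∀ j, j ∉ p.L ∪ e '' p.L → src j = j := by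
    intro j hj
    have : ¬ ∃ i' ∈ p.L, e i' = j := by
      rintro ⟨i', hi', rfl⟩
      exact hj (Or.inr ⟨i', hi', rfl⟩)
    simp only [src, dif_neg this]
  refine ⟨e, hinj, hnot, ⟨p.L ∪ e '' p.L, fun j => p.F (src j), p.Z, ?_, ?_, ?_, ?_, ?_, ?_, ?_,
    ?_, ?_, ?_⟩, ⟨subset_union_left, ?_, le_rfl⟩, rfl, ?_, ?_, rfl⟩
  · exact p.hL.union (p.hL.image e)
  · exact Or.inl p.ho
  · exact fun i n => p.cF _ n
  · exact p.cZ
  · exact fun i n => p.inf _ n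
  · exact fun i n => p.leF _ n
  · exact p.leZ
  · intro i hi n
    rw [hsrcO i hi]
    exact p.off i (fun h => hi (Or.inl h)) n
  · intro i hi n B hB j hj
    exact p.good _ (hsrcL i hi) n B hB _ (hsrcL j hj)
  · intro B hB j hj
    exact p.goodZ B hB _ (hsrcL j hj)
  · intro i n
    by_cases hi : i ∈ p.L
    · change p.F (src i) n ≤ p.F i n
      rw [hsrc1 i hi]
    · rw [p.off i hi n]
      exact p.leF _ n
  · intro i hi
    change p.F (src i) = p.F i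
    rw [hsrc1 i hi]
  · intro i hi
    change p.F (src (e i)) = p.F i
    rw [hsrc2 i hi]

/-- No monotone operator generates the trace ultrafilter: below every condition one of two
obstructions can be forced. -/
theorem exists_diag [Uncountable Λ] (p : Cond Λ o) (G : Set ℕ → Set ℕ) (hG : Monotone G) :
    ∃ q : Cond Λ o, q ≤ p ∧ ((∃ Y ∈ q.Z, ∀ n ∈ G Y, Yᶜ ∈ q.F o n) ∨
      ∃ C : Set ℕ, ∃ X ∈ q.Z, (∀ n ∉ C, Xᶜ ∈ q.F o n) ∧
        ∀ r : Cond Λ o, r ≤ q → ∀ Y ∈ r.Z, ¬ G Y ⊆ C) := by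
  classical
  obtain ⟨e, hinj, hnot, p1, hp1, hL1, hF1, hF1', hZ1⟩ := p.exists_copy
  obtain ⟨𝓑, h𝓑, hB1, hB2⟩ := p.exists_base
  obtain ⟨S, hS⟩ := exists_split_set (⋃ b ∈ 𝓑, ⋃ j ∈ p.L, {{m | b ∈ p.F j m}})
    (h𝓑.biUnion (fun b _ => p.hL.biUnion (fun j _ => countable_singleton _)))
  obtain ⟨X, hX⟩ := exists_split_set 𝓑 h𝓑
  have hSb : ∀ b ∈ 𝓑, ∀ j ∈ p.L, {m | b ∈ p.F j m}.Infinite →
      ({m | b ∈ p.F j m} ∩ S).Infinite ∧ ({m | b ∈ p.F j m} \ S).Infinite :=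
    fun b hb j hj h => hS _ (mem_biUnion hb (mem_biUnion hj rfl)) h
  let T : Set (Λ × ℕ) := {v | (v.1 ∈ p.L ∧ v.2 ∈ S) ∨ (v.1 ∉ p.L ∧ v.2 ∉ S)}
  -- facts about p1
  have hsrc : ∀ i ∈ p1.L, ∃ i0 ∈ p.L, p1.F i = p.F i0 := by
    intro i hi
    rw [hL1] at hi
    rcases hi with hi | ⟨i0, hi0, rfl⟩
    · exact ⟨i, hi, hF1 i hi⟩
    · exact ⟨i0, hi0, hF1' i0 hi0⟩
  have hX1 : ∀ i ∈ p1.L, ∀ n, ∀ B ∈ p1.F i n, (B ∩ X).Infinite ∧ (B ∩ Xᶜ).Infinite := by
    intro i hi n B hB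
    obtain ⟨i0, hi0, h0⟩ := hsrc i hi
    rw [h0] at hB
    obtain ⟨b, hb, hbF, hbB⟩ := hB1 i0 hi0 n B hB
    obtain ⟨h1, h2⟩ := hX b hb (p.inf i0 n b hbF)
    exact ⟨h1.mono (inter_subset_inter_left _ hbB), h2.mono (inter_subset_inter_left _ hbB)⟩
  have hbig : ∀ b ∈ 𝓑, (∀ j ∈ p.L, {m | b ∈ p.F j m}.Infinite) → ∀ B : Set ℕ, b ⊆ B →
      ∀ j ∈ p1.L, {m | (j, m) ∈ T ∧ B ∈ p1.F j m}.Infinite ∧
        {m | (j, m) ∉ T ∧ B ∈ p1.F j m}.Infinite := by
    intro b hb hinf B hbB j hj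
    rw [hL1] at hj
    rcases hj with hj | ⟨j0, hj0, rfl⟩
    · obtain ⟨h1, h2⟩ := hSb b hb j hj (hinf j hj)
      rw [hF1 j hj]
      constructor
      · refine h1.mono ?_
        rintro m ⟨hm1, hm2⟩
        exact ⟨Or.inl ⟨hj, hm2⟩, mem_of_superset hm1 hbB⟩
      · refine h2.mono ?_
        rintro m ⟨hm1, hm2⟩
        refine ⟨?_, mem_of_superset hm1 hbB⟩
        rintro (⟨-, h⟩ | ⟨h, -⟩)
        · exact hm2 h
        · exact h hj
    · obtain ⟨h1, h2⟩ := hSb b hb j0 hj0 (hinf j0 hj0)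
      rw [hF1' j0 hj0]
      constructor
      · refine h2.mono ?_
        rintro m ⟨hm1, hm2⟩
        exact ⟨Or.inr ⟨hnot j0 hj0, hm2⟩, mem_of_superset hm1 hbB⟩
      · refine h1.mono ?_
        rintro m ⟨hm1, hm2⟩
        refine ⟨?_, mem_of_superset hm1 hbB⟩
        rintro (⟨h, -⟩ | ⟨-, h⟩)
        · exact hnot j0 hj0 h
        · exact h hm2
  have hbigF : ∀ i ∈ p1.L, ∀ n, ∀ B ∈ p1.F i n, ∀ j ∈ p1.L,
      {m | (j, m) ∈ T ∧ B ∈ p1.F j m}.Infinite ∧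
        {m | (j, m) ∉ T ∧ B ∈ p1.F j m}.Infinite := by
    intro i hi n B hB
    obtain ⟨i0, hi0, h0⟩ := hsrc i hi
    rw [h0] at hB
    obtain ⟨b, hb, hbF, hbB⟩ := hB1 i0 hi0 n B hB
    exact hbig b hb (fun j hj => p.good i0 hi0 n b hbF j hj) B hbB
  have hbigZ : ∀ B ∈ p1.Z, ∀ j ∈ p1.L,
      {m | (j, m) ∈ T ∧ B ∈ p1.F j m}.Infinite := by
    intro B hB j hj
    rw [hZ1] at hB
    obtain ⟨b, hb, hbF, hbB⟩ := hB2 B hB
    exact (hbig b hb (fun j hj => p.goodZ b hbF j hj) B hbB j hj).1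
  obtain ⟨q, hq, hqL, hqZ, hq1, hq2⟩ := p1.exists_ext X T
    (fun i hi n _ B hB => (hX1 i hi n B hB).1)
    (fun i hi n _ B hB => (hX1 i hi n B hB).2)
    (fun i hi n _ B hB j hj => (hbigF i hi n B hB j hj).1)
    (fun i hi n _ B hB j hj => (hbigF i hi n B hB j hj).2)
    hbigZ
  by_cases hcase : ∃ r : Cond Λ o, r ≤ q ∧ ∃ Y ∈ r.Z, G Y ⊆ S
  · obtain ⟨r, hr, Y0, hY0, hGY0⟩ := hcase
    -- relabel the copies
    have heL : ∀ i ∈ p.L, e i ∈ r.L := fun i hi => hr.1 (by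
      rw [hqL, hL1]; exact Or.inr ⟨i, hi, rfl⟩)
    let F' : Λ → ℕ → Filter ℕ := fun i n => if i ∈ p.L then r.F (e i) n else cofinite
    have hF'1 : ∀ i ∈ p.L, ∀ n, F' i n = r.F (e i) n := fun i hi n => by
      simp only [F', if_pos hi]
    have hF'2 : ∀ i ∉ p.L, ∀ n, F' i n = cofinite := fun i hi n => by
      simp only [F', if_neg hi]
    have hcof : ((cofinite : Filter ℕ)).IsCountablyGenerated := by
      rw [Nat.cofinite_eq_atTop]; infer_instance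
    let r' : Cond Λ o :=
      { L := p.L
        F := F'
        Z := r.Z
        hL := p.hL
        ho := p.ho
        cF := fun i n => by
          by_cases hi : i ∈ p.L
          · rw [hF'1 i hi]; exact r.cF _ _
          · rw [hF'2 i hi]; exact hcof
        cZ := r.cZ
        inf := fun i n B hB => by
          by_cases hi : i ∈ p.L
          · rw [hF'1 i hi] at hB; exact r.inf _ _ B hB
          · rw [hF'2 i hi] at hB; exact (init Λ o).inf i n B hB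
        leF := fun i n => by
          by_cases hi : i ∈ p.L
          · rw [hF'1 i hi]; exact r.leF _ _
          · rw [hF'2 i hi]
        leZ := r.leZ
        off := hF'2
        good := fun i hi n B hB j hj => by
          rw [hF'1 i hi] at hB
          refine (r.good _ (heL i hi) n B hB _ (heL j hj)).mono ?_
          intro m hm
          simp only [mem_ofPred_eq]
          rw [hF'1 j hj]
          exact hm
        goodZ := fun B hB j hj => by
          refine (r.goodZ B hB _ (heL j hj)).mono ?_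
          intro m hm
          simp only [mem_ofPred_eq]
          rw [hF'1 j hj]
          exact hm }
    have hXr : X ∈ r.Z := hr.2.2 hqZ
    refine ⟨r', ⟨Subset.rfl, ?_, ?_⟩, Or.inl ⟨Y0 ∩ X, inter_mem hY0 hXr, ?_⟩⟩
    · intro i n
      by_cases hi : i ∈ p.L
      · change F' i n ≤ _
        rw [hF'1 i hi, ← hF1' i hi]
        exact (hr.2.1 _ _).trans (hq.2.1 _ _)
      · rw [p.off i hi n]
        change F' i n ≤ _
        rw [hF'2 i hi]
    · exact hr.2.2.trans (hq.2.2.trans hp1.2.2)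
    · intro n hn
      have hnS : n ∈ S := hGY0 (hG inter_subset_left hn)
      have heq : e o ∈ p1.L := by rw [hL1]; exact Or.inr ⟨o, p.ho, rfl⟩
      have h5 : Xᶜ ∈ q.F (e o) n := by
        refine hq2 (e o) heq n ?_
        rintro (⟨h, -⟩ | ⟨-, h⟩)
        · exact hnot o p.ho h
        · exact h hnS
      have h6 : Xᶜ ∈ r.F (e o) n := hr.2.1 _ _ h5
      change _ ∈ F' o n
      rw [hF'1 o p.ho]
      exact mem_of_superset h6 (compl_subset_compl.2 inter_subset_right)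
  · refine ⟨q, hq.trans hp1, Or.inr ⟨S, X, hqZ, ?_, ?_⟩⟩
    · intro n hn
      refine hq2 o (by rw [hL1]; exact Or.inl p.ho) n ?_
      rintro (⟨-, h⟩ | ⟨h, -⟩)
      · exact hn h
      · exact h p.ho
    · intro r hr Y hY hGY
      exact hcase ⟨r, hr, Y, hY, hGY⟩

end Cond

end Pool.Agent.Lib.MP_849e4d_lc
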