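import Mathlib

/-!
Definitions used in the hand-in for MP_849e4d_lc. They spell out the two sides of the frozen
statement S14991 literally.
-/

set_option autoImplicit false

namespace Pool.Agent.Lib.MP_849e4d_lc

/-- `⋃ k, g (X ∩ k)` for a map `g` on finite sets. -/
def finUnion (g : Finset ℕ → Finset ℕ) (X : Set ℕ) : Set ℕ :=
  ⋃ k : ℕ, ⋃ s ∈ {s : Finset ℕ | (s : Set ℕ) = X ∩ Set.Iio k}, ((g s : Finset ℕ) : Set ℕ)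

/-- `f` maps cofinal subsets of `U` to cofinal subsets of `V` (both ordered by `⊇`). -/
def MapsCofinal (U V : Ultrafilter ℕ) (f : Set ℕ → Set ℕ) : Prop :=
  ∀ C : Set (Set ℕ), (∀ X ∈ C, X ∈ U) → (∀ X : Set ℕ, X ∈ U → ∃ Y ∈ C, Y ⊆ X) →
    ∀ Z : Set ℕ, Z ∈ V → ∃ Y ∈ f '' C, Y ⊆ Z

/-- `f` is a monotone cofinal map from `U` to `V`. -/
def MonotoneCofinal (U V : Ultrafilter ℕ) (f : Set ℕ → Set ℕ) : Prop :=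
  (∀ X : Set ℕ, X ∈ U → f X ∈ V) ∧
  (∀ X : Set ℕ, X ∈ U → ∀ Y : Set ℕ, Y ∈ U → Y ⊆ X → f Y ⊆ f X) ∧ MapsCofinal U V f

/-- `U` has finitely generated Tukey reductions. -/
def FinGenReductions (U : Ultrafilter ℕ) : Prop :=
  ∀ V : Ultrafilter ℕ, ∀ f : Set ℕ → Set ℕ, MonotoneCofinal U V f →
    ∃ C : Set (Set ℕ), (∀ X ∈ C, X ∈ U) ∧ (∀ X : Set ℕ, X ∈ U → ∃ Y ∈ C, Y ⊆ X) ∧
      ∃ g : Finset ℕ → Finset ℕ, (∀ s t : Finset ℕ, s ⊆ t → g s ⊆ g t) ∧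
        ∀ X ∈ C, f X = finUnion g X

/-- `U` is Tukey reducible to `([𝔠]^{<ω}, ⊆)`, the finite sets of sets of natural numbers. -/
def BelowTop (U : Ultrafilter ℕ) : Prop :=
  ∃ h : Finset (Set ℕ) → Set ℕ, (∀ s : Finset (Set ℕ), h s ∈ U) ∧
    ∀ D : Set (Finset (Set ℕ)), (∀ s : Finset (Set ℕ), ∃ t ∈ D, s ⊆ t) →
      ∀ X : Set ℕ, X ∈ U → ∃ Y ∈ h '' D, Y ⊆ X

/-- `([𝔠]^{<ω}, ⊆)` is Tukey reducible to `U`. -/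
def AboveTop (U : Ultrafilter ℕ) : Prop :=
  ∃ h : Set ℕ → Finset (Set ℕ),
    ∀ C : Set (Set ℕ), (∀ X ∈ C, X ∈ U) → (∀ X : Set ℕ, X ∈ U → ∃ Y ∈ C, Y ⊆ X) →
      ∀ s : Finset (Set ℕ), ∃ t ∈ h '' C, s ⊆ t

/-- `U <_T [𝔠]^{<ω}`. -/
def StrictlyBelowTop (U : Ultrafilter ℕ) : Prop := BelowTop U ∧ ¬ AboveTop U

end Pool.Agent.Lib.MP_849e4d_lc
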