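import Pool.Agent.Lib.MP_849e4d_lc.Reduce
import Pool.Agent.Lib.MP_a1c723_lc.BV.Model

/-!
# The consistency theorem from a statement about conditions
-/

set_option autoImplicit false

namespace Pool.Agent.SC

open Pool.Agent.MPa4e7db Pool.Agent.MP_5db68c_lc Pool.Agent.StarRoth.BV Pool.Agent.Lib.SymModel

/-- The statement about conditions. -/
def ForcingStmt : Prop :=
  ∃ (P : Type) (_ : Preorder P), Nonempty P ∧ SigmaClosed P ∧
    ∃ (u v : Set ℕ → RO P) (F : Set ℕ → Set ℕ → RO P),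
      UltraForced u ∧ UltraForced v ∧ MapForced u v F ∧ NotTop u ∧ NotGen u F

theorem consistency (h : ForcingStmt) :
    ∃ (M : Type) (_ : Membership M M), ModelZFC M ∧
      ∃ w U : M, IsOmegaIn w ∧ IsUltraIn U w ∧ IsBelowTopIn U w ∧ ¬ HasFinGenIn U w := by
  obtain ⟨P, _, ⟨p⟩, hP, u, v, F, hu, hv, hF, h1, h2⟩ := h
  have hB : (⊥ : RO P) ≠ ⊤ := fun h => RO.notMem_bot p (h ▸ RO.mem_top p)
  obtain ⟨M, _, hM, hval⟩ := modelStmt (RO P) hB
  refine ⟨M, _, hM, ?_⟩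
  have h3 := hval fTukey fun v => by rw [val_fTukey, tukeyB_eq_top hP hu hv hF h1 h2]
  obtain ⟨e, -⟩ := hM.infinity
  exact sat_fTukey _ (h3 fun _ => e)

end Pool.Agent.SC
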