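import Pool.Agent.Lib.MP_849e4d_lc.Internal
import Pool.Agent.Lib.MP_a1c723_lc.BV.Formula

/-!
# MP_849e4d_lc: the negation of the question as a first-order sentence
-/

set_option autoImplicit false

namespace Pool.Agent.SC

open Pool.Agent.MPa4e7db Pool.Agent.MP_5db68c_lc Pool.Agent.StarRoth.BV

/-! ### Boolean values -/

section

variable {B : Type} [CompleteBooleanAlgebra B]

/-- `D` is the set of all finite sets of subsets of `w`. -/
def isFinSetsB (D w : BName B) : B :=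
  ⨅ F : BName B, iffB (memB F D)
    ((⨅ x : BName B, memB x F ⇨ subB x w) ⊓ ⨆ n : BName B, memB n w ⊓ cardLeB F n)

/-- `S` is the set of all bounded subsets of `w`. -/
def isBddSetsB (S w : BName B) : B :=
  ⨅ s : BName B, iffB (memB s S) (⨆ k : BName B, memB k w ⊓ subB s k)

def isCofDownB (C U : BName B) : B :=
  subB C U ⊓ ⨅ x : BName B, memB x U ⇨ ⨆ y : BName B, memB y C ⊓ subB y x

def isCofUpB (C D : BName B) : B :=
  subB C D ⊓ ⨅ x : BName B, memB x D ⇨ ⨆ y : BName B, memB y C ⊓ subB x y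

def isCofMapDDB (f U V : BName B) : B :=
  isFunIntoB f U V ⊓ ⨅ C : BName B, isCofDownB C U ⇨
    ⨅ b : BName B, memB b V ⇨ ⨆ x : BName B, ⨆ y : BName B, memB x C ⊓ relB f x y ⊓ subB y b

def isCofMapDUB (g U D : BName B) : B :=
  isFunIntoB g U D ⊓ ⨅ C : BName B, isCofDownB C U ⇨
    ⨅ b : BName B, memB b D ⇨ ⨆ x : BName B, ⨆ y : BName B, memB x C ⊓ relB g x y ⊓ subB b y

def isCofMapUDB (g D U : BName B) : B :=
  isFunIntoB g D U ⊓ ⨅ C : BName B, isCofUpB C D ⇨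
    ⨅ b : BName B, memB b U ⇨ ⨆ x : BName B, ⨆ y : BName B, memB x C ⊓ relB g x y ⊓ subB y b

def isMonoB (f : BName B) : B :=
  ⨅ x : BName B, ⨅ x' : BName B, ⨅ y : BName B, ⨅ y' : BName B,
    relB f x y ⊓ relB f x' y' ⊓ subB x x' ⇨ subB y y'

def isFinGenB (f U w : BName B) : B :=
  ⨆ C : BName B, ⨆ S : BName B, ⨆ h : BName B,
    isCofDownB C U ⊓ isBddSetsB S w ⊓ isFunIntoB h S S ⊓ isMonoB h ⊓
      ⨅ x : BName B, ⨅ y : BName B, memB x C ⊓ relB f x y ⇨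
        ⨅ n : BName B, iffB (memB n y) (⨆ k : BName B, ⨆ s : BName B, ⨆ t : BName B,
          memB k w ⊓ isInterB s x k ⊓ relB h s t ⊓ memB n t)

end

/-- The Boolean value of: there is an ultrafilter strictly Tukey below `[𝔠]^{<ω}` without finitely
generated Tukey reductions. -/
def tukeyB (B : Type) [CompleteBooleanAlgebra B] : B :=
  ⨆ w : BName B, ⨆ U : BName B, ⨆ V : BName B, ⨆ f : BName B, ⨆ D : BName B,
    isOmegaB w ⊓ isUltrafilterB U w ⊓ isFinSetsB D w ⊓ (⨆ g : BName B, isCofMapUDB g D U) ⊓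
      (⨆ g : BName B, isCofMapDUB g U D)ᶜ ⊓ isUltrafilterB V w ⊓ isMonoB f ⊓
      isCofMapDDB f U V ⊓ (isFinGenB f U w)ᶜ

/-! ### Formulas -/

def fDiff (z x y : ℕ) : Fml :=
  .all (fIff (.mem 0 (z + 1)) (.and (.mem 0 (x + 1)) (.neg (.mem 0 (y + 1)))))
def fInter (z x y : ℕ) : Fml :=
  .all (fIff (.mem 0 (z + 1)) (.and (.mem 0 (x + 1)) (.mem 0 (y + 1))))
def fUltra (U w : ℕ) : Fml :=
  .and (.and (.and (.and (.and (.all (fImp (.mem 0 (U + 1)) (fSub 0 (w + 1)))) (.mem w U))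
    (.all (fImp (fEmpty 0) (.neg (.mem 0 (U + 1))))))
    (.all (.all (fImp (.and (.and (.mem (0 + 1) (U + 1 + 1)) (fSub (0 + 1) 0))
      (fSub 0 (w + 1 + 1))) (.mem 0 (U + 1 + 1))))))
    (.all (.all (.all (fImp (.and (.and (.mem (0 + 1 + 1) (U + 1 + 1 + 1))
      (.mem (0 + 1) (U + 1 + 1 + 1))) (fInter 0 (0 + 1 + 1) (0 + 1))) (.mem 0 (U + 1 + 1 + 1)))))))
    (.all (.all (fImp (.and (fSub (0 + 1) (w + 1 + 1)) (fDiff 0 (w + 1 + 1) (0 + 1)))
      (fOr (.mem (0 + 1) (U + 1 + 1)) (.mem 0 (U + 1 + 1))))))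
def fFinSets (D w : ℕ) : Fml :=
  .all (fIff (.mem 0 (D + 1)) (.and (.all (fImp (.mem 0 (0 + 1)) (fSub 0 (w + 1 + 1))))
    (fEx (.and (.mem 0 (w + 1 + 1)) (fCardLe (0 + 1) 0)))))
def fBddSets (S w : ℕ) : Fml :=
  .all (fIff (.mem 0 (S + 1)) (fEx (.and (.mem 0 (w + 1 + 1)) (fSub (0 + 1) 0))))
def fCofDown (C U : ℕ) : Fml :=
  .and (fSub C U) (.all (fImp (.mem 0 (U + 1)) (fEx (.and (.mem 0 (C + 1 + 1)) (fSub 0 (0 + 1))))))
def fCofUp (C D : ℕ) : Fml :=
  .and (fSub C D) (.all (fImp (.mem 0 (D + 1)) (fEx (.and (.mem 0 (C + 1 + 1)) (fSub (0 + 1) 0)))))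
def fCofMapDD (f U V : ℕ) : Fml :=
  .and (fFunInto f U V) (.all (fImp (fCofDown 0 (U + 1)) (.all (fImp (.mem 0 (V + 1 + 1))
    (fEx (fEx (.and (.and (.mem (0 + 1) (0 + 1 + 1 + 1)) (fRel (f + 1 + 1 + 1 + 1) (0 + 1) 0))
      (fSub 0 (0 + 1 + 1)))))))))
def fCofMapDU (g U D : ℕ) : Fml :=
  .and (fFunInto g U D) (.all (fImp (fCofDown 0 (U + 1)) (.all (fImp (.mem 0 (D + 1 + 1))
    (fEx (fEx (.and (.and (.mem (0 + 1) (0 + 1 + 1 + 1)) (fRel (g + 1 + 1 + 1 + 1) (0 + 1) 0))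
      (fSub (0 + 1 + 1) 0))))))))
def fCofMapUD (g D U : ℕ) : Fml :=
  .and (fFunInto g D U) (.all (fImp (fCofUp 0 (D + 1)) (.all (fImp (.mem 0 (U + 1 + 1))
    (fEx (fEx (.and (.and (.mem (0 + 1) (0 + 1 + 1 + 1)) (fRel (g + 1 + 1 + 1 + 1) (0 + 1) 0))
      (fSub 0 (0 + 1 + 1)))))))))
def fMono (f : ℕ) : Fml :=
  .all (.all (.all (.all (fImp (.and (.and (fRel (f + 1 + 1 + 1 + 1) (0 + 1 + 1 + 1) (0 + 1))
    (fRel (f + 1 + 1 + 1 + 1) (0 + 1 + 1) 0)) (fSub (0 + 1 + 1 + 1) (0 + 1 + 1)))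
    (fSub (0 + 1) 0)))))
def fFinGen (f U w : ℕ) : Fml :=
  fEx (fEx (fEx (.and (.and (.and (.and (fCofDown (0 + 1 + 1) (U + 1 + 1 + 1))
    (fBddSets (0 + 1) (w + 1 + 1 + 1))) (fFunInto 0 (0 + 1) (0 + 1))) (fMono 0))
    (.all (.all (fImp (.and (.mem (0 + 1) (0 + 1 + 1 + 1 + 1))
      (fRel (f + 1 + 1 + 1 + 1 + 1) (0 + 1) 0))
      (.all (fIff (.mem 0 (0 + 1)) (fEx (fEx (fEx (.and (.and (.and
        (.mem (0 + 1 + 1) (w + 1 + 1 + 1 + 1 + 1 + 1 + 1 + 1 + 1))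
        (fInter (0 + 1) (0 + 1 + 1 + 1 + 1 + 1) (0 + 1 + 1)))
        (fRel (0 + 1 + 1 + 1 + 1 + 1 + 1) (0 + 1) 0)) (.mem (0 + 1 + 1 + 1) 0)))))))))))))
def fTukey : Fml :=
  fEx (fEx (fEx (fEx (fEx (.and (.and (.and (.and (.and (.and (.and (.and
    (fOmega (0 + 1 + 1 + 1 + 1)) (fUltra (0 + 1 + 1 + 1) (0 + 1 + 1 + 1 + 1)))
    (fFinSets 0 (0 + 1 + 1 + 1 + 1))) (fEx (fCofMapUD 0 (0 + 1) (0 + 1 + 1 + 1 + 1))))
    (.neg (fEx (fCofMapDU 0 (0 + 1 + 1 + 1 + 1) (0 + 1)))))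
    (fUltra (0 + 1 + 1) (0 + 1 + 1 + 1 + 1))) (fMono (0 + 1)))
    (fCofMapDD (0 + 1) (0 + 1 + 1 + 1) (0 + 1 + 1)))
    (.neg (fFinGen (0 + 1) (0 + 1 + 1 + 1) (0 + 1 + 1 + 1 + 1))))))))

section

variable {B : Type} [CompleteBooleanAlgebra B] (v : ℕ → BName B)

theorem val_fDiff (z x y : ℕ) : val (fDiff z x y) v = isDiffB (v z) (v x) (v y) := by
  simp only [fDiff, val_all, val_iff, val_and, val_neg, val_mem, push_zero, push_succ, isDiffB]

theorem val_fInter (z x y : ℕ) : val (fInter z x y) v = isInterB (v z) (v x) (v y) := by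
  simp only [fInter, val_all, val_iff, val_and, val_mem, push_zero, push_succ, isInterB]

theorem val_fUltra (U w : ℕ) : val (fUltra U w) v = isUltrafilterB (v U) (v w) := by
  simp only [fUltra, val_all, val_imp, val_and, val_or, val_neg, val_mem, val_fSub, val_fEmpty,
    val_fDiff, val_fInter, push_zero, push_succ, isUltrafilterB]

theorem val_fFinSets (D w : ℕ) : val (fFinSets D w) v = isFinSetsB (v D) (v w) := by
  simp only [fFinSets, val_all, val_ex, val_iff, val_imp, val_and, val_mem, val_fSub, val_fCardLe,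
    push_zero, push_succ, isFinSetsB]

theorem val_fBddSets (S w : ℕ) : val (fBddSets S w) v = isBddSetsB (v S) (v w) := by
  simp only [fBddSets, val_all, val_ex, val_iff, val_and, val_mem, val_fSub,
    push_zero, push_succ, isBddSetsB]

theorem val_fCofDown (C U : ℕ) : val (fCofDown C U) v = isCofDownB (v C) (v U) := by
  simp only [fCofDown, val_all, val_ex, val_imp, val_and, val_mem, val_fSub,
    push_zero, push_succ, isCofDownB]

theorem val_fCofUp (C U : ℕ) : val (fCofUp C U) v = isCofUpB (v C) (v U) := by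
  simp only [fCofUp, val_all, val_ex, val_imp, val_and, val_mem, val_fSub,
    push_zero, push_succ, isCofUpB]

theorem val_fCofMapDD (f U V : ℕ) : val (fCofMapDD f U V) v = isCofMapDDB (v f) (v U) (v V) := by
  simp only [fCofMapDD, val_all, val_ex, val_imp, val_and, val_mem, val_fSub, val_fFunInto,
    val_fCofDown, val_fRel, push_zero, push_succ, isCofMapDDB]

theorem val_fCofMapDU (f U V : ℕ) : val (fCofMapDU f U V) v = isCofMapDUB (v f) (v U) (v V) := by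
  simp only [fCofMapDU, val_all, val_ex, val_imp, val_and, val_mem, val_fSub, val_fFunInto,
    val_fCofDown, val_fRel, push_zero, push_succ, isCofMapDUB]

theorem val_fCofMapUD (f U V : ℕ) : val (fCofMapUD f U V) v = isCofMapUDB (v f) (v U) (v V) := by
  simp only [fCofMapUD, val_all, val_ex, val_imp, val_and, val_mem, val_fSub, val_fFunInto,
    val_fCofUp, val_fRel, push_zero, push_succ, isCofMapUDB]

theorem val_fMono (f : ℕ) : val (fMono f) v = isMonoB (v f) := by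
  simp only [fMono, val_all, val_imp, val_and, val_fSub, val_fRel, push_zero, push_succ, isMonoB]

theorem val_fFinGen (f U w : ℕ) : val (fFinGen f U w) v = isFinGenB (v f) (v U) (v w) := by
  simp only [fFinGen, val_all, val_ex, val_imp, val_iff, val_and, val_mem, val_fFunInto,
    val_fCofDown, val_fRel, val_fBddSets, val_fMono, val_fInter, push_zero, push_succ, isFinGenB]

theorem val_fTukey : val fTukey v = tukeyB B := by
  simp only [fTukey, val_ex, val_and, val_neg, val_fOmega, val_fUltra, val_fFinSets,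
    val_fCofMapUD, val_fCofMapDU, val_fCofMapDD, val_fMono, val_fFinGen,
    push_zero, push_succ, tukeyB]

end

section

variable {M : Type} [Membership M M] (v : ℕ → M)

theorem sat_fDiff (z x y : ℕ) :
    Sat (fDiff z x y) v ↔ ∀ t : M, t ∈ v z ↔ t ∈ v x ∧ t ∉ v y := by
  simp only [fDiff, sat_all, sat_iff, sat_and, sat_neg, sat_mem, push_zero, push_succ]

theorem sat_fInter (z x y : ℕ) : Sat (fInter z x y) v ↔ IsInterIn (v z) (v x) (v y) := by
  simp only [fInter, sat_all, sat_iff, sat_and, sat_mem, push_zero, push_succ, IsInterIn]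

theorem sat_fUltra (U w : ℕ) : Sat (fUltra U w) v ↔ IsUltraIn (v U) (v w) := by
  simp only [fUltra, sat_all, sat_imp, sat_and, sat_or, sat_neg, sat_mem, sat_fSub, sat_fEmpty,
    sat_fDiff, sat_fInter, push_zero, push_succ, IsUltraIn, and_assoc]

theorem sat_fFinSets (D w : ℕ) : Sat (fFinSets D w) v ↔ IsFinSetsIn (v D) (v w) := by
  simp only [fFinSets, sat_all, sat_ex, sat_iff, sat_imp, sat_and, sat_mem, sat_fSub, sat_fCardLe,
    push_zero, push_succ, IsFinSetsIn]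

theorem sat_fBddSets (S w : ℕ) : Sat (fBddSets S w) v ↔ IsBddSetsIn (v S) (v w) := by
  simp only [fBddSets, sat_all, sat_ex, sat_iff, sat_and, sat_mem, sat_fSub,
    push_zero, push_succ, IsBddSetsIn]

theorem sat_fCofDown (C U : ℕ) : Sat (fCofDown C U) v ↔ IsCofDownIn (v C) (v U) := by
  simp only [fCofDown, sat_all, sat_ex, sat_imp, sat_and, sat_mem, sat_fSub,
    push_zero, push_succ, IsCofDownIn]

theorem sat_fCofUp (C U : ℕ) : Sat (fCofUp C U) v ↔ IsCofUpIn (v C) (v U) := by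
  simp only [fCofUp, sat_all, sat_ex, sat_imp, sat_and, sat_mem, sat_fSub,
    push_zero, push_succ, IsCofUpIn]

theorem sat_fCofMapDD (f U V : ℕ) :
    Sat (fCofMapDD f U V) v ↔ IsCofMapDDIn (v f) (v U) (v V) := by
  simp only [fCofMapDD, sat_all, sat_ex, sat_imp, sat_and, sat_mem, sat_fSub, sat_fFunInto,
    sat_fCofDown, sat_fRel, push_zero, push_succ, IsCofMapDDIn]

theorem sat_fCofMapDU (f U V : ℕ) :
    Sat (fCofMapDU f U V) v ↔ IsCofMapDUIn (v f) (v U) (v V) := by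
  simp only [fCofMapDU, sat_all, sat_ex, sat_imp, sat_and, sat_mem, sat_fSub, sat_fFunInto,
    sat_fCofDown, sat_fRel, push_zero, push_succ, IsCofMapDUIn]

theorem sat_fCofMapUD (f U V : ℕ) :
    Sat (fCofMapUD f U V) v ↔ IsCofMapUDIn (v f) (v U) (v V) := by
  simp only [fCofMapUD, sat_all, sat_ex, sat_imp, sat_and, sat_mem, sat_fSub, sat_fFunInto,
    sat_fCofUp, sat_fRel, push_zero, push_succ, IsCofMapUDIn]

theorem sat_fMono (f : ℕ) : Sat (fMono f) v ↔ IsMonoIn (v f) := by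
  simp only [fMono, sat_all, sat_imp, sat_and, sat_fSub, sat_fRel, push_zero, push_succ, IsMonoIn]

theorem sat_fFinGen (f U w : ℕ) : Sat (fFinGen f U w) v ↔ IsFinGenIn (v f) (v U) (v w) := by
  simp only [fFinGen, sat_all, sat_ex, sat_imp, sat_iff, sat_and, sat_mem, sat_fFunInto,
    sat_fCofDown, sat_fRel, sat_fBddSets, sat_fMono, sat_fInter, push_zero, push_succ, IsFinGenIn,
    and_assoc]

theorem sat_fTukey (h : Sat fTukey v) :
    ∃ w U : M, IsOmegaIn w ∧ IsUltraIn U w ∧ IsBelowTopIn U w ∧ ¬ HasFinGenIn U w := by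
  simp only [fTukey, sat_ex, sat_and, sat_neg, sat_fOmega, sat_fUltra, sat_fFinSets,
    sat_fCofMapUD, sat_fCofMapDU, sat_fCofMapDD, sat_fMono, sat_fFinGen,
    push_zero, push_succ] at h
  obtain ⟨w, U, V, f, D, ⟨⟨⟨⟨⟨⟨⟨h1, h2⟩, h3⟩, h4⟩, h5⟩, h6⟩, h7⟩, h8⟩, h9⟩ := h
  exact ⟨w, U, h1, h2, ⟨D, h3, h4, h5⟩, fun h => h9 (h V f ⟨⟨h6, h7⟩, h8⟩)⟩

end

end Pool.Agent.SC
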