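import Mathlib

/-!
Jensen's diamond principle on `ω₁` and the guessing form used in MP_849e4d_lc.
-/

set_option autoImplicit false

namespace Pool.Agent.Lib.MP_849e4d_lc

open Set Ordinal Cardinal

/-- `C` is a closed unbounded subset of `ω₁`. -/
def IsClubOmegaOne (C : Set Ordinal.{0}) : Prop :=
  (∀ γ ∈ C, γ < ω₁) ∧ (∀ ξ < ω₁, ∃ γ ∈ C, ξ < γ) ∧
    ∀ δ < ω₁, δ ≠ 0 → (∀ ξ < δ, ∃ γ ∈ C, ξ < γ ∧ γ < δ) → δ ∈ C

/-- Jensen's principle `◇` on `ω₁`: there is a sequence `(A δ)` such that for every set `S` of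
ordinals the set of all `δ < ω₁` with `S ∩ δ = A δ` meets every closed unbounded subset of `ω₁`. -/
def Diamond : Prop :=
  ∃ A : Ordinal.{0} → Set Ordinal.{0}, ∀ S : Set Ordinal.{0}, ∀ C : Set Ordinal.{0},
    IsClubOmegaOne C → ∃ δ ∈ C, S ∩ Iio δ = A δ

/-- The countable ordinals. -/
abbrev Om : Type 1 := {a : Ordinal.{0} // a < ω₁}

theorem countable_Iio_ordinal {a : Ordinal.{0}} (ha : a < ω₁) : (Iio a).Countable := by
  have h1 : a.card < ℵ₁ := by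
    rw [← Cardinal.ord_aleph, Cardinal.lt_ord] at ha
    exact ha
  have h2 : a.card ≤ ℵ₀ := by
    rw [← Cardinal.succ_aleph0, Order.lt_succ_iff] at h1
    exact h1
  rw [← Cardinal.le_aleph0_iff_set_countable, Cardinal.mk_Iio_ordinal]
  exact Cardinal.lift_le_aleph0.2 h2

theorem countable_Iio_om (a : Om) : (Iio a).Countable := by
  have h := (countable_Iio_ordinal a.2).preimage_of_injOn
    (f := fun x : Om => x.1) (Subtype.val_injective.injOn)
  exact h.mono (fun x hx => hx)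

theorem mk_om : Cardinal.mk Om = ℵ₁ := by
  have h : Cardinal.mk Om = Cardinal.mk (Iio ω₁ : Set Ordinal.{0}) := rfl
  rw [h, Cardinal.mk_Iio_ordinal]
  simp

instance : Uncountable Om := by
  rw [← Cardinal.aleph0_lt_mk_iff, mk_om]
  exact Cardinal.aleph0_lt_aleph_one

theorem exists_inj : ∃ π : Om × ℕ → Om, Function.Injective π := by
  have h : Cardinal.mk (Om × ℕ) ≤ Cardinal.mk Om := by
    rw [Cardinal.mk_prod, mk_om]
    simp
  obtain ⟨e⟩ := h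
  exact ⟨e, e.injective⟩

theorem exists_strict_bound_om (C : Set Om) (hC : C.Countable) : ∃ a : Om, ∀ c ∈ C, c < a := by
  by_contra h
  push Not at h
  apply not_countable_univ (α := Om)
  refine (hC.biUnion (t := fun c _ => Iic c) ?_).mono ?_
  · intro c _
    rw [← Iio_insert]
    exact (countable_Iio_om c).insert c
  · intro a _
    obtain ⟨c, hc, hac⟩ := h a
    exact mem_biUnion hc hac

/-- The guessing form of `◇`. -/
theorem Diamond.guess (hd : Diamond) : ∃ A' : Om → Set (Om × ℕ),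
    ∀ (S' : Set (Om × ℕ)) (h : Om → Om) (η : Om), ∃ δ, η < δ ∧ (∀ ξ < δ, h ξ < δ) ∧
      ∀ ν < δ, ∀ n, ((ν, n) ∈ A' δ ↔ (ν, n) ∈ S') := by
  classical
  obtain ⟨A, hA⟩ := hd
  obtain ⟨π, hπ⟩ := exists_inj
  refine ⟨fun δ => {x | (π x).1 ∈ A δ.1}, ?_⟩
  intro S' h η
  -- the club of closure points
  let C : Set Ordinal.{0} := {δ | ∃ hδ : δ < ω₁, η < ⟨δ, hδ⟩ ∧
    ∀ ξ : Om, ξ.1 < δ → (h ξ).1 < δ ∧ ∀ n, (π (ξ, n)).1 < δ}
  have hC : IsClubOmegaOne C := by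
    refine ⟨fun γ hγ => hγ.1, ?_, ?_⟩
    · intro ξ0 hξ0
      -- a bounding function
      have hk : ∀ ζ : Om, ∃ a : Om, ζ < a ∧ ∀ ξ ≤ ζ, h ξ < a ∧ ∀ n, π (ξ, n) < a := by
        intro ζ
        have hcount : (Iic ζ).Countable := by
          rw [← Iio_insert]; exact (countable_Iio_om ζ).insert ζ
        obtain ⟨a, ha⟩ := exists_strict_bound_om
          ({ζ} ∪ h '' Iic ζ ∪ π '' (Iic ζ ×ˢ Set.univ))
          (((countable_singleton _).union (hcount.image _)).union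
            ((hcount.prod countable_univ).image _))
        refine ⟨a, ha ζ (Or.inl (Or.inl rfl)), fun ξ hξ => ⟨ha _ (Or.inl (Or.inr ⟨ξ, hξ, rfl⟩)),
          fun n => ha _ (Or.inr ⟨(ξ, n), ⟨hξ, mem_univ _⟩, rfl⟩)⟩⟩
      choose k hk1 hk2 using hk
      let s : ℕ → Om := fun n => k^[n] (max η ⟨ξ0, hξ0⟩)
      have hs : ∀ n, s (n + 1) = k (s n) := fun n => Function.iterate_succ_apply' k n _
      obtain ⟨a, ha⟩ := exists_strict_bound_om (range s) (countable_range s)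
      -- the least upper bound
      let δ : Om := (wellFounded_lt (α := Om)).min {x | ∀ n, s n < x}
        ⟨a, fun n => ha _ (mem_range_self n)⟩
      have hδ1 : ∀ n, s n < δ := (wellFounded_lt (α := Om)).min_mem {x | ∀ n, s n < x} _
      have hδ2 : ∀ x, x < δ → ∃ n, x ≤ s n := by
        intro x hx
        by_contra hno
        push Not at hno
        exact (wellFounded_lt (α := Om)).not_lt_min {x | ∀ n, s n < x} hno hx
      refine ⟨δ.1, ⟨δ.2, ?_, ?_⟩, ?_⟩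
      · exact lt_of_le_of_lt (le_max_left _ _) (hδ1 0)
      · intro ξ hξ
        obtain ⟨n, hn⟩ := hδ2 ξ hξ
        obtain ⟨h1, h2⟩ := hk2 (s n) ξ hn
        rw [← hs n] at h1 h2
        exact ⟨h1.trans (hδ1 _), fun m => (h2 m).trans (hδ1 _)⟩
      · have : (⟨ξ0, hξ0⟩ : Om) < δ := lt_of_le_of_lt (le_max_right _ _) (hδ1 0)
        exact this
    · intro δ hδ hδ0 hcl
      refine ⟨hδ, ?_, ?_⟩
      · obtain ⟨γ, ⟨hγ, hγ1, -⟩, -, hγδ⟩ := hcl 0 (pos_iff_ne_zero.2 hδ0)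
        have : (⟨γ, hγ⟩ : Om) < ⟨δ, hδ⟩ := hγδ
        exact hγ1.trans this
      · intro ξ hξ
        obtain ⟨γ, ⟨hγ, -, hγ2⟩, hξγ, hγδ⟩ := hcl ξ.1 hξ
        obtain ⟨h1, h2⟩ := hγ2 ξ hξγ
        exact ⟨h1.trans hγδ, fun n => (h2 n).trans hγδ⟩
  obtain ⟨δ, ⟨hδ, hδ1, hδ2⟩, hguess⟩ := hA {x | ∃ y ∈ S', (π y).1 = x} C hC
  refine ⟨⟨δ, hδ⟩, hδ1, fun ξ hξ => (hδ2 ξ hξ).1, ?_⟩
  intro ν hν n
  have h1 : (π (ν, n)).1 < δ := (hδ2 ν hν).2 n
  change (π (ν, n)).1 ∈ A δ ↔ _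
  rw [← hguess]
  constructor
  · rintro ⟨⟨y, hy, hy'⟩, -⟩
    have : y = (ν, n) := hπ (Subtype.ext hy')
    rwa [← this]
  · intro hy
    exact ⟨⟨_, hy, rfl⟩, h1⟩

end Pool.Agent.Lib.MP_849e4d_lc
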