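import Pool.Agent.Lib.MP_a1c723_lc.BV.Internal

/-!
# MP_849e4d_lc: the notions of the question inside a model of set theory

All notions below are *internal* to an arbitrary structure `(M, ∈)`: a type `M` with a binary
relation, written `x ∈ a` through an arbitrary instance of `Membership M M`. All quantifiers run
over the elements of `M`. The basic notions (`SubIn`, `RelIn`, `IsFunIntoIn`, `CardLeIn`,
`IsOmegaIn`, …) are those of `Pool.Agent.Lib.MP_a1c723_lc.BV.Internal`.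
-/

set_option autoImplicit false

namespace Pool.Agent.SC

open Pool.Agent.StarRoth.BV

variable {M : Type} [Membership M M]

/-- `c = a ∩ b`. -/
def IsInterIn (c a b : M) : Prop := ∀ t : M, t ∈ c ↔ t ∈ a ∧ t ∈ b

/-- `U` is an ultrafilter on `w`: a set of subsets of `w` that contains `w` but not the empty set,
is closed under supersets and intersections, and contains `x` or `w ∖ x` for every `x ⊆ w`. -/
def IsUltraIn (U w : M) : Prop :=
  (∀ x : M, x ∈ U → SubIn x w) ∧ w ∈ U ∧ (∀ e : M, (∀ t : M, t ∉ e) → e ∉ U) ∧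
    (∀ x y : M, (x ∈ U ∧ SubIn x y) ∧ SubIn y w → y ∈ U) ∧
    (∀ x y z : M, (x ∈ U ∧ y ∈ U) ∧ IsInterIn z x y → z ∈ U) ∧
    ∀ x y : M, SubIn x w ∧ (∀ t : M, t ∈ y ↔ t ∈ w ∧ t ∉ x) → x ∈ U ∨ y ∈ U

/-- `D` is the set of all finite sets of subsets of `w = ω`. Ordered by inclusion this is the
directed set `[P(ω)]^{<ω}`, isomorphic to `[𝔠]^{<ω}`. A set is finite if it injects into an element
of `ω`. -/
def IsFinSetsIn (D w : M) : Prop :=
  ∀ F : M, F ∈ D ↔ (∀ x : M, x ∈ F → SubIn x w) ∧ ∃ n : M, n ∈ w ∧ CardLeIn F n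

/-- `S` is the set of all finite (that is, bounded) subsets of `w = ω`. -/
def IsBddSetsIn (S w : M) : Prop := ∀ s : M, s ∈ S ↔ ∃ k : M, k ∈ w ∧ SubIn s k

/-- `C` is a cofinal subset of `U`, ordered by reverse inclusion. -/
def IsCofDownIn (C U : M) : Prop := SubIn C U ∧ ∀ x : M, x ∈ U → ∃ y : M, y ∈ C ∧ SubIn y x

/-- `C` is a cofinal subset of `D`, ordered by inclusion. -/
def IsCofUpIn (C D : M) : Prop := SubIn C D ∧ ∀ x : M, x ∈ D → ∃ y : M, y ∈ C ∧ SubIn x y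

/-- `f : U → V` sends cofinal subsets of `(U, ⊇)` to cofinal subsets of `(V, ⊇)`. -/
def IsCofMapDDIn (f U V : M) : Prop :=
  IsFunIntoIn f U V ∧ ∀ C : M, IsCofDownIn C U →
    ∀ b : M, b ∈ V → ∃ x y : M, (x ∈ C ∧ RelIn f x y) ∧ SubIn y b

/-- `g : U → D` sends cofinal subsets of `(U, ⊇)` to cofinal subsets of `(D, ⊆)`. -/
def IsCofMapDUIn (g U D : M) : Prop :=
  IsFunIntoIn g U D ∧ ∀ C : M, IsCofDownIn C U →
    ∀ b : M, b ∈ D → ∃ x y : M, (x ∈ C ∧ RelIn g x y) ∧ SubIn b y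

/-- `g : D → U` sends cofinal subsets of `(D, ⊆)` to cofinal subsets of `(U, ⊇)`. -/
def IsCofMapUDIn (g D U : M) : Prop :=
  IsFunIntoIn g D U ∧ ∀ C : M, IsCofUpIn C D →
    ∀ b : M, b ∈ U → ∃ x y : M, (x ∈ C ∧ RelIn g x y) ∧ SubIn y b

/-- The function `f` is monotone: `x ⊆ x'` implies `f(x) ⊆ f(x')`. -/
def IsMonoIn (f : M) : Prop :=
  ∀ x x' y y' : M, (RelIn f x y ∧ RelIn f x' y') ∧ SubIn x x' → SubIn y y'

/-- The function `f`, defined on `U`, is finitely generated on a cofinal subset of `(U, ⊇)`: there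
are a cofinal `C ⊆ U` and a monotone function `h` from the set of finite subsets of `w = ω` to
itself with `f(X) = ⋃_{k ∈ ω} h(X ∩ k)` for all `X ∈ C`. -/
def IsFinGenIn (f U w : M) : Prop :=
  ∃ C S h : M, IsCofDownIn C U ∧ IsBddSetsIn S w ∧ IsFunIntoIn h S S ∧ IsMonoIn h ∧
    ∀ x y : M, x ∈ C ∧ RelIn f x y →
      ∀ n : M, n ∈ y ↔ ∃ k s t : M, ((k ∈ w ∧ IsInterIn s x k) ∧ RelIn h s t) ∧ n ∈ t

/-- The ultrafilter `U` on `w = ω` is strictly Tukey below `[𝔠]^{<ω}`. -/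
def IsBelowTopIn (U w : M) : Prop :=
  ∃ D : M, IsFinSetsIn D w ∧ (∃ g : M, IsCofMapUDIn g D U) ∧ ¬ ∃ g : M, IsCofMapDUIn g U D

/-- The ultrafilter `U` on `w = ω` has finitely generated Tukey reductions. -/
def HasFinGenIn (U w : M) : Prop :=
  ∀ V f : M, (IsUltraIn V w ∧ IsMonoIn f) ∧ IsCofMapDDIn f U V → IsFinGenIn f U w

end Pool.Agent.SC
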