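import Pool.Agent.Lib.MP_849e4d_lc.Iter

/-!
The limit of the iteration for MP_849e4d_lc: the ultrafilter `U`, its image `V` and their
properties, from a guessing sequence.
-/

set_option autoImplicit false

namespace Pool.Agent.Lib.MP_849e4d_lc

open Set Filter

theorem exists_strict_bound {Ω : Type*} [LinearOrder Ω] [Uncountable Ω]
    (hc : ∀ a : Ω, (Iio a).Countable) (C : Set Ω) (hC : C.Countable) : ∃ a, ∀ c ∈ C, c < a := by
  by_contra h
  push Not at h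
  apply not_countable_univ (α := Ω)
  refine (hC.biUnion (t := fun c _ => Iic c) ?_).mono ?_
  · intro c _
    rw [← Iio_insert]
    exact (hc c).insert c
  · intro a _
    obtain ⟨c, hc, hac⟩ := h a
    exact mem_biUnion hc hac

theorem countable_finsets {α : Type*} (s : Set α) (hs : s.Countable) :
    {Γ : Finset α | ∀ v ∈ Γ, v ∈ s}.Countable := by
  have h1 := (countable_ofPred_finite_subset hs).preimage_of_injOn
    (f := fun Γ : Finset α => (Γ : Set α)) (Finset.coe_injective.injOn)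
  refine h1.mono ?_
  intro Γ hΓ
  exact ⟨Γ.finite_toSet, fun v hv => hΓ v hv⟩

theorem exists_closure {Ω : Type*} [LinearOrder Ω] [Uncountable Ω]
    (hc : ∀ a : Ω, (Iio a).Countable) (L : Ω → Set Ω) (hL : ∀ ξ, (L ξ).Countable)
    (𝓓 : Finset ℕ → Finset (Ω × ℕ) → Set Ω) :
    ∃ h : Ω → Ω, ∀ ξ t Γ, (∀ v ∈ Γ, v.1 ∈ L ξ) → ¬ (𝓓 t Γ).Countable →
      ∃ ν ∈ 𝓓 t Γ, ξ < ν ∧ ν < h ξ := by
  classical
  have hpick : ∀ (ξ : Ω) (t : Finset ℕ) (Γ : Finset (Ω × ℕ)), ∃ ν, ¬ (𝓓 t Γ).Countable →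
      ν ∈ 𝓓 t Γ ∧ ξ < ν := by
    intro ξ t Γ
    by_cases h : (𝓓 t Γ).Countable
    · exact ⟨ξ, fun h' => absurd h h'⟩
    · by_contra hno
      push Not at hno
      apply h
      have h2 : (Iic ξ).Countable := by
        rw [← Iio_insert]
        exact (hc ξ).insert ξ
      refine h2.mono ?_
      intro ν hν
      exact (hno ν).2 hν
  choose pick hpick using hpick
  have hb : ∀ ξ : Ω, ∃ a, ∀ c ∈ (fun x : Finset ℕ × Finset (Ω × ℕ) => pick ξ x.1 x.2) ''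
      (univ ×ˢ {Γ : Finset (Ω × ℕ) | ∀ v ∈ Γ, v ∈ (L ξ) ×ˢ (univ : Set ℕ)}), c < a := by
    intro ξ
    apply exists_strict_bound hc
    exact ((countable_univ).prod (countable_finsets _ ((hL ξ).prod countable_univ))).image _
  choose h hh using hb
  refine ⟨h, ?_⟩
  intro ξ t Γ hΓ hunc
  refine ⟨pick ξ t Γ, (hpick ξ t Γ hunc).1, (hpick ξ t Γ hunc).2, ?_⟩
  exact hh ξ _ ⟨(t, Γ), ⟨mem_univ _, fun v hv => ⟨hΓ v hv, mem_univ _⟩⟩, rfl⟩

theorem exists_family (𝓑 : Set (Set ℕ)) (h𝓑 : 𝓑.Countable) : ∃ 𝓑' : Set (Set ℕ),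
    𝓑'.Countable ∧ 𝓑 ⊆ 𝓑' ∧ univ ∈ 𝓑' ∧ (∀ a ∈ 𝓑', ∀ b ∈ 𝓑', a ∩ b ∈ 𝓑') ∧
      ∀ A ∈ (cofinite : Filter ℕ), A ∈ 𝓑' := by
  classical
  let 𝓐 : Set (Set ℕ) := 𝓑 ∪ range (fun s : Finset ℕ => ((s : Set ℕ))ᶜ)
  have hA : 𝓐.Countable := h𝓑.union (countable_range _)
  refine ⟨(fun T : Finset (Set ℕ) => ⋂₀ (T : Set (Set ℕ))) '' {T | ∀ v ∈ T, v ∈ 𝓐},
    (countable_finsets 𝓐 hA).image _, ?_, ?_, ?_, ?_⟩
  · intro B hB
    refine ⟨{B}, ?_, ?_⟩
    · intro v hv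
      rw [Finset.mem_singleton.1 hv]
      exact Or.inl hB
    · simp
  · exact ⟨∅, fun v hv => absurd hv (Finset.notMem_empty v), by simp⟩
  · rintro _ ⟨T, hT, rfl⟩ _ ⟨T', hT', rfl⟩
    refine ⟨T ∪ T', ?_, ?_⟩
    · intro v hv
      rcases Finset.mem_union.1 hv with hv | hv
      · exact hT v hv
      · exact hT' v hv
    · simp [sInter_union]
  · intro A hA
    refine ⟨{A}, ?_, by simp⟩
    intro v hv
    rw [Finset.mem_singleton.1 hv]
    rw [mem_cofinite] at hA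
    exact Or.inr ⟨hA.toFinset, by simp⟩

theorem main_abstract {Ω : Type*} [LinearOrder Ω] [WellFoundedLT Ω] [Uncountable Ω]
    (hc : ∀ a : Ω, (Iio a).Countable) (A' : Ω → Set (Ω × ℕ))
    (hA' : ∀ (S' : Set (Ω × ℕ)) (h : Ω → Ω) (η : Ω), ∃ δ, η < δ ∧ (∀ ξ < δ, h ξ < δ) ∧
      ∀ ν < δ, ∀ n, ((ν, n) ∈ A' δ ↔ (ν, n) ∈ S')) :
    ∃ (U V : Ultrafilter ℕ) (f : Set ℕ → Set ℕ), Monotone f ∧
      (∀ C : Set ℕ, C ∈ V ↔ ∃ X ∈ U, f X ⊆ C) ∧
      (∀ E : Set ℕ, (∃ Y ∈ U, Disjoint (Gop E Y) (f Y)) ∨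
        ∃ C ∈ V, ∀ Y ∈ U, ¬ Gop E Y ⊆ C) ∧
      (∀ D : Ω → Set ℕ, (∀ ν, D ν ∈ U) → ∃ X ∈ U, {ν | X ⊆ D ν}.Infinite) := by
  classical
  obtain ⟨b⟩ : Nonempty Ω := inferInstance
  let D : Ω → Ω → Set ℕ := fun ξ ν => {n | (ν, n) ∈ A' ξ}
  let E : Ω → Set ℕ := fun ξ => D ξ b
  obtain ⟨S, hS, hT⟩ := exists_seq hc (Λ := Ω) (o := b) E D
  have hE : ∀ (A : Set ℕ) (η : Ω), ∃ ξ, η < ξ ∧ E ξ = A := by
    intro A η
    obtain ⟨δ, hδ, -, h⟩ := hA' {x | x.2 ∈ A} id (max b η)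
    refine ⟨δ, lt_of_le_of_lt (le_max_right _ _) hδ, ?_⟩
    ext n
    exact h b (lt_of_le_of_lt (le_max_left _ _) hδ) n
  -- the limit filters
  let u : Ω → ℕ → Filter ℕ := fun i n => ⨅ ξ, (S ξ).F i n
  let U0 : Filter ℕ := ⨅ ξ, (S ξ).Z
  have hu : ∀ i n (A : Set ℕ), A ∈ u i n ↔ ∃ ξ, A ∈ (S ξ).F i n := by
    intro i n A
    refine mem_iInf_of_directed ?_ A
    intro a c
    exact ⟨max a c, (hS _ _ (le_max_left _ _)).2.1 i n, (hS _ _ (le_max_right _ _)).2.1 i n⟩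
  have hU0 : ∀ (A : Set ℕ), A ∈ U0 ↔ ∃ ξ, A ∈ (S ξ).Z := by
    intro A
    refine mem_iInf_of_directed ?_ A
    intro a c
    exact ⟨max a c, (hS _ _ (le_max_left _ _)).2.2, (hS _ _ (le_max_right _ _)).2.2⟩
  have hSle : ∀ ξ i n, u i n ≤ (S ξ).F i n := fun ξ i n => iInf_le _ ξ
  have hSleZ : ∀ ξ, U0 ≤ (S ξ).Z := fun ξ => iInf_le _ ξ
  have huinf : ∀ i n, ∀ B ∈ u i n, B.Infinite := by
    intro i n B hB
    obtain ⟨ξ, hξ⟩ := (hu i n B).1 hB
    exact (S ξ).inf i n B hξ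
  have hUinf : ∀ B ∈ U0, B.Infinite := by
    intro B hB
    obtain ⟨ξ, hξ⟩ := (hU0 B).1 hB
    exact (S ξ).infZ B hξ
  have hugood : ∀ ζ, ∀ i ∈ (S ζ).L, ∀ n, ∀ B ∈ u i n, ∀ j ∈ (S ζ).L,
      {m | B ∈ u j m}.Infinite := by
    intro ζ i hi n B hB j hj
    obtain ⟨ξ, hξ⟩ := (hu i n B).1 hB
    have h1 := hS _ _ (le_max_left ξ ζ)
    have h2 := hS _ _ (le_max_right ξ ζ)
    refine ((S (max ξ ζ)).good i (h2.1 hi) n B (h1.2.1 i n hξ) j (h2.1 hj)).mono ?_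
    intro m hm
    exact (hu j m B).2 ⟨_, hm⟩
  have hUgood : ∀ ζ, ∀ B ∈ U0, ∀ j ∈ (S ζ).L, {m | B ∈ u j m}.Infinite := by
    intro ζ B hB j hj
    obtain ⟨ξ, hξ⟩ := (hU0 B).1 hB
    have h1 := hS _ _ (le_max_left ξ ζ)
    have h2 := hS _ _ (le_max_right ξ ζ)
    refine ((S (max ξ ζ)).goodZ B (h1.2.2 hξ) j (h2.1 hj)).mono ?_
    intro m hm
    exact (hu j m B).2 ⟨_, hm⟩
  have hno : ∀ i n (A : Set ℕ), A ∈ u i n → Aᶜ ∉ u i n := by
    intro i n A h1 h2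
    have h3 := inter_mem h1 h2
    rw [inter_compl_self] at h3
    exact huinf i n _ h3 finite_empty
  have hUno : ∀ (A : Set ℕ), A ∈ U0 → Aᶜ ∉ U0 := by
    intro A h1 h2
    have h3 := inter_mem h1 h2
    rw [inter_compl_self] at h3
    exact hUinf _ h3 finite_empty
  have hdecU : ∀ A : Set ℕ, A ∈ U0 ∨ Aᶜ ∈ U0 := by
    intro A
    obtain ⟨ξ, -, hξ⟩ := hE A b
    obtain ⟨p, -, -, ht⟩ := hT ξ
    rw [hξ] at ht
    rcases ht.decZ with h | h
    · exact Or.inl (hSleZ ξ h)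
    · exact Or.inr (hSleZ ξ h)
  have hdeco : ∀ n (A : Set ℕ), A ∈ u b n ∨ Aᶜ ∈ u b n := by
    intro n A
    obtain ⟨ξ, -, hξ⟩ := hE A b
    obtain ⟨p, -, -, ht⟩ := hT ξ
    rw [hξ] at ht
    rcases ht.dec b p.ho n with h | h
    · exact Or.inl (hSle ξ b n h)
    · exact Or.inr (hSle ξ b n h)
  let f : Set ℕ → Set ℕ := fun X => {n | X ∈ u b n}
  have hf : Monotone f := fun X Y h n hn => mem_of_superset hn h
  have hfC : ∀ (X C : Set ℕ), f X ⊆ C ↔ ∀ n ∉ C, Xᶜ ∈ u b n := by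
    intro X C
    constructor
    · intro h n hn
      exact (hdeco n X).resolve_left (fun h' => hn (h h'))
    · intro h n hn
      by_contra hnC
      exact hno b n X hn (h n hnC)
  -- the ultrafilters
  let U : Ultrafilter ℕ := Ultrafilter.ofComplNotMemIff U0 (fun A =>
    ⟨fun h => (hdecU A).resolve_right h, fun h => hUno A h⟩)
  have hUU : ∀ A : Set ℕ, A ∈ U ↔ A ∈ U0 := fun A => Iff.rfl
  let V0 : Filter ℕ :=
    { sets := {C | ∃ X ∈ U0, f X ⊆ C}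
      univ_sets := ⟨univ, univ_mem, subset_univ _⟩
      sets_of_superset := fun ⟨X, h1, h2⟩ h => ⟨X, h1, h2.trans h⟩
      inter_sets := fun ⟨X, h1, h2⟩ ⟨X', h1', h2'⟩ => ⟨X ∩ X', inter_mem h1 h1',
        subset_inter ((hf inter_subset_left).trans h2) ((hf inter_subset_right).trans h2')⟩ }
  have hV0 : ∀ C : Set ℕ, C ∈ V0 ↔ ∃ X ∈ U0, f X ⊆ C := fun C => Iff.rfl
  have hV0e : ∅ ∉ V0 := by
    rintro ⟨X, hX, hX'⟩
    obtain ⟨m, hm⟩ := (hUgood b X hX b (S b).ho).nonempty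
    exact hX' hm
  have hV0dec : ∀ C : Set ℕ, C ∈ V0 ∨ Cᶜ ∈ V0 := by
    intro C
    obtain ⟨ξ, -, hξ⟩ := hE C b
    obtain ⟨p, -, -, ht⟩ := hT ξ
    rw [hξ] at ht
    obtain ⟨X, hX, h | h⟩ := ht.trace
    · exact Or.inl ⟨X, hSleZ ξ hX, (hfC X C).2 (fun n hn => hSle ξ b n (h n hn))⟩
    · exact Or.inr ⟨X, hSleZ ξ hX, (hfC X Cᶜ).2 (fun n hn => hSle ξ b n (h n (not_not.1 hn)))⟩
  let V : Ultrafilter ℕ := Ultrafilter.ofComplNotMemIff V0 (fun A =>
    ⟨fun h => (hV0dec A).resolve_right h, fun h h' => hV0e (by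
      have h3 := inter_mem h h'
      rwa [inter_compl_self] at h3)⟩)
  refine ⟨U, V, f, hf, fun C => Iff.rfl, ?_, ?_⟩
  · intro E0
    obtain ⟨ξ, -, hξ⟩ := hE E0 b
    obtain ⟨p, -, -, ht⟩ := hT ξ
    rw [hξ] at ht
    rcases ht.diag with ⟨Y, hY, hYG⟩ | ⟨C, X, hX, hXC, hr⟩
    · left
      refine ⟨Y, hSleZ ξ hY, ?_⟩
      rw [disjoint_left]
      intro n hn hn'
      exact hno b n Y hn' (hSle ξ b n (hYG n hn))
    · right
      refine ⟨C, ⟨X, hSleZ ξ hX, (hfC X C).2 (fun n hn => hSle ξ b n (hXC n hn))⟩, ?_⟩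
      intro Y hY hYC
      obtain ⟨η, hη⟩ := (hU0 Y).1 hY
      exact hr (S (max ξ η)) (hS _ _ (le_max_left _ _)) Y
        ((hS _ _ (le_max_right ξ η)).2.2 hη) hYC
  · intro D0 hD0
    obtain ⟨h, hh⟩ := exists_closure hc (fun ξ => (S ξ).L) (fun ξ => (S ξ).hL)
      (fun t Γ => {ν | (t : Set ℕ) ⊆ D0 ν ∧ ∀ v ∈ Γ, D0 ν ∈ u v.1 v.2})
    obtain ⟨δ, hbδ, hcl, hguess⟩ := hA' {x | x.2 ∈ D0 x.1} h b
    have hDδ : ∀ ν < δ, D δ ν = D0 ν := by
      intro ν hν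
      ext n
      exact hguess ν hν n
    obtain ⟨p, hp1, hpL, ht⟩ := hT δ
    obtain ⟨𝓑0, h𝓑0, hB1, hB2⟩ := p.exists_base
    obtain ⟨𝓑, h𝓑, hsub, hBu, hBi, hBc⟩ := exists_family 𝓑0 h𝓑0
    have hpLδ : p.L ⊆ (S δ).L := ht.le.1
    -- the trace condition
    let F' : Ω → ℕ → Filter ℕ := fun i n =>
      if i ∈ p.L then trFilter 𝓑 hBu hBi (u i n) else cofinite
    have hF1 : ∀ i ∈ p.L, ∀ n, F' i n = trFilter 𝓑 hBu hBi (u i n) := fun i hi n => by
      simp only [F', if_pos hi]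
    have hF2 : ∀ i ∉ p.L, ∀ n, F' i n = cofinite := fun i hi n => by
      simp only [F', if_neg hi]
    have hcof : ((cofinite : Filter ℕ)).IsCountablyGenerated := by
      rw [Nat.cofinite_eq_atTop]; infer_instance
    let p' : Cond Ω b :=
      { L := p.L
        F := F'
        Z := trFilter 𝓑 hBu hBi U0
        hL := p.hL
        ho := p.ho
        cF := fun i n => by
          by_cases hi : i ∈ p.L
          · rw [hF1 i hi]; exact trFilter_cg h𝓑 _ _ _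
          · rw [hF2 i hi]; exact hcof
        cZ := trFilter_cg h𝓑 _ _ _
        inf := fun i n B hB => by
          by_cases hi : i ∈ p.L
          · rw [hF1 i hi] at hB
            obtain ⟨B0, -, h2, h3⟩ := hB
            exact (huinf i n B0 h2).mono h3
          · rw [hF2 i hi] at hB; exact (Cond.init Ω b).inf i n B hB
        leF := fun i n => by
          by_cases hi : i ∈ p.L
          · rw [hF1 i hi]
            intro A hA
            exact ⟨A, hBc A hA, (hSle b i n) ((S b).leF i n hA), Subset.rfl⟩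
          · rw [hF2 i hi]
        leZ := by
          intro A hA
          exact ⟨A, hBc A hA, (hSleZ b) ((S b).leZ hA), Subset.rfl⟩
        off := hF2
        good := fun i hi n B hB j hj => by
          rw [hF1 i hi] at hB
          obtain ⟨B0, h1, h2, h3⟩ := hB
          refine (hugood δ i (hpLδ hi) n B0 h2 j (hpLδ hj)).mono ?_
          intro m hm
          simp only [mem_ofPred_eq]
          rw [hF1 j hj]
          exact ⟨B0, h1, hm, h3⟩
        goodZ := fun B hB j hj => by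
          obtain ⟨B0, h1, h2, h3⟩ := hB
          refine (hUgood δ B0 h2 j (hpLδ hj)).mono ?_
          intro m hm
          simp only [mem_ofPred_eq]
          rw [hF1 j hj]
          exact ⟨B0, h1, hm, h3⟩ }
    have hp' : p' ≤ p := by
      refine ⟨Subset.rfl, ?_, ?_⟩
      · intro i n
        by_cases hi : i ∈ p.L
        · intro A hA
          obtain ⟨B, hB, hBF, hBA⟩ := hB1 i hi n A hA
          change A ∈ F' i n
          rw [hF1 i hi]
          exact ⟨B, hsub hB, hSle δ i n (ht.le.2.1 i n hBF), hBA⟩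
        · rw [p.off i hi n]
          exact p'.leF i n
      · intro A hA
        obtain ⟨B, hB, hBF, hBA⟩ := hB2 A hA
        exact ⟨B, hsub hB, hSleZ δ (ht.le.2.2 hBF), hBA⟩
    -- the fusion
    obtain ⟨X, Γ, hΓL, hX1, hX2, hX3, hX4⟩ := fusion u U0 D0 p.L p.hL 𝓑 h𝓑 hD0
      (fun i _ n B hB => huinf i n B hB)
      (fun i hi n B hB j hj => hugood δ i (hpLδ hi) n B hB j (hpLδ hj))
      (fun B hB j hj => hUgood δ B hB j (hpLδ hj)) (Iio δ) (by
        intro t Γ hΓ hunc s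
        have hstep : ∀ Γ' : Finset (Ω × ℕ), (∀ v ∈ Γ', v.1 ∈ p.L) →
            ∃ ξ < δ, ∀ v ∈ Γ', v.1 ∈ (S ξ).L := by
          intro Γ'
          induction Γ' using Finset.induction_on with
          | empty => exact fun _ => ⟨b, hbδ, fun v hv => absurd hv (Finset.notMem_empty v)⟩
          | insert v Γ' _ ih =>
            intro hv
            obtain ⟨ξ, hξ, hξ'⟩ := ih (fun w hw => hv w (Finset.mem_insert_of_mem hw))
            have hvL := hv v (Finset.mem_insert_self _ _)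
            rw [hpL] at hvL
            obtain ⟨η, hη, hη'⟩ : ∃ η < δ, v.1 ∈ (S η).L := by
              rcases hvL with h | h
              · rw [mem_singleton_iff] at h
                exact ⟨b, hbδ, by rw [h]; exact (S b).ho⟩
              · obtain ⟨_, ⟨η, hη, rfl⟩, hc⟩ := mem_iUnion₂.1 h
                exact ⟨η, hη, hc⟩
            refine ⟨max ξ η, max_lt hξ hη, ?_⟩
            intro w hw
            rcases Finset.mem_insert.1 hw with rfl | hw
            · exact (hS _ _ (le_max_right _ _)).1 hη'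
            · exact (hS _ _ (le_max_left _ _)).1 (hξ' w hw)
        have hstep2 : ∀ s' : Finset Ω, ∃ ξ < δ, ∀ ν ∈ s', ν < δ → ν ≤ ξ := by
          intro s'
          induction s' using Finset.induction_on with
          | empty => exact ⟨b, hbδ, fun v hv => absurd hv (Finset.notMem_empty v)⟩
          | insert v s' _ ih =>
            obtain ⟨ξ, hξ, hξ'⟩ := ih
            by_cases hvδ : v < δ
            · refine ⟨max ξ v, max_lt hξ hvδ, ?_⟩
              intro ν hν hνδ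
              rcases Finset.mem_insert.1 hν with rfl | hν
              · exact le_max_right _ _
              · exact (hξ' ν hν hνδ).trans (le_max_left _ _)
            · refine ⟨ξ, hξ, ?_⟩
              intro ν hν hνδ
              rcases Finset.mem_insert.1 hν with rfl | hν
              · exact absurd hνδ hvδ
              · exact hξ' ν hν hνδ
        obtain ⟨ξ1, hξ1, hξ1'⟩ := hstep Γ hΓ
        obtain ⟨ξ2, hξ2, hξ2'⟩ := hstep2 s
        obtain ⟨ν, hν, hν1, hν2⟩ := hh (max ξ1 ξ2) t Γ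
          (fun v hv => (hS _ _ (le_max_left _ _)).1 (hξ1' v hv)) hunc
        have hνδ : ν < δ := hν2.trans (hcl _ (max_lt hξ1 hξ2))
        refine ⟨ν, hνδ, ?_, hν.1, hν.2⟩
        intro hνs
        exact absurd (hξ2' ν hνs hνδ) (not_le.2 (lt_of_le_of_lt (le_max_right _ _) hν1)))
    obtain ⟨q, hq, X', hX', hX'q, -⟩ := p'.exists_refine X Γ
      (fun i hi n hn B hB => by
        change B ∈ F' i n at hB
        rw [hF1 i hi] at hB
        obtain ⟨B0, h1, h2, h3⟩ := hB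
        exact (hX2 (i, n) hn B0 h1 h2).mono (inter_subset_inter_left _ h3))
      (fun i hi n hn B hB j hj => by
        change B ∈ F' i n at hB
        rw [hF1 i hi] at hB
        obtain ⟨B0, h1, h2, h3⟩ := hB
        refine (hX3 (i, n) hn B0 h1 h2 j hj).mono ?_
        rintro m ⟨hm1, hm2⟩
        refine ⟨hm1, ?_⟩
        change B ∈ F' j m
        rw [hF1 j hj]
        exact ⟨B0, h1, hm2, h3⟩)
      (fun B hB j hj => by
        obtain ⟨B0, h1, h2, h3⟩ := hB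
        refine (hX4 B0 h1 h2 j hj).mono ?_
        rintro m ⟨hm1, hm2⟩
        refine ⟨hm1, ?_⟩
        change B ∈ F' j m
        rw [hF1 j hj]
        exact ⟨B0, h1, hm2, h3⟩)
    obtain ⟨X2, hX2Z, hX2inf⟩ := ht.low ⟨q, hq.trans hp', X', hX'q, by
      refine hX1.mono ?_
      rintro ν ⟨hν1, hν2⟩
      refine ⟨hν1, ?_⟩
      rw [hDδ ν hν1]
      exact hX'.trans hν2⟩
    refine ⟨X2, hSleZ δ hX2Z, hX2inf.mono ?_⟩
    rintro ν ⟨hν1, hν2⟩
    rw [hDδ ν hν1] at hν2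
    exact hν2

end Pool.Agent.Lib.MP_849e4d_lc
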