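import Pool.Agent.Lib.MP_849e4d_lc.Defs
import Pool.Agent.Lib.MP_849e4d_lc.Limit
import Pool.Agent.Lib.MP_849e4d_lc.Guess

/-!
The final theorem for MP_849e4d_lc.
-/

set_option autoImplicit false

namespace Pool.Agent.Lib.MP_849e4d_lc

open Set Filter

theorem belowTop (U : Ultrafilter ℕ) : BelowTop U := by
  classical
  refine ⟨fun s => ⋂ X ∈ s.filter (fun X => X ∈ U), X, ?_, ?_⟩
  · intro s
    exact (Filter.biInter_finset_mem _).2 (fun X hX => (Finset.mem_filter.1 hX).2)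
  · intro D hD X hX
    obtain ⟨t, ht, hXt⟩ := hD {X}
    refine ⟨_, ⟨t, ht, rfl⟩, ?_⟩
    refine iInter₂_subset X ?_
    rw [Finset.mem_filter]
    exact ⟨hXt (Finset.mem_singleton_self X), hX⟩

theorem not_aboveTop (U : Ultrafilter ℕ)
    (hU : ∀ D : Set ℕ → Set ℕ, (∀ j, D j ∈ U) → ∃ X ∈ U, {j | X ⊆ D j}.Infinite) :
    ¬ AboveTop U := by
  rintro ⟨h, hh⟩
  have h1 : ∀ x : Set ℕ, ∃ D ∈ U, ∀ X ∈ U, X ⊆ D → x ∈ h X := by
    intro x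
    by_contra hno
    push Not at hno
    obtain ⟨t, ⟨Y, hY, rfl⟩, ht⟩ := hh {X | X ∈ U ∧ x ∉ h X} (fun X hX => hX.1) (by
      intro X hX
      obtain ⟨Y, hY, hYX, hY'⟩ := hno X hX
      exact ⟨Y, ⟨hY, hY'⟩, hYX⟩) {x}
    exact hY.2 (ht (Finset.mem_singleton_self x))
  choose D hD hD' using h1
  obtain ⟨X, hX, hinf⟩ := hU D hD
  apply hinf
  refine (h X).finite_toSet.subset ?_
  intro x hx
  exact hD' x X hX hx

theorem finUnion_eq (g : Finset ℕ → Finset ℕ) (hg : ∀ s t : Finset ℕ, s ⊆ t → g s ⊆ g t)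
    (X : Set ℕ) : finUnion g X = {m | ∃ s : Finset ℕ, (s : Set ℕ) ⊆ X ∧ m ∈ g s} := by
  classical
  ext m
  simp only [finUnion, mem_iUnion, mem_ofPred_eq, exists_prop, Finset.mem_coe]
  constructor
  · rintro ⟨k, s, hs, hm⟩
    exact ⟨s, by rw [hs]; exact inter_subset_left, hm⟩
  · rintro ⟨s, hs, hm⟩
    obtain ⟨k, hk⟩ : ∃ k, ∀ x ∈ s, x < k := ⟨s.sup id + 1, fun x hx =>
      Nat.lt_succ_of_le (Finset.le_sup (f := id) hx)⟩
    have hfin : (X ∩ Iio k).Finite := (finite_Iio k).inter_of_right X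
    refine ⟨k, hfin.toFinset, by simp, hg s _ ?_ hm⟩
    intro x hx
    rw [Set.Finite.mem_toFinset]
    exact ⟨hs hx, hk x hx⟩

theorem finUnion_eq_Gop (g : Finset ℕ → Finset ℕ) (hg : ∀ s t : Finset ℕ, s ⊆ t → g s ⊆ g t) :
    ∃ E : Set ℕ, ∀ X : Set ℕ, finUnion g X = Gop E X := by
  refine ⟨{k | ∃ x : Finset ℕ × ℕ, Encodable.encode x = k ∧ x.2 ∈ g x.1}, ?_⟩
  intro X
  rw [finUnion_eq g hg]
  ext m
  simp only [Gop, mem_ofPred_eq]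
  constructor
  · rintro ⟨s, hs, hm⟩
    exact ⟨s, hs, (s, m), rfl, hm⟩
  · rintro ⟨s, hs, x, hx, hm⟩
    have : x = (s, m) := Encodable.encode_injective hx
    subst this
    exact ⟨s, hs, hm⟩

theorem exists_emb (J : Type) [Uncountable J] : ∃ e : Om → J, Function.Injective e := by
  have h1 : Cardinal.lift.{0} (Cardinal.mk Om) ≤ Cardinal.lift.{1} (Cardinal.mk J) := by
    rw [mk_om]
    have h2 : Cardinal.aleph 1 ≤ Cardinal.mk J := by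
      rw [← Cardinal.succ_aleph0, Order.succ_le_iff]
      exact Cardinal.aleph0_lt_mk
    have h3 := Cardinal.lift_le.{1}.2 h2
    rw [Cardinal.lift_aleph] at h3
    simp
  rw [Cardinal.lift_mk_le'] at h1
  obtain ⟨e⟩ := h1
  exact ⟨e, e.injective⟩

theorem uncountable_set_nat : Uncountable (Set ℕ) := by
  rw [← Cardinal.aleph0_lt_mk_iff, Cardinal.mk_set, ← Cardinal.mk_nat]
  exact Cardinal.cantor _

theorem diamond_counterexample (hd : Diamond) : ∃ U : Ultrafilter ℕ,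
    StrictlyBelowTop U ∧ ¬ FinGenReductions U ∧
    (∃ V : Ultrafilter ℕ, (∃ f : Set ℕ → Set ℕ, MonotoneCofinal U V f) ∧
      ∀ g : Finset ℕ → Finset ℕ, (∀ s t : Finset ℕ, s ⊆ t → g s ⊆ g t) →
        ¬ ∀ Z : Set ℕ, Z ∈ V ↔ ∃ X ∈ U, finUnion g X ⊆ Z) ∧
    ∀ (J : Type) [Uncountable J] (D : J → Set ℕ), (∀ j, D j ∈ U) →
      ∃ X ∈ U, {j | X ⊆ D j}.Infinite := by
  obtain ⟨A', hA'⟩ := hd.guess
  obtain ⟨U, V, f, hf, hV, hG, hlow⟩ := main_abstract countable_Iio_om A' hA'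
  have hlow' : ∀ (J : Type) [Uncountable J] (D : J → Set ℕ), (∀ j, D j ∈ U) →
      ∃ X ∈ U, {j | X ⊆ D j}.Infinite := by
    intro J _ D hD
    obtain ⟨e, he⟩ := exists_emb J
    obtain ⟨X, hX, hinf⟩ := hlow (fun ν => D (e ν)) (fun ν => hD _)
    refine ⟨X, hX, (hinf.image he.injOn).mono ?_⟩
    rintro _ ⟨ν, hν, rfl⟩
    exact hν
  have hmc : MonotoneCofinal U V f := by
    refine ⟨fun X hX => (hV _).2 ⟨X, hX, Subset.rfl⟩, fun X _ Y _ h => hf h, ?_⟩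
    intro C hC1 hC2 Z hZ
    obtain ⟨X, hX, hXZ⟩ := (hV Z).1 hZ
    obtain ⟨Y, hY, hYX⟩ := hC2 X hX
    exact ⟨f Y, ⟨Y, hY, rfl⟩, (hf hYX).trans hXZ⟩
  have hne : ∀ X ∈ U, (f X).Nonempty := by
    intro X hX
    have h1 : f X ∈ V := (hV _).2 ⟨X, hX, Subset.rfl⟩
    exact V.nonempty_of_mem h1
  have hgen : ∀ g : Finset ℕ → Finset ℕ, (∀ s t : Finset ℕ, s ⊆ t → g s ⊆ g t) →
      ¬ ∀ Z : Set ℕ, Z ∈ V ↔ ∃ X ∈ U, finUnion g X ⊆ Z := by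
    intro g hg hgV
    obtain ⟨E, hE⟩ := finUnion_eq_Gop g hg
    rcases hG E with ⟨Y, hY, hdis⟩ | ⟨C, hC, hno⟩
    · have h1 : f Y ∈ V := (hV _).2 ⟨Y, hY, Subset.rfl⟩
      have h2 : finUnion g Y ∈ V := (hgV _).2 ⟨Y, hY, Subset.rfl⟩
      obtain ⟨n, hn⟩ := V.nonempty_of_mem (inter_mem h1 h2)
      rw [hE] at hn
      exact disjoint_left.1 hdis hn.2 hn.1
    · obtain ⟨X, hX, hXC⟩ := (hgV C).1 hC
      rw [hE] at hXC
      exact hno X hX hXC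
  refine ⟨U, ⟨belowTop U, not_aboveTop U (fun D hD =>
    have := uncountable_set_nat
    hlow' (Set ℕ) D hD)⟩, ?_,
    ⟨V, ⟨f, hmc⟩, hgen⟩, hlow'⟩
  intro hfg
  obtain ⟨C, hC1, hC2, g, hg, hgC⟩ := hfg V f hmc
  apply hgen g hg
  obtain ⟨E, hE⟩ := finUnion_eq_Gop g hg
  have hmono : ∀ X Y : Set ℕ, X ⊆ Y → finUnion g X ⊆ finUnion g Y := by
    intro X Y h
    rw [hE, hE]
    exact Gop_mono E h
  intro Z
  constructor
  · intro hZ
    obtain ⟨X, hX, hXZ⟩ := (hV Z).1 hZ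
    obtain ⟨Y, hY, hYX⟩ := hC2 X hX
    refine ⟨Y, hC1 Y hY, ?_⟩
    rw [← hgC Y hY]
    exact (hf hYX).trans hXZ
  · rintro ⟨X, hX, hXZ⟩
    obtain ⟨Y, hY, hYX⟩ := hC2 X hX
    refine V.mem_of_superset ((hV (f Y)).2 ⟨Y, hC1 Y hY, Subset.rfl⟩) ?_
    rw [hgC Y hY]
    exact (hmono _ _ hYX).trans hXZ

end Pool.Agent.Lib.MP_849e4d_lc
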