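import Pool.Agent.Lib.MP_849e4d_lc.Ultra

/-!
# Reduction of the consistency statement to a statement about conditions
-/

set_option autoImplicit false

namespace Pool.Agent.SC

open Pool.Agent.MPa4e7db Pool.Agent.StarRoth.BV Pool.Agent.Lib.SymModel

variable {P : Type} [Preorder P]

theorem f_and4 {a b c d : RO P} {p : P} (h : p ∈ a ⊓ b ⊓ c ⊓ d) :
    ((p ∈ a ∧ p ∈ b) ∧ p ∈ c) ∧ p ∈ d := by
  simpa only [f_and] using h

theorem f_and5 {a b c d e : RO P} {p : P} (h : p ∈ a ⊓ b ⊓ c ⊓ d ⊓ e) :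
    (((p ∈ a ∧ p ∈ b) ∧ p ∈ c) ∧ p ∈ d) ∧ p ∈ e := by
  simpa only [f_and] using h

/-! ### Every ultrafilter is Tukey below the finite sets of reals -/

/-- `p` decides the membership in `u` of all elements of `s`, and `t` is the intersection of those
that are in `u`. -/
def InterAt (u : Set ℕ → RO P) (s : Finset (Set ℕ)) (t : Set ℕ) (p : P) : Prop :=
  (∀ X ∈ s, p ∈ u X ∨ p ∈ (u X)ᶜ) ∧ t = {n | ∀ X ∈ s, p ∈ u X → n ∈ X}

theorem InterAt.down {u : Set ℕ → RO P} {s : Finset (Set ℕ)} {t : Set ℕ} {p q : P}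
    (h : InterAt u s t p) (hq : q ≤ p) : InterAt u s t q := by
  obtain ⟨h1, h2⟩ := h
  refine ⟨fun X hX => (h1 X hX).imp (fun h => f_down h hq) (fun h => f_down h hq), ?_⟩
  rw [h2]
  ext n
  refine forall₂_congr fun X hX => ⟨fun h3 h4 => ?_, fun h3 h4 => h3 (f_down h4 hq)⟩
  rcases h1 X hX with h5 | h5
  · exact h3 h5
  · exact absurd h4 (RO.mem_compl.1 h5 q hq)

/-- The value of: `t` is the intersection of the elements of `s` that are in `u`. -/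
def interR (u : Set ℕ → RO P) (s : Finset (Set ℕ)) (t : Set ℕ) : RO P :=
  RO.mkOf {p | InterAt u s t p} (fun _ hp _ hq => hp.down hq)

theorem exists_interAt (u : Set ℕ → RO P) (s : Finset (Set ℕ)) (p : P) :
    ∃ q ≤ p, ∃ t, InterAt u s t q := by
  classical
  have h : ∀ s : Finset (Set ℕ), ∃ q ≤ p, ∀ X ∈ s, q ∈ u X ∨ q ∈ (u X)ᶜ := by
    intro s
    induction s using Finset.induction_on with
    | empty => exact ⟨p, le_rfl, fun X hX => absurd hX (Finset.notMem_empty X)⟩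
    | insert X s _ ih =>
      obtain ⟨q, hq, h1⟩ := ih
      obtain ⟨r, hr, h2⟩ := decide (u X) q
      refine ⟨r, hr.trans hq, fun Y hY => ?_⟩
      rcases Finset.mem_insert.1 hY with rfl | hY
      · exact h2
      · exact (h1 Y hY).imp (fun h => f_down h hr) (fun h => f_down h hr)
  obtain ⟨q, hq, h1⟩ := h s
  exact ⟨q, hq, _, h1, rfl⟩

theorem interAt_mem {u : Set ℕ → RO P} (hu : UltraForced u) {s : Finset (Set ℕ)} {t : Set ℕ}
    {p : P} (h : InterAt u s t p) : p ∈ u t := by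
  classical
  obtain ⟨-, rfl⟩ := h
  induction s using Finset.induction_on with
  | empty => exact hu.mono p _ _ (fun n _ X hX => absurd hX (Finset.notMem_empty X)) (hu.univ p)
  | insert X s _ ih =>
    by_cases hX : p ∈ u X
    · refine hu.mono p _ _ ?_ (hu.inter p _ _ ih hX)
      rintro n ⟨h1, h2⟩ Y hY hpY
      rcases Finset.mem_insert.1 hY with rfl | hY
      · exact h2
      · exact h1 Y hY hpY
    · refine hu.mono p _ _ ?_ ih
      intro n h1 Y hY hpY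
      rcases Finset.mem_insert.1 hY with rfl | hY
      · exact absurd hpY hX
      · exact h1 Y hY hpY

theorem exists_cofMapUD {u : Set ℕ → RO P} (hu : UltraForced u) (p : P) :
    p ∈ ⨆ g : BName (RO P), isCofMapUDB g (finsC P) (setC u) := by
  refine f_ex_intro (funC (finN P) (natSetN (RO P)) (interR u)) ?_
  rw [isCofMapUDB]
  have hmem : ∀ q s t, q ∈ interR u s t → q ∈ u t := fun q s t h => f_dense fun r hr => by
    obtain ⟨r1, hr1, h1⟩ := RO.mem_mkOf.1 h r hr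
    exact ⟨r1, hr1, interAt_mem hu h1⟩
  refine f_and.2 ⟨f_funInto distinct_fin (fun q _ s t h => ⟨RO.mem_top q, hmem q s t h⟩)
    (fun q _ s _ => ?_) (fun q _ s t t' h1 h2 => ?_), ?_⟩
  · obtain ⟨r, hr, t, h⟩ := exists_interAt u s q
    exact ⟨r, hr, t, RO.mem_mkOf.2 fun r1 hr1 => ⟨r1, le_rfl, h.down hr1⟩⟩
  · obtain ⟨r, hr, h3⟩ := RO.mem_mkOf.1 h1 q le_rfl
    obtain ⟨r1, hr1, h4⟩ := RO.mem_mkOf.1 h2 r hr
    exact (h3.down hr1).2.trans h4.2.symm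
  · refine f_all.2 fun C => f_imp.2 fun q _ hC => ?_
    refine (f_all_fam (ext_iSup fun x => ext_iSup fun y =>
      ext_inf (ext_const _) (ext_subB_right y))).2 fun r hr X hX => f_ex.2 fun t ht => ?_
    rw [isCofUpB] at hC
    obtain ⟨hC1, hC2⟩ := f_and.1 hC
    have h1 : t ∈ memB (finN P {X}) (finsC P) := f_famC_intro _ (RO.mem_top t)
    obtain ⟨t1, ht1, y, hy⟩ := f_ex.1 (f_imp.1 (f_all.1 hC2 (finN P {X})) t (ht.trans hr) h1) t
      le_rfl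
    obtain ⟨h2, h3⟩ := f_and.1 hy
    obtain ⟨t2, ht2, s, -, h4⟩ := f_famC_elim
      (f_sub.1 hC1 t1 (ht1.trans (ht.trans hr)) y h2)
    have h5 : X ∈ s := by
      have h6 := f_fin_sub.1 (f_sub_congr (f_eqB_refl _ _) h4 (f_down h3 ht2))
      exact h6 (Finset.mem_singleton_self X)
    obtain ⟨t3, ht3, Y, h7⟩ := exists_interAt u s t2
    have h8 : t3 ≤ t := (ht3.trans ht2).trans ht1
    refine ⟨t3, h8, finN P s, f_ex_intro (natSetN (RO P) Y) ?_⟩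
    refine f_and.2 ⟨f_and.2 ⟨f_mem_left (f_down h4 ht3) (f_down h2 (ht3.trans ht2)),
      f_rel_intro _ _ (RO.mem_mkOf.2 fun r1 hr1 => ⟨r1, le_rfl, h7.down hr1⟩)⟩,
      f_natSet_sub.2 ?_⟩
    rw [h7.2]
    intro n hn
    exact hn X h5 (f_down hX (h8.trans ht))

/-! ### The ultrafilter is not Tukey above the finite sets of reals -/

theorem not_cofMapDU {u : Set ℕ → RO P} (hN : NotTop u) (p : P) :
    p ∈ (⨆ g : BName (RO P), isCofMapDUB g (setC u) (finsC P))ᶜ := by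
  classical
  refine RO.mem_compl.2 fun p1 _ h => ?_
  obtain ⟨q, -, g, hg⟩ := f_ex.1 h p1 le_rfl
  rw [isCofMapDUB] at hg
  obtain ⟨hg1, hg2⟩ := f_and.1 hg
  have htot : ∀ q' ≤ q, ∀ Z, q' ∈ u Z → ∃ t ≤ q', ∃ s,
      t ∈ relB g (natSetN (RO P) Z) (finN P s) := by
    intro q' hq' Z hZ
    obtain ⟨t, ht, s, -, h1⟩ := f_fun_total (c := natSetN (RO P)) (d := finN P) hg1
      (f_eqB_refl _ _) (f_eqB_refl _ _) hq' hZ
    exact ⟨t, ht, s, h1⟩
  have huniq : ∀ q' ≤ q, ∀ Z s s', q' ∈ relB g (natSetN (RO P) Z) (finN P s) →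
      q' ∈ relB g (natSetN (RO P) Z) (finN P s') → s = s' := by
    intro q' hq' Z s s' h1 h2
    rw [isFunIntoB] at hg1
    exact distinct_fin s s' q' (f_fun_unique (f_and.1 hg1).1 hq' h1 h2)
  let R : Set ℕ → P → Set ℕ → Prop := fun r q' X => ∀ t ≤ q', ∀ Z ⊆ X, ∀ s, t ∈ u Z →
    t ∈ relB g (natSetN (RO P) Z) (finN P s) → r ∈ s
  have key : ∀ r, ∀ q' ≤ q, ∃ q'' ≤ q', ∃ X, q'' ∈ u X ∧ R r q'' X := by
    intro r q' hq'
    by_contra hcon
    push Not at hcon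
    -- the cofinal set
    let C : Set ℕ → RO P := fun Z => RO.mkOf {t | t ∈ u Z ∧ ∃ s,
      t ∈ relB g (natSetN (RO P) Z) (finN P s) ∧ r ∉ s} (fun a ha b hb =>
        ⟨f_down ha.1 hb, ha.2.imp fun s hs => ⟨f_down hs.1 hb, hs.2⟩⟩)
    have hC : q' ∈ isCofDownB (setC C) (setC u) := by
      refine f_cofDown_intro (fun t _ X hX => f_dense fun t1 ht1 => ?_) (fun t ht X hX => ?_)
      · obtain ⟨t2, ht2, h1, -⟩ := RO.mem_mkOf.1 hX t1 ht1
        exact ⟨t2, ht2, h1⟩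
      · have h1 := hcon t ht X hX
        simp only [R] at h1
        push Not at h1
        obtain ⟨t1, ht1, Z, hZ, s, h2, h3, h4⟩ := h1
        exact ⟨t1, ht1, Z, hZ, RO.mem_mkOf.2 fun t2 ht2 =>
          ⟨t2, le_rfl, f_down h2 ht2, s, f_down h3 ht2, h4⟩⟩
    have h1 := f_imp.1 (f_all.1 hg2 (setC C)) q' hq' hC
    have h2 := f_imp.1 (f_all.1 h1 (finN P {r})) q' le_rfl (f_famC_intro _ (RO.mem_top q'))
    obtain ⟨t, ht, x, hx⟩ := f_ex.1 h2 q' le_rfl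
    obtain ⟨t1, ht1, y, hy⟩ := f_ex.1 hx t le_rfl
    obtain ⟨⟨h3, h4⟩, h5⟩ := (by simpa only [f_and] using hy : (_ ∧ _) ∧ _)
    obtain ⟨t2, ht2, Z, h6, h7⟩ := f_famC_elim h3
    obtain ⟨t3, ht3, h8, s, h9, h10⟩ := RO.mem_mkOf.1 h6 t2 le_rfl
    have h11 : t3 ∈ eqB y (finN P s) := by
      rw [isFunIntoB] at hg1
      have h12 : t3 ≤ q := (((ht3.trans ht2).trans ht1).trans ht).trans hq'
      exact f_fun_unique (f_and.1 hg1).1 h12
        (f_rel_congr (f_down h7 ht3) (f_eqB_refl _ _) (f_down h4 (ht3.trans ht2))) h9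
    have h12 := f_fin_sub.1 (f_sub_congr (f_eqB_refl _ _) h11 (f_down h5 (ht3.trans ht2)))
    exact h10 (h12 (Finset.mem_singleton_self r))
  obtain ⟨q1, hq1, Y, hY, hinf⟩ := hN q R
    (fun r q' q'' X h1 h2 t ht Z hZ s => h2 t (ht.trans h1) Z hZ s)
    (fun r q' X Y h1 h2 t ht Z hZ s => h2 t ht Z (hZ.trans h1) s) key
  obtain ⟨t, ht, s, hs⟩ := htot q1 hq1 Y hY
  refine hinf (s.finite_toSet.subset fun r hr => ?_)
  exact hr t ht Y subset_rfl s (f_down hY ht) hs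

/-! ### The map is not finitely generated -/

open Classical in
theorem inter_Iio (X : Set ℕ) (k : ℕ) :
    X ∩ Set.Iio k = (((Finset.range k).filter (· ∈ X) : Finset ℕ) : Set ℕ) := by
  ext n
  simp [and_comm]

theorem not_finGen {u : Set ℕ → RO P} (hP : SigmaClosed P) {F : Set ℕ → Set ℕ → RO P}
    (hN : NotGen u F) (p : P) :
    p ∈ (isFinGenB (mapC F) (setC u) omegaN)ᶜ := by
  classical
  refine RO.mem_compl.2 fun p1 _ h => ?_
  rw [isFinGenB] at h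
  obtain ⟨p2, -, C, h⟩ := f_ex.1 h p1 le_rfl
  obtain ⟨p3, -, S, h⟩ := f_ex.1 h p2 le_rfl
  obtain ⟨p4, -, hh, h⟩ := f_ex.1 h p3 le_rfl
  obtain ⟨⟨⟨⟨hC, hS⟩, hf⟩, hm⟩, hgen⟩ := f_and5 h
  rw [isBddSetsB] at hS
  have hS1 : ∀ q ≤ p4, ∀ s : Finset ℕ, q ∈ memB (natSetN (RO P) (s : Set ℕ)) S := by
    intro q hq s
    refine (f_iff.1 (f_all.1 hS _) q hq).2 (f_ex_intro (natN (s.sup id + 1)) (f_and.2 ⟨?_, ?_⟩))
    · rw [natN_mem_omegaN]
      exact RO.mem_top q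
    · have h1 : q ∈ eqB (natSetN (RO P) (Set.Iio (s.sup id + 1))) (natN (s.sup id + 1)) := by
        rw [eqB_symm, eqB_natN_natSetN]
        exact RO.mem_top q
      refine f_sub_congr (f_eqB_refl _ _) h1 (f_natSet_sub.2 fun n hn => ?_)
      exact Nat.lt_succ_of_le (Finset.le_sup (f := id) hn)
  have hS2 : ∀ q ≤ p4, ∀ x, q ∈ memB x S → ∃ r ≤ q, ∃ s : Finset ℕ,
      r ∈ eqB x (natSetN (RO P) (s : Set ℕ)) := by
    intro q hq x hx
    obtain ⟨r, hr, k, hk⟩ := f_ex.1 ((f_iff.1 (f_all.1 hS x) q hq).1 hx) q le_rfl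
    obtain ⟨h1, h2⟩ := f_and.1 hk
    obtain ⟨r1, hr1, n, h3⟩ := f_omega.1 h1 r le_rfl
    have h4 : r1 ∈ eqB k (natSetN (RO P) (Set.Iio n)) := by
      refine f_trans h3 ?_
      rw [eqB_natN_natSetN]
      exact RO.mem_top r1
    have h5 : r1 ∈ subB x (natSetN (RO P) (Set.Iio n)) :=
      f_sub_congr (f_eqB_refl _ _) h4 (f_down h2 hr1)
    have h6 : r1 ∈ subB x omegaN := by
      rw [f_sub] at h5 ⊢
      intro q' hq' z hz
      exact f_sub.1 (f_sub_omega (Set.Iio n) q') q' le_rfl z (h5 q' hq' z hz)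
    obtain ⟨r2, hr2, X, h7⟩ := sub_omega hP h6
    have h8 : X ⊆ Set.Iio n :=
      f_natSet_sub.1 (f_sub_congr h7 (f_eqB_refl _ _) (f_down h5 hr2))
    refine ⟨r2, (hr2.trans hr1).trans hr, ((Set.finite_Iio n).subset h8).toFinset, ?_⟩
    rwa [Set.Finite.coe_toFinset]
  -- the values of the name `hh`
  have hval : ∀ q ≤ p4, ∀ s : Finset ℕ, ∃ r ≤ q, ∃ t : Finset ℕ,
      r ∈ relB hh (natSetN (RO P) (s : Set ℕ)) (natSetN (RO P) (t : Set ℕ)) := by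
    intro q hq s
    rw [isFunIntoB, isFunOnB] at hf
    obtain ⟨⟨⟨-, h1⟩, -⟩, h3⟩ := f_and4 hf
    obtain ⟨r, hr, y, hy⟩ := f_ex.1 (f_imp.1 (f_all.1 h1 _) q hq (hS1 q hq s)) q le_rfl
    have h4 : r ∈ memB y S := f_imp.1 (f_all.1 (f_all.1 h3 _) y) r (hr.trans hq) hy
    obtain ⟨r1, hr1, t, h5⟩ := hS2 r (hr.trans hq) y h4
    exact ⟨r1, hr1.trans hr, t, f_rel_congr (f_eqB_refl _ _) h5 (f_down hy hr1)⟩
  obtain ⟨e⟩ : Nonempty (ℕ ≃ Finset ℕ) := ⟨(Denumerable.eqv (Finset ℕ)).symm⟩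
  obtain ⟨q, hq, x, hx⟩ := fusion hP (X := fun _ => Finset ℕ)
    (fun n q t => q ∈ relB hh (natSetN (RO P) (e n : Set ℕ)) (natSetN (RO P) (t : Set ℕ)))
    (fun n q q' t hq h => f_down h hq) p4 (fun n q hq => hval q hq (e n))
  let h0 : Finset ℕ → Finset ℕ := fun s => x (e.symm s)
  have h0v : ∀ s : Finset ℕ, q ∈ relB hh (natSetN (RO P) (s : Set ℕ)) (natSetN (RO P) (h0 s : Set ℕ)) := by
    intro s
    have h1 := hx (e.symm s)
    rwa [e.apply_symm_apply] at h1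
  have h0m : ∀ s t : Finset ℕ, s ⊆ t → h0 s ⊆ h0 t := by
    intro s t hst
    rw [isMonoB] at hm
    have h1 := f_imp.1 (f_all.1 (f_all.1 (f_all.1 (f_all.1 hm (natSetN (RO P) (s : Set ℕ)))
      (natSetN (RO P) (t : Set ℕ))) (natSetN (RO P) (h0 s : Set ℕ)))
      (natSetN (RO P) (h0 t : Set ℕ))) q hq
      (f_and.2 ⟨f_and.2 ⟨h0v s, h0v t⟩, f_natSet_sub.2 (Finset.coe_subset.2 hst)⟩)
    exact Finset.coe_subset.1 (f_natSet_sub.1 h1)
  obtain ⟨hC1, hC2⟩ := f_cofDown hC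
  obtain ⟨q1, hq1, X, Z, h1, h2, h3⟩ := hN q (fun X => memB (natSetN (RO P) X) C) h0 h0m
    (fun r hr X => hC1 r (hr.trans hq) X) (fun r hr X => hC2 r (hr.trans hq) X)
  refine h3 ?_
  have h4 := f_imp.1 (f_all.1 (f_all.1 hgen (natSetN (RO P) X)) (natSetN (RO P) Z)) q1
    (hq1.trans hq) (f_and.2 ⟨h1, f_rel_intro _ _ h2⟩)
  have hkn : ∀ (r : P) (k : ℕ), r ∈ eqB (natN k : BName (RO P)) (natSetN (RO P) (Set.Iio k)) := by
    intro r k
    rw [eqB_natN_natSetN]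
    exact RO.mem_top r
  ext n
  have h5 := f_iff.1 (f_all.1 h4 (natN n)) q1 le_rfl
  rw [f_nat_mem] at h5
  rw [h5]
  constructor
  · intro h6
    obtain ⟨r, hr, k, h6⟩ := f_ex.1 h6 q1 le_rfl
    obtain ⟨r1, hr1, s, h6⟩ := f_ex.1 h6 r le_rfl
    obtain ⟨r2, hr2, t, h6⟩ := f_ex.1 h6 r1 le_rfl
    obtain ⟨⟨⟨h7, h8⟩, h9⟩, h10⟩ := f_and4 h6
    obtain ⟨r3, hr3, k', h11⟩ := f_omega.1 h7 r2 le_rfl
    have h12 : r3 ∈ eqB s (natSetN (RO P) (X ∩ Set.Iio k')) :=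
      f_inter (f_down h8 hr3) (f_eqB_refl _ _) (f_trans h11 (hkn r3 k'))
    rw [inter_Iio] at h12
    have hr3q : r3 ≤ q1 := ((hr3.trans hr2).trans hr1).trans hr
    have h13 : r3 ∈ eqB t (natSetN (RO P) (h0 ((Finset.range k').filter (· ∈ X)) : Set ℕ)) := by
      rw [isFunIntoB] at hf
      exact f_fun_unique (f_and.1 hf).1 ((hr3q.trans hq1).trans hq)
        (f_rel_congr h12 (f_eqB_refl _ _) (f_down h9 hr3)) (f_down (h0v _) (hr3q.trans hq1))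
    exact ⟨k', f_nat_mem.1 (f_mem_right h13 (f_down h10 hr3))⟩
  · rintro ⟨k, hk⟩
    refine f_ex_intro (natN k) (f_ex_intro (natSetN (RO P) (X ∩ Set.Iio k))
      (f_ex_intro (natSetN (RO P) (h0 ((Finset.range k).filter (· ∈ X)) : Set ℕ)) ?_))
    refine f_and.2 ⟨f_and.2 ⟨f_and.2 ⟨?_, ?_⟩, ?_⟩, f_nat_mem.2 hk⟩
    · rw [natN_mem_omegaN]
      exact RO.mem_top q1
    · refine f_subst (φ := fun z => isInterB (natSetN (RO P) (X ∩ Set.Iio k))
        (natSetN (RO P) X) z) ?_ (f_symm (hkn q1 k)) f_inter_intro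
      exact ext_iInf fun t => ext_iffB (ext_const _) (ext_inf (ext_const _) (ext_memB_right t))
    · rw [inter_Iio]
      exact f_down (h0v _) hq1

/-! ### The reduction -/

theorem tukeyB_eq_top (hP : SigmaClosed P) {u v : Set ℕ → RO P} {F : Set ℕ → Set ℕ → RO P}
    (hu : UltraForced u) (hv : UltraForced v) (hF : MapForced u v F) (h1 : NotTop u)
    (h2 : NotGen u F) : tukeyB (RO P) = ⊤ := by
  refine top_iff.2 fun p => ?_
  rw [tukeyB]
  refine f_ex_intro omegaN (f_ex_intro (setC u) (f_ex_intro (setC v) (f_ex_intro (mapC F)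
    (f_ex_intro (finsC P) ?_))))
  refine f_and.2 ⟨f_and.2 ⟨f_and.2 ⟨f_and.2 ⟨f_and.2 ⟨f_and.2 ⟨f_and.2 ⟨f_and.2 ⟨?_,
    isUltra hP hu p⟩, isFinSets hP p⟩, exists_cofMapUD hu p⟩, not_cofMapDU h1 p⟩,
    isUltra hP hv p⟩, isMono hF p⟩, isCofMapDD hF p⟩, not_finGen hP h2 p⟩
  rw [isOmegaB_eq]
  exact f_eqB_refl p _

end Pool.Agent.SC
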