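import Pool.Agent.Lib.SymModel.RO
import Pool.Agent.Lib.MP_a1c723_lc.BV.Base

/-!
# Forcing with a sigma-closed preorder: names for reals are densely ground model reals

`RO P` is the complete Boolean algebra of the regular sets of conditions; a condition `p` forces
the Boolean value `b` if `p ∈ b`.
-/

set_option autoImplicit false

namespace Pool.Agent.SC

open Pool.Agent.MPa4e7db Pool.Agent.StarRoth.BV Pool.Agent.Lib.SymModel

variable {P : Type} [Preorder P]

/-- Every decreasing sequence of conditions has a lower bound. -/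
def SigmaClosed (P : Type) [Preorder P] : Prop :=
  ∀ f : ℕ → P, (∀ n, f (n + 1) ≤ f n) → ∃ q, ∀ n, q ≤ f n

/-! ### The forcing relation -/

theorem le_iff {b c : RO P} : b ≤ c ↔ ∀ p, p ∈ b → p ∈ c := Iff.rfl

theorem forces_of_le {b c : RO P} {p : P} (h : b ≤ c) (hp : p ∈ b) : p ∈ c := h _ hp

theorem prin_le {b : RO P} {p : P} (hp : p ∈ b) : RO.prin p ≤ b := RO.prin_le_iff.2 hp

theorem top_iff {b : RO P} : b = ⊤ ↔ ∀ p : P, p ∈ b :=
  ⟨fun h p => h ▸ RO.mem_top p, fun h => le_antisymm le_top fun p _ => h p⟩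

/-- A value is `⊤` if it is forced densely. -/
theorem top_of_dense {b : RO P} (h : ∀ p : P, ∃ q ≤ p, q ∈ b) : b = ⊤ :=
  top_iff.2 fun p => b.mem_of_dense fun q _ => h q

theorem mem_iffB {b c : RO P} {p : P} : p ∈ iffB b c ↔ ∀ q ≤ p, q ∈ b ↔ q ∈ c := by
  rw [iffB, RO.mem_inf, RO.mem_himp, RO.mem_himp]
  exact ⟨fun h q hq => ⟨h.1 q hq, h.2 q hq⟩, fun h => ⟨fun q hq => (h q hq).1, fun q hq => (h q hq).2⟩⟩

theorem notMem_of_bot {b : RO P} (h : b = ⊥) (p : P) : p ∉ b := h ▸ RO.notMem_bot p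

/-- Decide: every condition has an extension that forces `b` or its complement. -/
theorem decide (b : RO P) (p : P) : ∃ q ≤ p, q ∈ b ∨ q ∈ bᶜ := by
  by_cases h : ∃ q ≤ p, q ∈ b
  · obtain ⟨q, hq, h⟩ := h
    exact ⟨q, hq, Or.inl h⟩
  · push Not at h
    exact ⟨p, le_rfl, Or.inr (RO.mem_compl.2 h)⟩

/-- Countably many successive extensions in a sigma-closed preorder. -/
theorem fusion (hP : SigmaClosed P) {X : ℕ → Type} (D : (n : ℕ) → P → X n → Prop)
    (hmono : ∀ n p q x, q ≤ p → D n p x → D n q x) (p : P)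
    (h : ∀ n, ∀ q ≤ p, ∃ r ≤ q, ∃ x, D n r x) :
    ∃ q ≤ p, ∃ x : (n : ℕ) → X n, ∀ n, D n q (x n) := by
  choose g hg x hx using h
  let s : ℕ → {q : P // q ≤ p} := fun n =>
    Nat.rec ⟨p, le_rfl⟩ (fun n r => ⟨g n r.1 r.2, (hg n r.1 r.2).trans r.2⟩) n
  have hs : ∀ n, (s (n + 1)).1 = g n (s n).1 (s n).2 := fun n => rfl
  obtain ⟨q, hq⟩ := hP (fun n => (s n).1) fun n => by rw [hs]; exact hg n _ _
  exact ⟨q, hq 0, fun n => x n (s n).1 (s n).2, fun n => hmono n _ q _ (hq (n + 1))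
    (by rw [hs]; exact hx n _ _)⟩

/-- Countably many suprema are decided densely. -/
theorem choose_iSup (hP : SigmaClosed P) {X : Type} {b : ℕ → X → RO P} {p : P}
    (h : ∀ n, p ∈ ⨆ x, b n x) : ∃ q ≤ p, ∃ f : ℕ → X, ∀ n, q ∈ b n (f n) := by
  refine fusion hP (fun n q x => q ∈ b n x) (fun n p q x hq h => (b n x).down h hq) p ?_
  intro n q hq
  exact RO.mem_iSup.1 (h n) q hq

/-- Countably many values are decided densely. -/
theorem decide_all (hP : SigmaClosed P) (b : ℕ → RO P) (p : P) :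
    ∃ q ≤ p, ∀ n, q ∈ b n ∨ q ∈ (b n)ᶜ := by
  obtain ⟨q, hq, -, h⟩ := fusion hP (X := fun _ => Unit)
    (fun n q _ => q ∈ b n ∨ q ∈ (b n)ᶜ) (fun n p q _ hq h => h.imp
      (fun h => (b n).down h hq) (fun h => ((b n)ᶜ).down h hq)) p
    (fun n q _ => by
      obtain ⟨r, hr, h⟩ := decide (b n) q
      exact ⟨r, hr, (), h⟩)
  exact ⟨q, hq, h⟩

/-! ### Names -/

theorem f_eqB_refl (p : P) (x : BName (RO P)) : p ∈ eqB x x := by
  rw [eqB_refl]; exact RO.mem_top p

theorem f_symm {p : P} {x y : BName (RO P)} (h : p ∈ eqB x y) : p ∈ eqB y x := by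
  rwa [eqB_symm]

theorem f_trans {p : P} {x y z : BName (RO P)} (h1 : p ∈ eqB x y) (h2 : p ∈ eqB y z) :
    p ∈ eqB x z := RO.prin_le_iff.1 (eqB.trans (prin_le h1) (prin_le h2))

theorem f_mem_left {p : P} {x y z : BName (RO P)} (h1 : p ∈ eqB x y) (h2 : p ∈ memB x z) :
    p ∈ memB y z := RO.prin_le_iff.1 (memB_congr_left (prin_le h1) (prin_le h2))

theorem f_mem_right {p : P} {x y z : BName (RO P)} (h1 : p ∈ eqB x y) (h2 : p ∈ memB z x) :
    p ∈ memB z y := RO.prin_le_iff.1 (memB_congr_right (prin_le h1) (prin_le h2))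

/-- Substitution for an extensional function. -/
theorem f_subst {φ : BName (RO P) → RO P} (hφ : Ext φ) {p : P} {x y : BName (RO P)}
    (h1 : p ∈ eqB x y) (h2 : p ∈ φ x) : p ∈ φ y :=
  RO.prin_le_iff.1 (hφ (prin_le h1) (prin_le h2))

/-- Extensionality. -/
theorem f_ext {p : P} {x y : BName (RO P)} (h1 : ∀ q ≤ p, ∀ z, q ∈ memB z x → q ∈ memB z y)
    (h2 : ∀ q ≤ p, ∀ z, q ∈ memB z y → q ∈ memB z x) : p ∈ eqB x y := by
  refine RO.prin_le_iff.1 (eqB_ext ?_ ?_)
  · intro z b hb hz q hq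
    have hqp : q ∈ RO.prin p := hb q hq
    refine RO.mem_of_dense _ fun r hr => ?_
    obtain ⟨s, hs, hsp⟩ := hqp r hr
    exact ⟨s, hs, h1 s hsp z ((memB z x).down (hz q hq) (hs.trans hr))⟩
  · intro z b hb hz q hq
    have hqp : q ∈ RO.prin p := hb q hq
    refine RO.mem_of_dense _ fun r hr => ?_
    obtain ⟨s, hs, hsp⟩ := hqp r hr
    exact ⟨s, hs, h2 s hsp z ((memB z y).down (hz q hq) (hs.trans hr))⟩

/-- In a sigma-closed extension every subset of `ω` is densely a ground model set. -/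
theorem sub_omega (hP : SigmaClosed P) {p : P} {x : BName (RO P)} (h : p ∈ subB x omegaN) :
    ∃ q ≤ p, ∃ s : Set ℕ, q ∈ eqB x (natSetN (RO P) s) := by
  classical
  obtain ⟨q, hq, hd⟩ := decide_all hP (fun n => memB (natN n) x) p
  refine ⟨q, hq, {n | q ∈ memB (natN n) x}, f_ext ?_ ?_⟩
  · intro r hr z hz
    have h1 : r ∈ memB z (omegaN : BName (RO P)) := by
      have h2 := RO.mem_iInf.1 h z
      exact RO.mem_himp.1 h2 r (hr.trans hq) hz
    rw [memB_omegaN] at h1
    refine RO.mem_of_dense _ fun s hs => ?_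
    obtain ⟨t, ht, n, hn⟩ := RO.mem_iSup.1 h1 s hs
    refine ⟨t, ht, ?_⟩
    have h3 : t ∈ memB (natN n) x := f_mem_left hn ((memB z x).down hz (ht.trans hs))
    have h4 : q ∈ memB (natN n) x := by
      rcases hd n with h4 | h4
      · exact h4
      · exact absurd h3 (RO.mem_compl.1 h4 t ((ht.trans hs).trans hr))
    have h5 : t ∈ memB (natN n) (natSetN (RO P) {n | q ∈ memB (natN n) x}) := by
      rw [natN_mem_natSetN (show n ∈ {n | q ∈ memB (natN n) x} from h4)]
      exact RO.mem_top t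
    exact f_mem_left (f_symm hn) h5
  · intro r hr z hz
    rw [memB_natSetN] at hz
    refine RO.mem_of_dense _ fun s hs => ?_
    obtain ⟨t, ht, n, hn⟩ := RO.mem_iSup.1 hz s hs
    exact ⟨t, ht, f_mem_left (f_symm hn) ((memB (natN n.1) x).down n.2 ((ht.trans hs).trans hr))⟩

/-- The canonical name of the power set of `ω` in a sigma-closed extension. -/
noncomputable def powN (P : Type) [Preorder P] : BName (RO P) :=
  BName.mk (Set ℕ) (natSetN (RO P)) (fun _ => ⊤)

theorem memB_powN (x : BName (RO P)) :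
    memB x (powN P) = ⨆ s : Set ℕ, eqB x (natSetN (RO P) s) := by
  rw [powN, memB_mk]
  exact iSup_congr fun s => top_inf_eq _

theorem natSetN_sub_omegaN (s : Set ℕ) : subB (natSetN (RO P) s) omegaN = ⊤ := by
  rw [eq_top_iff]
  refine le_iInf fun z => himp_intro fun q _ hq => ?_
  rw [memB_natSetN] at hq
  refine iSup_elim hq fun n r _ hr => ?_
  rw [memB_omegaN]
  exact iSup_intro n.1 hr

theorem ext_subB_left {B : Type} [CompleteBooleanAlgebra B] (y : BName B) :
    Ext (fun x => subB x y) :=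
  ext_iInf fun z => ext_himp (ext_memB_right z) (ext_const _)

theorem memB_powN_eq (hP : SigmaClosed P) (x : BName (RO P)) :
    memB x (powN P) = subB x omegaN := by
  refine le_antisymm ?_ ?_
  · rw [memB_powN]
    refine iSup_le fun s => ?_
    have h1 : eqB x (natSetN (RO P) s) ≤ subB (natSetN (RO P) s) omegaN := by
      rw [natSetN_sub_omegaN]; exact le_top
    exact ext_subB_left _ (eqB.symm le_rfl) h1
  · intro p hp
    refine RO.mem_of_dense _ fun q hq => ?_
    obtain ⟨r, hr, s, hs⟩ := sub_omega hP ((subB x omegaN).down hp hq)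
    refine ⟨r, hr, ?_⟩
    rw [memB_powN, RO.mem_iSup]
    exact fun t ht => ⟨t, le_rfl, s, (eqB x _).down hs ht⟩

/-- A name of a set of ground model subsets of `ω`, given by its Boolean values. -/
noncomputable def familyN (u : Set ℕ → RO P) : BName (RO P) := BName.mk (Set ℕ) (natSetN (RO P)) u

theorem memB_familyN (u : Set ℕ → RO P) (x : BName (RO P)) :
    memB x (familyN u) = ⨆ s : Set ℕ, u s ⊓ eqB x (natSetN (RO P) s) := by
  rw [familyN, memB_mk]

theorem memB_natSetN_familyN (u : Set ℕ → RO P) (s : Set ℕ) :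
    memB (natSetN (RO P) s) (familyN u) = u s := by
  rw [memB_familyN]
  refine le_antisymm (iSup_le fun t => ?_) (le_iSup_of_le s (le_inf le_rfl (le_eqB_refl _ _)))
  by_cases h : s = t
  · subst h
    exact inf_le_left
  · rw [eqB_natSetN_ne h, inf_bot_eq]
    exact bot_le

/-- Every name of a set of subsets of `ω` is of the form `familyN u`. -/
theorem eq_familyN {p : P} {x : BName (RO P)}
    (h : p ∈ subB x (powN P)) :
    p ∈ eqB x (familyN fun s => memB (natSetN (RO P) s) x) := by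
  refine f_ext ?_ ?_
  · intro q hq z hz
    have h1 : q ∈ memB z (powN P) := RO.mem_himp.1 (RO.mem_iInf.1 h z) q hq hz
    rw [memB_powN] at h1
    rw [memB_familyN, RO.mem_iSup]
    intro r hr
    obtain ⟨t, ht, s, hs⟩ := RO.mem_iSup.1 h1 r hr
    exact ⟨t, ht, s, RO.mem_inf.2 ⟨f_mem_left hs ((memB z x).down hz (ht.trans hr)), hs⟩⟩
  · intro q hq z hz
    rw [memB_familyN] at hz
    refine RO.mem_of_dense _ fun r hr => ?_
    obtain ⟨t, ht, s, hs⟩ := RO.mem_iSup.1 hz r hr
    exact ⟨t, ht, f_mem_left (f_symm (RO.mem_inf.1 hs).2) (RO.mem_inf.1 hs).1⟩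

end Pool.Agent.SC
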