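import Pool.Agent.Lib.MP_849e4d_lc.Chk
import Pool.Agent.Lib.MP_849e4d_lc.Formula

/-!
# The ultrafilter, the monotone map and the finite sets of reals in the extension
-/

set_option autoImplicit false

namespace Pool.Agent.SC

open Pool.Agent.MPa4e7db Pool.Agent.StarRoth.BV Pool.Agent.Lib.SymModel

variable {P : Type} [Preorder P]

/-- The name of the set of the sets of natural numbers `X` with the values `u X`. -/
noncomputable def setC (u : Set ℕ → RO P) : BName (RO P) := famC (natSetN (RO P)) u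

/-! ### What is needed of the conditions -/

/-- `u` gives the values of an ultrafilter on `ω`. -/
structure UltraForced (u : Set ℕ → RO P) : Prop where
  univ : ∀ p, p ∈ u Set.univ
  empty : ∀ p, p ∉ u ∅
  mono : ∀ p X Y, X ⊆ Y → p ∈ u X → p ∈ u Y
  inter : ∀ p X Y, p ∈ u X → p ∈ u Y → p ∈ u (X ∩ Y)
  ultra : ∀ p X, ∃ q ≤ p, q ∈ u X ∨ q ∈ u Xᶜ

/-- `F` gives the values of a monotone cofinal map from the ultrafilter `u` to `v`. -/
structure MapForced (u v : Set ℕ → RO P) (F : Set ℕ → Set ℕ → RO P) : Prop where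
  dom : ∀ p X Y, p ∈ F X Y → p ∈ u X ∧ p ∈ v Y
  unique : ∀ p X Y Y', p ∈ F X Y → p ∈ F X Y' → Y = Y'
  total : ∀ p X, p ∈ u X → ∃ q ≤ p, ∃ Y, q ∈ F X Y
  mono : ∀ p X X' Y Y', X ⊆ X' → p ∈ F X Y → p ∈ F X' Y' → Y ⊆ Y'
  cof : ∀ p Y, p ∈ v Y → ∃ q ≤ p, ∃ X Z, q ∈ F X Z ∧ Z ⊆ Y

/-- The ultrafilter `u` is forced not to be Tukey above `[𝔠]^{<ω}`: `R r q X` stands for: `q`
forces that the real `r` belongs to `g(Z)` for all `Z ∈ u` with `Z ⊆ X`. -/
def NotTop (u : Set ℕ → RO P) : Prop :=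
  ∀ (p : P) (R : Set ℕ → P → Set ℕ → Prop),
    (∀ r q q' X, q' ≤ q → R r q X → R r q' X) → (∀ r q X Y, Y ⊆ X → R r q X → R r q Y) →
    (∀ r, ∀ q ≤ p, ∃ q' ≤ q, ∃ X, q' ∈ u X ∧ R r q' X) →
    ∃ q ≤ p, ∃ Y, q ∈ u Y ∧ {r | R r q Y}.Infinite

open Classical in
/-- The union of the `h (X ∩ k)`, `k < ω`. -/
noncomputable def genBy (h : Finset ℕ → Finset ℕ) (X : Set ℕ) : Set ℕ :=
  {n | ∃ k, n ∈ h ((Finset.range k).filter (· ∈ X))}

/-- The map with the values `F` is forced not to be finitely generated on a cofinal set. -/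
def NotGen (u : Set ℕ → RO P) (F : Set ℕ → Set ℕ → RO P) : Prop :=
  ∀ (p : P) (C : Set ℕ → RO P) (h : Finset ℕ → Finset ℕ), (∀ s t, s ⊆ t → h s ⊆ h t) →
    (∀ q ≤ p, ∀ X, q ∈ C X → q ∈ u X) →
    (∀ q ≤ p, ∀ X, q ∈ u X → ∃ r ≤ q, ∃ Y ⊆ X, r ∈ C Y) →
    ∃ q ≤ p, ∃ X Z, q ∈ C X ∧ q ∈ F X Z ∧ Z ≠ genBy h X

/-! ### The ultrafilter -/

theorem f_sub_congr {x x' y y' : BName (RO P)} {p : P} (hx : p ∈ eqB x x') (hy : p ∈ eqB y y')
    (h : p ∈ subB x y) : p ∈ subB x' y' :=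
  f_subst (ext_subB_right x') hy (f_subst (ext_subB_left y) hx h)

theorem f_sub_omega (s : Set ℕ) (p : P) : p ∈ subB (natSetN (RO P) s) omegaN := by
  rw [natSetN_sub_omegaN]
  exact RO.mem_top p

/-- A subset of a member is a canonical set densely. -/
theorem isUltra {u : Set ℕ → RO P} (hP : SigmaClosed P) (hu : UltraForced u) (p : P) :
    p ∈ isUltrafilterB (setC u) omegaN := by
  have hm : ∀ {q : P} {x : BName (RO P)}, q ∈ memB x (setC u) →
      ∃ r ≤ q, ∃ X, r ∈ u X ∧ r ∈ eqB x (natSetN (RO P) X) := fun h => f_famC_elim h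
  have hi : ∀ {q : P} {x : BName (RO P)} {X : Set ℕ}, q ∈ u X → q ∈ eqB x (natSetN (RO P) X) →
      q ∈ memB x (setC u) := fun h1 h2 => f_mem_left (f_symm h2) (f_famC_intro _ h1)
  rw [isUltrafilterB]
  refine f_and.2 ⟨f_and.2 ⟨f_and.2 ⟨f_and.2 ⟨f_and.2 ⟨?_, ?_⟩, ?_⟩, ?_⟩, ?_⟩, ?_⟩
  · refine (f_all_fam (ext_subB_left _)).2 fun q _ X _ => f_sub_omega X q
  · refine hi (hu.univ p) (f_symm ?_)
    rw [eqB_natSetN_univ]
    exact RO.mem_top p
  · refine f_all.2 fun e => f_imp.2 fun q _ he => RO.mem_compl.2 fun r hr h => ?_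
    obtain ⟨s, hs, X, h1, h2⟩ := hm h
    have h3 : X = ∅ := by
      by_contra hne
      obtain ⟨n, hn⟩ := Set.nonempty_iff_ne_empty.2 hne
      have h4 : s ∈ memB (natN n) e := f_mem_right (f_symm h2) (f_nat_mem.2 hn)
      rw [isEmptyB, f_all] at he
      exact RO.mem_compl.1 (he (natN n)) s (hs.trans hr) h4
    subst h3
    exact hu.empty s h1
  · refine f_all.2 fun x => f_all.2 fun y => f_imp.2 fun q _ h => f_dense fun r hr => ?_
    obtain ⟨⟨h1, h2⟩, h3⟩ := (by simpa only [f_and] using h : (_ ∧ _) ∧ _)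
    obtain ⟨s, hs, X, h4, h5⟩ := hm (f_down h1 hr)
    obtain ⟨t, ht, Y, h6⟩ := sub_omega hP (f_down h3 (hs.trans hr))
    have h7 := f_sub_congr (f_down h5 ht) h6 (f_down h2 ((ht.trans hs).trans hr))
    exact ⟨t, ht.trans hs, hi (hu.mono t X Y (f_natSet_sub.1 h7) (f_down h4 ht)) h6⟩
  · refine f_all.2 fun x => f_all.2 fun y => f_all.2 fun z => f_imp.2 fun q _ h =>
      f_dense fun r hr => ?_
    obtain ⟨⟨h1, h2⟩, h3⟩ := (by simpa only [f_and] using h : (_ ∧ _) ∧ _)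
    obtain ⟨s, hs, X, h4, h5⟩ := hm (f_down h1 hr)
    obtain ⟨t, ht, Y, h6, h7⟩ := hm (f_down h2 (hs.trans hr))
    exact ⟨t, ht.trans hs, hi (hu.inter t X Y (f_down h4 ht) h6)
      (f_inter (f_down h3 ((ht.trans hs).trans hr)) (f_down h5 ht) h7)⟩
  · refine f_all.2 fun x => f_all.2 fun y => f_imp.2 fun q _ h => f_dense fun r hr => ?_
    obtain ⟨h1, h2⟩ := f_and.1 h
    obtain ⟨s, hs, X, h3⟩ := sub_omega hP (f_down h1 hr)
    obtain ⟨t, ht, h4 | h4⟩ := hu.ultra s X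
    · exact ⟨t, ht.trans hs, f_or_left (hi h4 (f_down h3 ht))⟩
    · exact ⟨t, ht.trans hs, f_or_right (hi h4
        (f_diff (f_down h2 ((ht.trans hs).trans hr)) (f_down h3 ht)))⟩

/-! ### The monotone cofinal map -/

theorem f_cofDown {u : Set ℕ → RO P} {C : BName (RO P)} {p : P}
    (h : p ∈ isCofDownB C (setC u)) :
    (∀ q ≤ p, ∀ X, q ∈ memB (natSetN (RO P) X) C → q ∈ u X) ∧
      ∀ q ≤ p, ∀ X, q ∈ u X → ∃ r ≤ q, ∃ Y ⊆ X, r ∈ memB (natSetN (RO P) Y) C := by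
  rw [isCofDownB] at h
  obtain ⟨h1, h2⟩ := f_and.1 h
  have h3 : ∀ q ≤ p, ∀ X, q ∈ memB (natSetN (RO P) X) C → q ∈ u X := fun q hq X hX =>
    (f_famC_self distinct_set).1 (f_sub.1 h1 q hq _ hX)
  refine ⟨h3, fun q hq X hX => ?_⟩
  have h4 := (f_all_fam (ext_iSup fun y => ext_inf (ext_const _) (ext_subB_right y))).1 h2 q hq X hX
  obtain ⟨r, hr, y, hy⟩ := f_ex.1 h4 q le_rfl
  obtain ⟨h5, h6⟩ := f_and.1 hy
  obtain ⟨s, hs, Y, -, h8⟩ := f_famC_elim (f_sub.1 h1 r (hr.trans hq) y h5)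
  exact ⟨s, hs.trans hr, Y, f_natSet_sub.1 (f_sub_congr h8 (f_eqB_refl _ _) (f_down h6 hs)),
    f_mem_left h8 (f_down h5 hs)⟩

theorem f_cofDown_intro {u : Set ℕ → RO P} {C : Set ℕ → RO P} {p : P}
    (h1 : ∀ q ≤ p, ∀ X, q ∈ C X → q ∈ u X)
    (h2 : ∀ q ≤ p, ∀ X, q ∈ u X → ∃ r ≤ q, ∃ Y ⊆ X, r ∈ C Y) :
    p ∈ isCofDownB (setC C) (setC u) := by
  rw [isCofDownB]
  refine f_and.2 ⟨f_sub.2 fun q hq z hz => ?_, ?_⟩
  · refine f_famC.2 fun r hr => ?_
    obtain ⟨s, hs, X, h3, h4⟩ := f_famC_elim (f_down hz hr)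
    exact ⟨s, hs, X, h1 s ((hs.trans hr).trans hq) X h3, h4⟩
  · refine (f_all_fam (ext_iSup fun y => ext_inf (ext_const _) (ext_subB_right y))).2
      fun q hq X hX => f_ex.2 fun r hr => ?_
    obtain ⟨s, hs, Y, hY, h3⟩ := h2 r (hr.trans hq) X (f_down hX hr)
    exact ⟨s, hs, natSetN (RO P) Y, f_and.2 ⟨f_famC_intro _ h3, f_natSet_sub.2 hY⟩⟩

/-- The name of the map with the values `F`. -/
noncomputable def mapC (F : Set ℕ → Set ℕ → RO P) : BName (RO P) :=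
  funC (natSetN (RO P)) (natSetN (RO P)) F

theorem isMono {u v : Set ℕ → RO P} {F : Set ℕ → Set ℕ → RO P} (hF : MapForced u v F) (p : P) :
    p ∈ isMonoB (mapC F) := by
  rw [isMonoB]
  refine f_all.2 fun x => f_all.2 fun x' => f_all.2 fun y => f_all.2 fun y' => f_imp.2
    fun q _ h => f_dense fun r hr => ?_
  obtain ⟨⟨h1, h2⟩, h3⟩ := (by simpa only [f_and] using h : (_ ∧ _) ∧ _)
  obtain ⟨s, hs, X, Y, h4, h5, h6⟩ := f_rel_funC.1 h1 r hr
  obtain ⟨t, ht, X', Y', h7, h8, h9⟩ := f_rel_funC.1 h2 s (hs.trans hr)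
  have h10 : X ⊆ X' := f_natSet_sub.1 (f_sub_congr (f_down h5 ht) h8
    (f_down h3 ((ht.trans hs).trans hr)))
  exact ⟨t, ht.trans hs, f_sub_congr (f_symm (f_down h6 ht)) (f_symm h9)
    (f_natSet_sub.2 (hF.mono t X X' Y Y' h10 (f_down h4 ht) h7))⟩

theorem isCofMapDD {u v : Set ℕ → RO P} {F : Set ℕ → Set ℕ → RO P} (hF : MapForced u v F)
    (p : P) : p ∈ isCofMapDDB (mapC F) (setC u) (setC v) := by
  rw [isCofMapDDB]
  refine f_and.2 ⟨f_funInto distinct_set (fun q _ X Y => hF.dom q X Y)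
    (fun q _ X => hF.total q X) (fun q _ X Y Y' => hF.unique q X Y Y'), ?_⟩
  refine f_all.2 fun C => f_imp.2 fun q _ hC => ?_
  refine (f_all_fam (ext_iSup fun x => ext_iSup fun y =>
    ext_inf (ext_const _) (ext_subB_right y))).2 fun r hr Y hY => f_ex.2 fun s hs => ?_
  obtain ⟨-, hc⟩ := f_cofDown hC
  obtain ⟨t, ht, X, Z, h1, h2⟩ := hF.cof s Y (f_down hY hs)
  obtain ⟨t1, ht1, X', hX', h3⟩ := hc t ((ht.trans hs).trans hr) X (hF.dom t X Z h1).1
  have h4 : t1 ∈ u X' := (f_cofDown hC).1 t1 (((ht1.trans ht).trans hs).trans hr) X' h3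
  obtain ⟨t2, ht2, Z', h5⟩ := hF.total t1 X' h4
  refine ⟨t2, (ht2.trans ht1).trans ht, natSetN (RO P) X', f_ex_intro (natSetN (RO P) Z') ?_⟩
  refine f_and.2 ⟨f_and.2 ⟨f_down h3 ht2, f_rel_intro _ _ h5⟩, f_natSet_sub.2 ?_⟩
  exact (hF.mono t2 X' X Z' Z hX' h5 (f_down h1 (ht2.trans ht1))).trans h2

/-! ### The finite sets of reals -/

/-- The canonical name of a finite set of reals. -/
noncomputable def finN (P : Type) [Preorder P] (s : Finset (Set ℕ)) : BName (RO P) :=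
  BName.mk s (fun x => natSetN (RO P) x.1) (fun _ => ⊤)

theorem f_finN {x : BName (RO P)} {s : Finset (Set ℕ)} {p : P} :
    p ∈ memB x (finN P s) ↔ ∀ q ≤ p, ∃ r ≤ q, ∃ X ∈ s, r ∈ eqB x (natSetN (RO P) X) := by
  rw [finN, memB_mk, f_ex]
  simp only [f_and, RO.mem_top, true_and, Subtype.exists, exists_prop]

theorem f_set_mem_fin {X : Set ℕ} {s : Finset (Set ℕ)} {p : P} :
    p ∈ memB (natSetN (RO P) X) (finN P s) ↔ X ∈ s := by
  rw [f_finN]
  constructor
  · intro h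
    obtain ⟨r, _, Y, hY, h1⟩ := h p le_rfl
    rwa [distinct_set X Y r h1]
  · intro h q _
    exact ⟨q, le_rfl, X, h, f_eqB_refl _ _⟩

theorem f_fin_sub {s t : Finset (Set ℕ)} {p : P} :
    p ∈ subB (finN P s) (finN P t) ↔ s ⊆ t := by
  rw [f_sub]
  constructor
  · intro h X hX
    exact f_set_mem_fin.1 (h p le_rfl _ (f_set_mem_fin.2 hX))
  · intro h q _ z hz
    rw [f_finN] at hz ⊢
    intro r hr
    obtain ⟨s', hs', X, hX, h1⟩ := hz r hr
    exact ⟨s', hs', X, h hX, h1⟩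

theorem distinct_fin : Distinct (finN P) := by
  intro s t p h
  refine Finset.Subset.antisymm ?_ ?_
  · exact f_fin_sub.1 (f_subst (ext_subB_right (finN P s)) h (f_fin_sub.2 (Finset.Subset.refl s)))
  · exact f_fin_sub.1 (f_subst (ext_subB_left (finN P s)) h (f_fin_sub.2 (Finset.Subset.refl s)))

/-- The name of the set of all finite sets of reals. -/
noncomputable def finsC (P : Type) [Preorder P] : BName (RO P) := famC (finN P) (fun _ => ⊤)

/-- A name of a subset of `P(ω)` that injects into a natural number is densely a canonical name of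
a finite set. -/
theorem fin_elim (hP : SigmaClosed P) {p : P} {z n g : BName (RO P)}
    (h1 : p ∈ ⨅ x : BName (RO P), memB x z ⇨ subB x omegaN) (h2 : p ∈ memB n omegaN)
    (h3 : p ∈ isInjIntoB g z n) : ∃ q ≤ p, ∃ s : Finset (Set ℕ), q ∈ eqB z (finN P s) := by
  classical
  obtain ⟨p0, hp0, N, hN⟩ := f_omega.1 h2 p le_rfl
  rw [isInjIntoB] at h3
  obtain ⟨⟨h4, h5⟩, h6⟩ := (by simpa only [f_and] using h3 : (_ ∧ _) ∧ _)
  -- decide the preimages
  obtain ⟨q, hq, x, hx⟩ := fusion hP (X := fun _ => Option (Set ℕ))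
    (fun i q o => match o with
      | none => q ∈ (⨆ X : Set ℕ, memB (natSetN (RO P) X) z ⊓ relB g (natSetN (RO P) X) (natN i))ᶜ
      | some X => q ∈ memB (natSetN (RO P) X) z ⊓ relB g (natSetN (RO P) X) (natN i))
    (fun i q q' o hq h => by
      cases o with
      | none => exact f_down h hq
      | some X => exact f_down h hq) p0
    (fun i q hq => by
      obtain ⟨r, hr, h | h⟩ := decide
        (⨆ X : Set ℕ, memB (natSetN (RO P) X) z ⊓ relB g (natSetN (RO P) X) (natN i)) q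
      · obtain ⟨s, hs, X, hX⟩ := f_ex.1 h r le_rfl
        exact ⟨s, hs.trans hr, some X, hX⟩
      · exact ⟨r, hr, none, h⟩)
  let s : Finset (Set ℕ) := (Finset.range N).biUnion fun i => (x i).toFinset
  have hqp : q ≤ p := hq.trans hp0
  refine ⟨q, hqp, s, f_ext ?_ ?_⟩
  · intro r hr y hy
    rw [f_finN]
    intro t ht
    obtain ⟨t1, ht1, X, hX⟩ := sub_omega hP (f_imp.1 (f_all.1 h1 y) t
      ((ht.trans hr).trans hqp) (f_down hy ht))
    have h7 : t1 ∈ memB (natSetN (RO P) X) z := f_mem_left hX (f_down hy (ht1.trans ht))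
    have ht1p : t1 ≤ p := ((ht1.trans ht).trans hr).trans hqp
    -- the value
    have h8 : t1 ∈ ⨆ v : BName (RO P), relB g (natSetN (RO P) X) v := by
      rw [isFunOnB] at h4
      exact f_imp.1 (f_all.1 (f_and.1 (f_and.1 h4).1).2 _) t1 ht1p h7
    obtain ⟨t2, ht2, v, hv⟩ := f_ex.1 h8 t1 le_rfl
    have h9 : t2 ∈ memB v n := f_imp.1 (f_all.1 (f_all.1 h5 _) v) t2 (ht2.trans ht1p) hv
    have h10 : t2 ∈ memB v (natN N) :=
      f_mem_right (f_down hN (((ht2.trans ht1).trans ht).trans (hr.trans hq))) h9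
    rw [memB_natN, f_ex] at h10
    obtain ⟨t3, ht3, i, hi⟩ := h10 t2 le_rfl
    have h11 : t3 ∈ relB g (natSetN (RO P) X) (natN (i : ℕ)) :=
      f_rel_congr (f_eqB_refl _ _) hi (f_down hv ht3)
    have h12 := hx i
    have ht3q : t3 ≤ q := ((ht3.trans ht2).trans ht1).trans (ht.trans hr)
    cases hxi : x i with
    | none =>
      rw [hxi] at h12
      exact absurd (f_ex_intro X (f_and.2 ⟨f_down h7 (ht3.trans ht2), h11⟩))
        (RO.mem_compl.1 h12 t3 ht3q)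
    | some Y =>
      rw [hxi] at h12
      obtain ⟨-, h13⟩ := f_and.1 (f_down h12 ht3q)
      have h14 : t3 ∈ eqB (natSetN (RO P) X) (natSetN (RO P) Y) :=
        f_imp.1 (f_all.1 (f_all.1 (f_all.1 h6 _) _) _) t3 ((ht3.trans ht2).trans ht1p)
          (f_and.2 ⟨h11, h13⟩)
      obtain rfl := distinct_set X Y t3 h14
      refine ⟨t1, ht1, X, ?_, hX⟩
      simp only [s, Finset.mem_biUnion, Finset.mem_range]
      exact ⟨i, i.2, by rw [hxi]; simp⟩
  · intro r hr y hy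
    rw [f_finN] at hy
    refine f_dense fun t ht => ?_
    obtain ⟨t1, ht1, X, hX, h7⟩ := hy t ht
    simp only [s, Finset.mem_biUnion, Finset.mem_range] at hX
    obtain ⟨i, -, hi⟩ := hX
    have h8 : x i = some X := by simpa using hi
    have h9 := hx i
    rw [h8] at h9
    exact ⟨t1, ht1, f_mem_left (f_symm h7)
      (f_down (f_and.1 h9).1 ((ht1.trans ht).trans hr))⟩

open Classical in
/-- A proposition as a Boolean value. -/
noncomputable def bvR (P : Type) [Preorder P] (Q : Prop) : RO P := if Q then ⊤ else ⊥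

theorem f_bv {Q : Prop} {p : P} : p ∈ bvR P Q ↔ Q := by
  unfold bvR
  split_ifs with h
  · exact ⟨fun _ => h, fun _ => RO.mem_top p⟩
  · exact ⟨fun h1 => absurd h1 (RO.notMem_bot p), fun h1 => absurd h1 h⟩

/-- Every canonical finite set injects into a natural number. -/
theorem fin_inj (s : Finset (Set ℕ)) (p : P) :
    p ∈ ⨆ n : BName (RO P), memB n omegaN ⊓ cardLeB (finN P s) n := by
  classical
  obtain ⟨e⟩ : Nonempty (s ≃ Fin s.card) := ⟨s.equivFin⟩
  have hc : Distinct (fun x : s => natSetN (RO P) x.1) := fun x y q h =>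
    Subtype.ext (distinct_set x.1 y.1 q h)
  let G : s → ℕ → RO P := fun x i => bvR P ((e x : ℕ) = i)
  have h1 := f_funInto (c := fun x : s => natSetN (RO P) x.1) (d := fun n => natN n) hc
    (D := fun _ => ⊤) (E := fun _ => ⊤) (G := G) (p := p)
    (fun q _ i j _ => ⟨RO.mem_top _, RO.mem_top _⟩)
    (fun q _ i _ => ⟨q, le_rfl, e i, f_bv.2 rfl⟩)
    (fun q _ i j j' h1 h2 => (f_bv.1 h1).symm.trans (f_bv.1 h2))
  rw [isFunIntoB] at h1
  refine f_ex_intro (natN s.card) (f_and.2 ⟨?_, ?_⟩)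
  · rw [natN_mem_omegaN]
    exact RO.mem_top p
  · rw [cardLeB]
    refine f_ex_intro (funC (fun x : s => natSetN (RO P) x.1) (fun n => natN n) G) ?_
    rw [isInjIntoB]
    refine f_and.2 ⟨f_and.2 ⟨(f_and.1 h1).1, ?_⟩, ?_⟩
    · refine f_all.2 fun x => f_all.2 fun y => f_imp.2 fun q _ h => f_dense fun r hr => ?_
      obtain ⟨t, ht, i, j, h2, -, h4⟩ := f_rel_funC.1 h r hr
      refine ⟨t, ht, f_mem_left (f_symm h4) ?_⟩
      rw [← f_bv.1 h2, memB_natN_lt (e i).2]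
      exact RO.mem_top t
    · refine f_all.2 fun x => f_all.2 fun x' => f_all.2 fun y => f_imp.2 fun q _ h =>
        f_dense fun r hr => ?_
      obtain ⟨h2, h3⟩ := f_and.1 h
      obtain ⟨t, ht, i, j, h4, h5, h6⟩ := f_rel_funC.1 h2 r hr
      obtain ⟨t1, ht1, i', j', h7, h8, h9⟩ := f_rel_funC.1 h3 t (ht.trans hr)
      have h10 : j = j' := distinct_nat j j' t1 (f_trans (f_symm (f_down h6 ht1)) h9)
      have h11 : i = i' := e.injective (Fin.ext
        ((f_bv.1 h4).trans (h10.trans (f_bv.1 h7).symm)))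
      subst h11
      exact ⟨t1, ht1.trans ht, f_trans (f_down h5 ht1) (f_symm h8)⟩

theorem isFinSets (hP : SigmaClosed P) (p : P) : p ∈ isFinSetsB (finsC P) omegaN := by
  rw [isFinSetsB]
  refine f_all.2 fun z => f_iff.2 fun q _ => ⟨fun h => ?_, fun h => ?_⟩
  · refine f_dense fun r hr => ?_
    obtain ⟨t, ht, s, -, h2⟩ := f_famC_elim (f_down h hr)
    refine ⟨t, ht, f_subst (x := finN P s) (φ := fun z => (⨅ x : BName (RO P), memB x z ⇨
      subB x omegaN) ⊓ ⨆ n : BName (RO P), memB n omegaN ⊓ cardLeB z n) ?_ (f_symm h2) ?_⟩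
    · refine ext_inf (ext_iInf fun x => ext_himp (ext_memB_right x) (ext_const _))
        (ext_iSup fun n => ext_inf (ext_const _) (ext_iSup fun g => ?_))
      exact ext_inf (ext_inf (ext_inf (ext_inf (ext_iInf fun w => ext_himp (ext_const _)
        (ext_iSup fun x => ext_iSup fun y => ext_inf (ext_memB_right x) (ext_const _)))
        (ext_iInf fun x => ext_himp (ext_memB_right x) (ext_const _))) (ext_const _))
        (ext_const _)) (ext_const _)
    · refine f_and.2 ⟨f_all.2 fun x => f_imp.2 fun t1 _ hx => f_dense fun t2 ht2 => ?_,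
        fin_inj s t⟩
      obtain ⟨t3, ht3, X, _, h4⟩ := f_finN.1 hx t2 ht2
      exact ⟨t3, ht3, f_sub_congr (f_symm h4) (f_eqB_refl _ _) (f_sub_omega X t3)⟩
  · obtain ⟨h1, h2⟩ := f_and.1 h
    refine f_dense fun r hr => ?_
    obtain ⟨t, ht, n, hn⟩ := f_ex.1 h2 r hr
    obtain ⟨h3, h4⟩ := f_and.1 hn
    rw [cardLeB] at h4
    obtain ⟨t1, ht1, g, hg⟩ := f_ex.1 h4 t le_rfl
    obtain ⟨t2, ht2, s, hs⟩ := fin_elim hP (f_down h1 ((ht1.trans ht).trans hr))
      (f_down h3 ht1) hg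
    exact ⟨t2, (ht2.trans ht1).trans ht,
      f_mem_left (f_symm hs) (f_famC_intro _ (RO.mem_top _))⟩

end Pool.Agent.SC
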